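import Mathlib
import Pool.Agent.Lib_helper57.LDCDefs

/-! The 2-interval pattern problem for the model {<, crossing} on disjoint ground sets. -/

namespace Pool.Agent.Lib89.NN

/-! ### 2-intervals -/

/-- A 2-interval: a pair of closed intervals `[a, b]`, `[c, d]` of the real line, every point of
the first one being smaller than every point of the second one. -/
@[ext] structure TwoInterval where
  a : ℝ
  b : ℝ
  c : ℝ
  d : ℝ
  hab : a ≤ b
  hbc : b < c
  hcd : c ≤ d

/-- the left interval -/
def TwoInterval.left (D : TwoInterval) : Set ℝ := Set.Icc D.a D.b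

/-- the right interval -/
def TwoInterval.right (D : TwoInterval) : Set ℝ := Set.Icc D.c D.d

/-- `I < J`: every point of `I` is smaller than every point of `J`. -/
def Before (I J : Set ℝ) : Prop := ∀ x ∈ I, ∀ y ∈ J, x < y

/-- `D` and `D'` are disjoint. -/
def Apart (D D' : TwoInterval) : Prop := Disjoint (D.left ∪ D.right) (D'.left ∪ D'.right)

/-- `D < D'` (precedes). -/
def Precedes (D D' : TwoInterval) : Prop :=
  Before D.left D.right ∧ Before D.right D'.left ∧ Before D'.left D'.right

/-- `D ≬ D'` (crosses). -/
def Crosses (D D' : TwoInterval) : Prop :=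
  Before D.left D'.left ∧ Before D'.left D.right ∧ Before D.right D'.right

/-- The set `S` is `{<, ≬}`-comparable. -/
def Comparable (S : Set TwoInterval) : Prop :=
  ∀ D ∈ S, ∀ D' ∈ S, D ≠ D' →
    Apart D D' ∧ (Precedes D D' ∨ Precedes D' D ∨ Crosses D D' ∨ Crosses D' D)

/-- The interval ground set. -/
def groundSet (S : Set TwoInterval) : Set (Set ℝ) := {I | ∃ D ∈ S, I = D.left ∨ I = D.right}

/-- The interval ground set is disjoint: no two distinct intervals in it intersect. -/
def DisjointGround (S : Set TwoInterval) : Prop :=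
  ∀ I ∈ groundSet S, ∀ J ∈ groundSet S, I ≠ J → Disjoint I J

/-- The 2-intervals `([i, i], [j, j])`, `i < j`, of the edges of a graph on `{0, ..., m - 1}`. -/
def ofGraph {m : ℕ} (G : SimpleGraph (Fin m)) : Set TwoInterval :=
  {D | ∃ i j : Fin m, i < j ∧ G.Adj i j ∧ D.a = (i : ℕ) ∧ D.b = (i : ℕ) ∧
    D.c = (j : ℕ) ∧ D.d = (j : ℕ)}

/-- The maximum cardinality of a `{<, ≬}`-comparable subset. -/
noncomputable def opt (S : Set TwoInterval) : ℕ := sSup {k | ∃ T ⊆ S, Comparable T ∧ T.ncard = k}

/-- Degree condition: the ground set of the 2-intervals of `G` is disjoint, it has `m` members,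
and every member is the left or the right interval of at most three of the 2-intervals. -/
def Sparse {m : ℕ} (G : SimpleGraph (Fin m)) : Prop :=
  DisjointGround (ofGraph G) ∧ (groundSet (ofGraph G)).ncard = m ∧
    ∀ I ∈ groundSet (ofGraph G), {D ∈ ofGraph G | I = D.left ∨ I = D.right}.ncard ≤ 3

/-- `alg` finds a `{<, ≬}`-comparable subset of maximum cardinality, for all sparse instances;
input and output are given by adjacency matrices. -/
def Solves (alg : List Bool → List Bool) : Prop :=
  ∀ (m : ℕ) (G : SimpleGraph (Fin m)), Sparse G → ∃ H : SimpleGraph (Fin m), H ≤ G ∧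
    Comparable (ofGraph H) ∧ (ofGraph H).ncard = opt (ofGraph G) ∧
      alg (Pool.Agent.Lib57.encodeGraph G) = Pool.Agent.Lib57.encodeGraph H

end Pool.Agent.Lib89.NN
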