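import Mathlib
import Pool.Agent.Lib_helper89.NN.Problem

/-! Non-nested perfect matchings of ordered graphs in rows: definitions. -/

namespace Pool.Agent.Lib89.NN

/-! ### perfect non-nested matchings -/

/-- `M` is a set of edges `(i, j)`, `i < j`, of the ordered graph `G`, covering every vertex
exactly once, and no two of them are nested. -/
structure IsPNM {m : ℕ} (G : SimpleGraph (Fin m)) (M : Set (Fin m × Fin m)) : Prop where
  edge : ∀ e ∈ M, e.1 < e.2 ∧ G.Adj e.1 e.2
  cover : ∀ v, ∃! e, e ∈ M ∧ (e.1 = v ∨ e.2 = v)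
  mono : ∀ e ∈ M, ∀ f ∈ M, e.1 < f.1 → e.2 < f.2

/-! ### rows -/

/-- positions (counted from `n`) of the letter `a` in a word, in increasing order -/
def posF (a : Bool) : ℕ → List Bool → List ℕ
  | _, [] => []
  | n, x :: l => if x = a then n :: posF a (n + 1) l else posF a (n + 1) l

/-- One row transition. `b` and `b'` are two words, `true` = matched forward, `false` = matched
backward: the ones of `b` are matched, in increasing order, with the zeros of `b'` along edges
of `E`. -/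
def Step (E : ℕ → ℕ → Prop) (b b' : List Bool) : Prop :=
  List.Forall₂ E (posF true 0 b) (posF false 0 b')

/-- `k` transitions starting at row `r`; all later rows have `n` points. -/
def Run (n : ℕ) (E : ℕ → ℕ → ℕ → Prop) : ℕ → ℕ → List Bool → List Bool → Prop
  | _, 0, b, b' => b' = b
  | r, k + 1, b, b'' => ∃ b' : List Bool, b'.length = n ∧ Step (E r) b b' ∧
      Run n E (r + 1) k b' b''

/-- double rail code of a bit -/
def enc (x : Bool) : List Bool := [x, !x]

/-- double rail code of a word -/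
def encs (y : List Bool) : List Bool := y.flatMap enc

/-! ### the crossing gadgets -/

/-- the identity row -/
def idl : List (ℕ × ℕ) := [(0, 0), (1, 1), (2, 2), (3, 3)]

/-- the six row graphs of the four crossing gadgets; `pos`/`neg`: the variable occurs
positively/negatively in the clause -/
def W : Bool → Bool → List (List (ℕ × ℕ))
  | false, false => [[(0, 0), (0, 2), (1, 1), (2, 3), (3, 2)],
      [(0, 0), (0, 2), (1, 1), (1, 2), (2, 1), (3, 3)], [(0, 0), (1, 2), (2, 1), (3, 3)],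
      [(0, 0), (1, 2), (2, 1), (2, 3), (3, 2), (3, 3)], [(0, 1), (1, 0), (1, 3), (2, 3), (3, 2)],
      idl]
  | true, false => [[(0, 0), (0, 1), (1, 0), (2, 1), (3, 2)], [(0, 1), (1, 2), (2, 0), (3, 3)],
      [(0, 1), (1, 0), (1, 3), (2, 2)], idl, idl, idl]
  | false, true => [[(0, 0), (0, 1), (1, 0), (2, 2), (3, 1)], [(0, 1), (1, 2), (2, 0), (3, 3)],
      [(0, 1), (1, 0), (1, 3), (2, 2)], [(0, 1), (1, 0), (2, 2), (3, 3)], idl, idl]
  | true, true => [[(0, 0), (1, 0), (2, 2), (3, 1)], [(1, 1), (2, 0), (3, 3)], idl, idl, idl, idl]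

/-- the edges of row number `k` of a gadget -/
def gE (pos neg : Bool) (k : ℕ) : List (ℕ × ℕ) := (W pos neg).getD k idl

/-- `j` steps of the gadget, starting with row graph number `k`, on four points -/
def Loc (pos neg : Bool) : ℕ → ℕ → List Bool → List Bool → Prop
  | _, 0, s, s' => s' = s
  | k, j + 1, s, s'' => ∃ s' : List Bool, s'.length = 4 ∧
      Step (fun a b => (a, b) ∈ gE pos neg k) s s' ∧ Loc pos neg (k + 1) j s' s''

/-- the edges of row number `k` of the gadget at clause `c` and variable `v`; `o c v s` says that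
the literal `v` (for `s = true`) or its negation (for `s = false`) is in clause `c` -/
def gRel (o : ℕ → ℕ → Bool → Prop) (c v k a b : ℕ) : Prop :=
  ∃ pos neg : Bool, (pos = true ↔ o c v true) ∧ (neg = true ↔ o c v false) ∧ (a, b) ∈ gE pos neg k

/-- number of full rows: rows `1, ..., nK V C` have `2 * V + 2` points, rows `0` and `nK V C + 1`
have `V + 1` points. -/
def nK (V C : ℕ) : ℕ := C * (18 * V + 2) + 1

/-- `RowE V C o r p q`: point `p` of row `r` is adjacent to point `q` of row `r + 1`. -/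
def RowE (V C : ℕ) (o : ℕ → ℕ → Bool → Prop) (r p q : ℕ) : Prop :=
  (r = 0 ∧ p < V + 1 ∧ (q = 2 * p ∨ q = 2 * p + 1)) ∨
  (r = nK V C ∧ q < V + 1 ∧ (p = 2 * q ∨ p = 2 * q + 1)) ∨
  ∃ c < C,
    (r = 1 + c * (18 * V + 2) ∧ q = p + 1 ∧ q < 2 * V + 2) ∨
    (r = 2 + c * (18 * V + 2) ∧ ((p = 0 ∧ q = 0) ∨ (1 ≤ p ∧ q = p + 1 ∧ q < 2 * V + 2))) ∨
    ∃ v < V, ∃ k < 6,
      (r = 3 + c * (18 * V + 2) + 18 * v + 3 * k ∧
        ((p = q ∧ p < 2 * V + 2 ∧ (p < 2 * v ∨ 2 * v + 4 ≤ p)) ∨
          ∃ a < 4, ∃ b < 4, p = 2 * v + a ∧ q = 2 * v + b ∧ gRel o c v k a b)) ∨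
      ((r = 4 + c * (18 * V + 2) + 18 * v + 3 * k ∨ r = 5 + c * (18 * V + 2) + 18 * v + 3 * k) ∧
        p = q ∧ p < 2 * V + 2)

/-- number of points of a row -/
def wd (V C r : ℕ) : ℕ := if r = 0 ∨ r = nK V C + 1 then V + 1 else 2 * V + 2

/-- first vertex of a row -/
def off (V r : ℕ) : ℕ := r * (2 * V + 2) - (V + 1)

/-- number of vertices -/
def nV (V C : ℕ) : ℕ := (nK V C + 1) * (2 * V + 2)

/-- directed adjacency of vertices -/
def DAdj (V C : ℕ) (o : ℕ → ℕ → Bool → Prop) (u v : ℕ) : Prop :=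
  ∃ r < nK V C + 1, ∃ p < 2 * V + 2, ∃ q < 2 * V + 2,
    u = off V r + p ∧ v = off V (r + 1) + q ∧ RowE V C o r p q

/-- the graph -/
def theGraph (V C : ℕ) (o : ℕ → ℕ → Bool → Prop) : SimpleGraph (Fin (nV V C)) where
  Adj u v := u ≠ v ∧ (DAdj V C o u v ∨ DAdj V C o v u)
  symm := ⟨fun _ _ h => ⟨h.1.symm, h.2.symm⟩⟩
  loopless := ⟨fun _ h => h.1 rfl⟩

/-- the row chains -/
def Chain (V C : ℕ) (o : ℕ → ℕ → Bool → Prop) (b : ℕ → List Bool) : Prop :=
  (∀ r ≤ nK V C + 1, (b r).length = wd V C r) ∧ b 0 = List.replicate (wd V C 0) true ∧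
    b (nK V C + 1) = List.replicate (wd V C (nK V C + 1)) false ∧
    ∀ r < nK V C + 1, Step (RowE V C o r) (b r) (b (r + 1))

end Pool.Agent.Lib89.NN
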