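import Mathlib
import Pool.Agent.Lib_helper57.LDCHard
import Pool.Agent.Lib_helper89.NN.Defs

/-! Decidable predicates are in `P`; the test whether a matrix has no zero row. -/

namespace Pool.Agent.Lib89.NN

open Pool.Agent.Lib57 Function

/-- The truth value of a definable predicate is computable in polynomial time. -/
theorem isPolyTime_of_isForm {φ : List Bool → (ℕ → ℕ) → Prop} (hF : IsForm 0 φ) :
    N68a2faeb.IsPolyTime (fun x : List Bool => dec (φ x (fun _ => 0))) := by
  obtain ⟨p, B, ⟨c, hc⟩, hp⟩ := hF.comp 3 (fun _ => 0)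
    ⟨le_rfl, fun i hi => absurd hi (Nat.not_lt_zero i)⟩
  refine computable_of_prog (α := List Bool) (β := Bool) N487b59b3.bitEncode
    N487b59b3.bitEncode _ (.seq decodeP (.seq (revP 3 0) (.seq p (clearP 0)))) 0 2
    ((Polynomial.X + 2) ^ c + 16 * Polynomial.X + 6) ?_
  intro x
  have h1 := decodeP_exec (Function.update (fun _ => []) 0 (N487b59b3.bitEncode x)) x
    (by rw [Function.update_self, bitEncode_eq_tri]) (by simp)
  have h2 := revP_exec (a := 3) (b := 0) (by omega)
    (update (update (Function.update (fun _ => []) 0 (N487b59b3.bitEncode x)) 0 []) 3 x.reverse)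
  have h2' : ExecLe (revP 3 0)
      (update (update (Function.update (fun _ => []) 0 (N487b59b3.bitEncode x)) 0 []) 3 x.reverse)
      (update (fun _ => []) 0 x) (x.length * 5 + 1) := by
    refine (h2.mono (by simp)).congr ?_
    funext j
    simp only [Function.update_apply]
    split_ifs <;> simp_all
  have hag : Agree 0 3 (fun _ => 0) x (fun _ => 0) (update (fun _ => []) 0 x) :=
    ⟨by simp, fun i hi => absurd hi (Nat.not_lt_zero i), fun j hj => by
      rw [Function.update_of_ne (by omega)]⟩
  have h3 := hp x (fun _ => 0) (update (fun _ => []) 0 x) x.length hag le_rfl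
    (fun i hi => absurd hi (Nat.not_lt_zero i))
  have h4 := clearP_exec 0 (update (update (fun _ => []) 0 x) 2
    (dec (φ x fun _ => 0) :: (update (fun _ => []) 0 x : Store) 2))
  have h5 := (h1.seq (h2'.seq (h3.seq h4)))
  obtain ⟨t, ht, he⟩ := h5.congr (σ'' := Function.update (fun _ => []) 2
    (N487b59b3.bitEncode (dec (φ x fun _ => 0)))) (by
      have hb : N487b59b3.bitEncode (dec (φ x fun _ => 0)) = [dec (φ x fun _ => 0)] := rfl
      rw [hb]
      funext j
      simp only [Function.update_apply]
      split_ifs <;> simp_all)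
  refine ⟨t, ht.trans ?_, he⟩
  have hlen : (N487b59b3.bitEncode x).length = 3 * x.length := by
    rw [bitEncode_eq_tri]
    clear * -
    induction x with
    | nil => rfl
    | cons a l ih => rw [tri_cons]; simp [ih]; ring
  have hB : B x.length ≤ (3 * x.length + 2) ^ c :=
    (hc _).trans (Nat.pow_le_pow_left (by omega) c)
  rw [hlen]
  simp only [Polynomial.eval_add, Polynomial.eval_pow, Polynomial.eval_X, Polynomial.eval_mul,
    Polynomial.eval_ofNat]
  simp only [ne_eq, OfNat.zero_ne_ofNat, OfNat.ofNat_ne_zero, not_false_eq_true,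
    Function.update_of_ne, Function.update_self] at ht ⊢
  omega

/-- the matrix given by `x`, row by row, is square and has no zero row -/
def NoZeroRow (x : List Bool) : Prop :=
  ∃ m < x.length + 1, m * m = x.length ∧ ∀ i < m, ∃ j < m, x[i * m + j]? = some true

theorem form_noZeroRow : IsForm 0 (fun x _ => NoZeroRow x) := by
  unfold NoZeroRow
  refine (IsForm.ex (φ := fun x e => e 0 * e 0 = x.length ∧
    ∀ i < e 0, ∃ j < e 0, x[i * e 0 + j]? = some true)
    ((IsTerm.len 0).add (IsTerm.const 0 1)) ?_).congr fun x e => by simp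
  refine (IsForm.eq ((IsTerm.var (i := 0) (by norm_num)).mul (IsTerm.var (i := 0) (by norm_num)))
    (IsTerm.len 1)).and ?_
  refine (IsForm.all (φ := fun x e => ∃ j < e 0, x[e 1 * e 0 + j]? = some true)
    (IsTerm.var (i := 0) (by norm_num)) ?_).congr fun x e => by simp
  refine (IsForm.ex (φ := fun x e => x[e 1 * e 0 + e 2]? = some true)
    (IsTerm.var (i := 0) (by norm_num)) ?_).congr fun x e => by simp
  exact IsForm.bit (((IsTerm.var (i := 1) (by norm_num)).mul (IsTerm.var (i := 0) (by norm_num))).add
    (IsTerm.var (i := 2) (by norm_num)))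

theorem noZeroRow_encode {m : ℕ} (H : SimpleGraph (Fin m)) :
    NoZeroRow (encodeGraph H) ↔ ∀ v, ∃ u, H.Adj v u := by
  unfold NoZeroRow
  have hlen := length_encodeGraph H
  constructor
  · rintro ⟨m', _, h1, h2⟩ v
    rw [hlen] at h1
    have h3 : m' = m := Nat.mul_self_inj.1 h1
    subst h3
    obtain ⟨j, hj, h4⟩ := h2 v v.isLt
    have h5 := encodeGraph_get H v ⟨j, hj⟩
    rw [Nat.mul_comm] at h5
    simp only at h5
    rw [h5] at h4
    refine ⟨⟨j, hj⟩, ?_⟩
    by_contra hn
    rw [dec_neg hn] at h4
    simp at h4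
  · intro h
    refine ⟨m, ?_, hlen.symm, fun i hi => ?_⟩
    · rw [hlen]
      nlinarith [Nat.zero_le m]
    · obtain ⟨u, hu⟩ := h ⟨i, hi⟩
      refine ⟨u, u.isLt, ?_⟩
      have h5 := encodeGraph_get H ⟨i, hi⟩ u
      rw [Nat.mul_comm] at h5
      simp only at h5
      rw [h5, dec_pos hu]

/-- the test as a decision problem -/
noncomputable def noZeroRowD : N68a2faeb.DecisionProblem := fun x => dec (NoZeroRow x)

theorem noZeroRowD_mem : noZeroRowD ∈ N68a2faeb.P := isPolyTime_of_isForm form_noZeroRow

end Pool.Agent.Lib89.NN
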