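import Mathlib
import Pool.Agent.Lib_helper89.NN.Defs

/-! # Block RW: the rows -/

namespace Pool.Agent.Lib89.NN

variable {V C : ℕ} {o : ℕ → ℕ → Bool → Prop}

private theorem RW_key {V c c' t t' : ℕ} (ht : t < 18 * V + 2) (ht' : t' < 18 * V + 2)
    (h : c * (18 * V + 2) + t = c' * (18 * V + 2) + t') : c = c' ∧ t = t' := by
  have h1 : c = c' := by
    rcases lt_trichotomy c c' with hlt | heq | hgt
    · exfalso
      have h2 : (c + 1) * (18 * V + 2) ≤ c' * (18 * V + 2) := Nat.mul_le_mul_right _ hlt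
      rw [add_mul, one_mul] at h2
      omega
    · exact heq
    · exfalso
      have h2 : (c' + 1) * (18 * V + 2) ≤ c * (18 * V + 2) := Nat.mul_le_mul_right _ hgt
      rw [add_mul, one_mul] at h2
      omega
  subst h1
  exact ⟨rfl, by omega⟩

private theorem RW_c {c t : ℕ} (hc : c < C) (ht : t < 18 * V + 2) (p q : ℕ) :
    RowE V C o (1 + (c * (18 * V + 2) + t)) p q ↔
      (t = 0 ∧ q = p + 1 ∧ q < 2 * V + 2) ∨
      (t = 1 ∧ ((p = 0 ∧ q = 0) ∨ (1 ≤ p ∧ q = p + 1 ∧ q < 2 * V + 2))) ∨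
      ∃ v < V, ∃ k < 6,
        (t = 2 + 18 * v + 3 * k ∧
          ((p = q ∧ p < 2 * V + 2 ∧ (p < 2 * v ∨ 2 * v + 4 ≤ p)) ∨
            ∃ a < 4, ∃ b < 4, p = 2 * v + a ∧ q = 2 * v + b ∧ gRel o c v k a b)) ∨
        ((t = 3 + 18 * v + 3 * k ∨ t = 4 + 18 * v + 3 * k) ∧ p = q ∧ p < 2 * V + 2) := by
  unfold RowE nK
  constructor
  · rintro (⟨h, _⟩ | ⟨h, _⟩ | ⟨c', hc', ⟨h, h2⟩ | ⟨h, h2⟩ | ⟨v, hv, k, hk, ⟨h, h2⟩ | ⟨h | h, h2⟩⟩⟩)
    · omega
    · exfalso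
      have := RW_key (V := V) (c := c) (c' := C) (t := t) (t' := 0) ht (by omega) (by omega)
      omega
    · have := RW_key (V := V) (c := c) (c' := c') (t := t) (t' := 0) ht (by omega) (by omega)
      exact Or.inl ⟨this.2, h2⟩
    · have := RW_key (V := V) (c := c) (c' := c') (t := t) (t' := 1) ht (by omega) (by omega)
      exact Or.inr (Or.inl ⟨this.2, h2⟩)
    · have := RW_key (V := V) (c := c) (c' := c') (t := t) (t' := 2 + 18 * v + 3 * k) ht (by omega)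
        (by omega)
      obtain ⟨e1, e2⟩ := this
      subst e1
      exact Or.inr (Or.inr ⟨v, hv, k, hk, Or.inl ⟨e2, h2⟩⟩)
    · have := RW_key (V := V) (c := c) (c' := c') (t := t) (t' := 3 + 18 * v + 3 * k) ht (by omega)
        (by omega)
      exact Or.inr (Or.inr ⟨v, hv, k, hk, Or.inr ⟨Or.inl this.2, h2⟩⟩)
    · have := RW_key (V := V) (c := c) (c' := c') (t := t) (t' := 4 + 18 * v + 3 * k) ht (by omega)
        (by omega)
      exact Or.inr (Or.inr ⟨v, hv, k, hk, Or.inr ⟨Or.inr this.2, h2⟩⟩)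
  · rintro (⟨h, h2⟩ | ⟨h, h2⟩ | ⟨v, hv, k, hk, ⟨h, h2⟩ | ⟨h | h, h2⟩⟩)
    · exact Or.inr (Or.inr ⟨c, hc, Or.inl ⟨by omega, h2⟩⟩)
    · exact Or.inr (Or.inr ⟨c, hc, Or.inr (Or.inl ⟨by omega, h2⟩)⟩)
    · exact Or.inr (Or.inr ⟨c, hc, Or.inr (Or.inr ⟨v, hv, k, hk, Or.inl ⟨by omega, h2⟩⟩)⟩)
    · exact Or.inr (Or.inr ⟨c, hc, Or.inr (Or.inr ⟨v, hv, k, hk, Or.inr ⟨Or.inl (by omega), h2⟩⟩)⟩)
    · exact Or.inr (Or.inr ⟨c, hc, Or.inr (Or.inr ⟨v, hv, k, hk, Or.inr ⟨Or.inr (by omega), h2⟩⟩)⟩)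

theorem rowE_start (p q : ℕ) : RowE V C o 0 p q ↔ p < V + 1 ∧ (q = 2 * p ∨ q = 2 * p + 1) := by
  unfold RowE nK
  constructor
  · rintro (⟨_, h⟩ | ⟨h, _⟩ | ⟨c', hc', ⟨h, h2⟩ | ⟨h, h2⟩ | ⟨v, hv, k, hk, ⟨h, h2⟩ | ⟨h | h, h2⟩⟩⟩)
    · exact h
    all_goals exfalso; omega
  · exact fun h => Or.inl ⟨rfl, h⟩

theorem rowE_end (p q : ℕ) :
    RowE V C o (nK V C) p q ↔ q < V + 1 ∧ (p = 2 * q ∨ p = 2 * q + 1) := by
  unfold RowE nK
  constructor
  · rintro (⟨h, _⟩ | ⟨_, h⟩ | ⟨c', hc', ⟨h, h2⟩ | ⟨h, h2⟩ | ⟨v, hv, k, hk, ⟨h, h2⟩ | ⟨h | h, h2⟩⟩⟩)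
    · exfalso; omega
    · exact h
    · exfalso
      have := RW_key (V := V) (c := C) (c' := c') (t := 0) (t' := 0) (by omega) (by omega) (by omega)
      omega
    · exfalso
      have := RW_key (V := V) (c := C) (c' := c') (t := 0) (t' := 1) (by omega) (by omega) (by omega)
      omega
    · exfalso
      have := RW_key (V := V) (c := C) (c' := c') (t := 0) (t' := 2 + 18 * v + 3 * k) (by omega)
        (by omega) (by omega)
      omega
    · exfalso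
      have := RW_key (V := V) (c := C) (c' := c') (t := 0) (t' := 3 + 18 * v + 3 * k) (by omega)
        (by omega) (by omega)
      omega
    · exfalso
      have := RW_key (V := V) (c := C) (c' := c') (t := 0) (t' := 4 + 18 * v + 3 * k) (by omega)
        (by omega) (by omega)
      omega
  · exact fun h => Or.inr (Or.inl ⟨rfl, h⟩)

theorem rowE_sh1 {c : ℕ} (hc : c < C) (p q : ℕ) :
    RowE V C o (1 + c * (18 * V + 2)) p q ↔ q = p + 1 ∧ q < 2 * V + 2 := by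
  have e : 1 + c * (18 * V + 2) = 1 + (c * (18 * V + 2) + 0) := by omega
  rw [e, RW_c hc (by omega)]
  constructor
  · rintro (⟨_, h⟩ | ⟨h, _⟩ | ⟨v, hv, k, hk, ⟨h, _⟩ | ⟨h | h, _⟩⟩)
    · exact h
    all_goals exfalso; omega
  · exact fun h => Or.inl ⟨rfl, h⟩

theorem rowE_sh2 {c : ℕ} (hc : c < C) (p q : ℕ) :
    RowE V C o (2 + c * (18 * V + 2)) p q ↔
      (p = 0 ∧ q = 0) ∨ (1 ≤ p ∧ q = p + 1 ∧ q < 2 * V + 2) := by
  have e : 2 + c * (18 * V + 2) = 1 + (c * (18 * V + 2) + 1) := by omega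
  rw [e, RW_c hc (by omega)]
  constructor
  · rintro (⟨h, _⟩ | ⟨_, h⟩ | ⟨v, hv, k, hk, ⟨h, _⟩ | ⟨h | h, _⟩⟩)
    · exfalso; omega
    · exact h
    all_goals exfalso; omega
  · exact fun h => Or.inr (Or.inl ⟨rfl, h⟩)

theorem rowE_gen {c v k : ℕ} (hc : c < C) (hv : v < V) (hk : k < 6) (p q : ℕ) :
    RowE V C o (3 + c * (18 * V + 2) + 18 * v + 3 * k) p q ↔
      (p = q ∧ p < 2 * V + 2 ∧ (p < 2 * v ∨ 2 * v + 4 ≤ p)) ∨
        ∃ a < 4, ∃ b < 4, p = 2 * v + a ∧ q = 2 * v + b ∧ gRel o c v k a b := by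
  have e : 3 + c * (18 * V + 2) + 18 * v + 3 * k =
      1 + (c * (18 * V + 2) + (2 + 18 * v + 3 * k)) := by omega
  rw [e, RW_c hc (by omega)]
  constructor
  · rintro (⟨h, _⟩ | ⟨h, _⟩ | ⟨v', hv', k', hk', ⟨h, h2⟩ | ⟨h | h, _⟩⟩)
    · exfalso; omega
    · exfalso; omega
    · have e1 : v' = v := by omega
      have e2 : k' = k := by omega
      subst e1; subst e2
      exact h2
    all_goals exfalso; omega
  · exact fun h => Or.inr (Or.inr ⟨v, hv, k, hk, Or.inl ⟨rfl, h⟩⟩)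

theorem rowE_id1 {c v k : ℕ} (hc : c < C) (hv : v < V) (hk : k < 6) (p q : ℕ) :
    RowE V C o (4 + c * (18 * V + 2) + 18 * v + 3 * k) p q ↔ p = q ∧ p < 2 * V + 2 := by
  have e : 4 + c * (18 * V + 2) + 18 * v + 3 * k =
      1 + (c * (18 * V + 2) + (3 + 18 * v + 3 * k)) := by omega
  rw [e, RW_c hc (by omega)]
  constructor
  · rintro (⟨h, _⟩ | ⟨h, _⟩ | ⟨v', hv', k', hk', ⟨h, _⟩ | ⟨h | h, h2⟩⟩)
    · exfalso; omega
    · exfalso; omega
    · exfalso; omega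
    · exact h2
    · exact h2
  · exact fun h => Or.inr (Or.inr ⟨v, hv, k, hk, Or.inr ⟨Or.inl rfl, h⟩⟩)

theorem rowE_id2 {c v k : ℕ} (hc : c < C) (hv : v < V) (hk : k < 6) (p q : ℕ) :
    RowE V C o (5 + c * (18 * V + 2) + 18 * v + 3 * k) p q ↔ p = q ∧ p < 2 * V + 2 := by
  have e : 5 + c * (18 * V + 2) + 18 * v + 3 * k =
      1 + (c * (18 * V + 2) + (4 + 18 * v + 3 * k)) := by omega
  rw [e, RW_c hc (by omega)]
  constructor
  · rintro (⟨h, _⟩ | ⟨h, _⟩ | ⟨v', hv', k', hk', ⟨h, _⟩ | ⟨h | h, h2⟩⟩)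
    · exfalso; omega
    · exfalso; omega
    · exfalso; omega
    · exact h2
    · exact h2
  · exact fun h => Or.inr (Or.inr ⟨v, hv, k, hk, Or.inr ⟨Or.inr rfl, h⟩⟩)

/-- every row below `nK V C + 1` is of exactly one kind -/
theorem row_cases {r : ℕ} (hr : r < nK V C + 1) :
    r = 0 ∨ r = nK V C ∨ ∃ c < C, r = 1 + c * (18 * V + 2) ∨ r = 2 + c * (18 * V + 2) ∨
      ∃ v < V, ∃ k < 6, r = 3 + c * (18 * V + 2) + 18 * v + 3 * k ∨
        r = 4 + c * (18 * V + 2) + 18 * v + 3 * k ∨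
        r = 5 + c * (18 * V + 2) + 18 * v + 3 * k := by
  unfold nK at hr ⊢
  rcases Nat.eq_zero_or_pos r with h0 | h0
  · exact Or.inl h0
  by_cases h1 : r = C * (18 * V + 2) + 1
  · exact Or.inr (Or.inl h1)
  refine Or.inr (Or.inr ?_)
  have h2 : r - 1 < C * (18 * V + 2) := by omega
  have h3 : (r - 1) / (18 * V + 2) < C := Nat.div_lt_of_lt_mul (by rw [mul_comm]; exact h2)
  have h4 : (r - 1) / (18 * V + 2) * (18 * V + 2) + (r - 1) % (18 * V + 2) = r - 1 :=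
    Nat.div_add_mod' _ _
  have h5 : (r - 1) % (18 * V + 2) < 18 * V + 2 := Nat.mod_lt _ (by omega)
  generalize (r - 1) / (18 * V + 2) = c at h3 h4
  generalize (r - 1) % (18 * V + 2) = t at h4 h5
  refine ⟨c, h3, ?_⟩
  by_cases ht0 : t = 0
  · left; omega
  by_cases ht1 : t = 1
  · right; left; omega
  right; right
  refine ⟨(t - 2) / 18, by omega, (t - 2) % 18 / 3, by omega, ?_⟩
  omega

end Pool.Agent.Lib89.NN
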