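import Mathlib
import Pool.Agent.Lib_helper89.NN.RW

/-! Degrees of the graph. -/

namespace Pool.Agent.Lib89.NN

variable {V C : ℕ} {o : ℕ → ℕ → Bool → Prop}

/-- at most one value -/
private def One (P : ℕ → Prop) : Prop := ∃ q₁, ∀ q, P q → q = q₁

/-- at most two values -/
private def Two (P : ℕ → Prop) : Prop := ∃ q₁ q₂, ∀ q, P q → q = q₁ ∨ q = q₂

private theorem one_two {P : ℕ → Prop} (h : One P) : Two P := by
  obtain ⟨q, hq⟩ := h
  exact ⟨q, q, fun x hx => Or.inl (hq x hx)⟩

/-- the second coordinates of the pairs in a list with first coordinate `a` -/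
private def fw (l : List (ℕ × ℕ)) (a : ℕ) : List ℕ := (l.filter (fun e => e.1 = a)).map Prod.snd

private def bw (l : List (ℕ × ℕ)) (b : ℕ) : List ℕ := (l.filter (fun e => e.2 = b)).map Prod.fst

private theorem mem_fw (l : List (ℕ × ℕ)) (a b : ℕ) : (a, b) ∈ l ↔ b ∈ fw l a := by
  simp [fw]

private theorem mem_bw (l : List (ℕ × ℕ)) (a b : ℕ) : (a, b) ∈ l ↔ a ∈ bw l b := by
  simp [bw]

private theorem fw_len : ∀ pos neg : Bool, ∀ k < 6, ∀ a < 4, (fw (gE pos neg k) a).length ≤ 2 := by
  decide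

private theorem bw_len : ∀ pos neg : Bool, ∀ k < 6, ∀ b < 4, (bw (gE pos neg k) b).length ≤ 2 := by
  decide

private theorem two_of_list {l : List ℕ} (h : l.length ≤ 2) : Two (fun q => q ∈ l) := by
  match l, h with
  | [], _ => exact ⟨0, 0, fun q hq => by simp at hq⟩
  | [x], _ => exact ⟨x, x, fun q hq => by simpa using hq⟩
  | [x, y], _ => exact ⟨x, y, fun q hq => by simpa using hq⟩

open Classical in
private theorem gRel_iff (c v k a b : ℕ) :
    gRel o c v k a b ↔ (a, b) ∈ gE (decide (o c v true)) (decide (o c v false)) k := by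
  constructor
  · rintro ⟨pos, neg, hp, hn, h⟩
    have h1 : pos = decide (o c v true) := by
      cases pos <;> simp_all
    have h2 : neg = decide (o c v false) := by
      cases neg <;> simp_all
    rw [← h1, ← h2]; exact h
  · intro h
    exact ⟨_, _, by simp, by simp, h⟩

private theorem gRel_two_fw (c v : ℕ) {k a : ℕ} (hk : k < 6) (ha : a < 4) :
    Two (fun b => gRel o c v k a b) := by
  classical
  obtain ⟨x, y, h⟩ := two_of_list (fw_len (decide (o c v true)) (decide (o c v false)) k hk a ha)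
  refine ⟨x, y, fun q hq => h q ?_⟩
  exact (mem_fw _ _ _).1 ((gRel_iff c v k a q).1 hq)

private theorem gRel_two_bw (c v : ℕ) {k b : ℕ} (hk : k < 6) (hb : b < 4) :
    Two (fun a => gRel o c v k a b) := by
  classical
  obtain ⟨x, y, h⟩ := two_of_list (bw_len (decide (o c v true)) (decide (o c v false)) k hk b hb)
  refine ⟨x, y, fun q hq => h q ?_⟩
  exact (mem_bw _ _ _).1 ((gRel_iff c v k q b).1 hq)

private theorem gen_two_fw {c v k : ℕ} (hc : c < C) (hv : v < V) (hk : k < 6) (p : ℕ) :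
    Two (fun q => RowE V C o (3 + c * (18 * V + 2) + 18 * v + 3 * k) p q) := by
  by_cases hp : p < 2 * v ∨ 2 * v + 4 ≤ p
  · refine ⟨p, p, fun q hq => ?_⟩
    replace hq := (rowE_gen hc hv hk _ _).1 hq
    rcases hq with h | ⟨a, ha, b, hb, h1, h2, _⟩
    · exact Or.inl h.1.symm
    · omega
  · push Not at hp
    obtain ⟨x, y, h⟩ := gRel_two_fw (o := o) c v (k := k) (a := p - 2 * v) hk (by omega)
    refine ⟨2 * v + x, 2 * v + y, fun q hq => ?_⟩
    replace hq := (rowE_gen hc hv hk _ _).1 hq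
    rcases hq with h' | ⟨a, ha, b, hb, h1, h2, h3⟩
    · omega
    · have : a = p - 2 * v := by omega
      subst this
      rcases h b h3 with h4 | h4 <;> subst h4
      · exact Or.inl h2
      · exact Or.inr h2

private theorem gen_two_bw {c v k : ℕ} (hc : c < C) (hv : v < V) (hk : k < 6) (q : ℕ) :
    Two (fun p => RowE V C o (3 + c * (18 * V + 2) + 18 * v + 3 * k) p q) := by
  by_cases hq' : q < 2 * v ∨ 2 * v + 4 ≤ q
  · refine ⟨q, q, fun p hp => ?_⟩
    replace hp := (rowE_gen hc hv hk _ _).1 hp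
    rcases hp with h | ⟨a, ha, b, hb, h1, h2, _⟩
    · exact Or.inl h.1
    · omega
  · push Not at hq'
    obtain ⟨x, y, h⟩ := gRel_two_bw (o := o) c v (k := k) (b := q - 2 * v) hk (by omega)
    refine ⟨2 * v + x, 2 * v + y, fun p hp => ?_⟩
    replace hp := (rowE_gen hc hv hk _ _).1 hp
    rcases hp with h' | ⟨a, ha, b, hb, h1, h2, h3⟩
    · omega
    · have : b = q - 2 * v := by omega
      subst this
      rcases h a h3 with h4 | h4 <;> subst h4
      · exact Or.inl h1
      · exact Or.inr h1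

/-- the rows with two forward edges -/
private def Fat (V C r : ℕ) : Prop :=
  r = 0 ∨ ∃ c < C, ∃ v < V, ∃ k < 6, r = 3 + c * (18 * V + 2) + 18 * v + 3 * k

private theorem fw_two {r : ℕ} (hr : r < nK V C + 1) (p : ℕ) :
    Two (fun q => RowE V C o r p q) := by
  rcases row_cases hr with rfl | rfl | ⟨c, hc, rfl | rfl | ⟨v, hv, k, hk, rfl | rfl | rfl⟩⟩
  · exact ⟨2 * p, 2 * p + 1, fun q hq => ((rowE_start p q).1 hq).2⟩
  · exact one_two ⟨p / 2, fun q hq => by have := (rowE_end p q).1 hq; omega⟩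
  · exact one_two ⟨p + 1, fun q hq => ((rowE_sh1 hc p q).1 hq).1⟩
  · exact one_two ⟨if p = 0 then 0 else p + 1, fun q hq => by
      have := (rowE_sh2 hc p q).1 hq
      split_ifs <;> omega⟩
  · exact gen_two_fw hc hv hk p
  · exact one_two ⟨p, fun q hq => ((rowE_id1 hc hv hk p q).1 hq).1.symm⟩
  · exact one_two ⟨p, fun q hq => ((rowE_id2 hc hv hk p q).1 hq).1.symm⟩

private theorem fw_one {r : ℕ} (hr : r < nK V C + 1) (p : ℕ) (hf : ¬ Fat V C r) :
    One (fun q => RowE V C o r p q) := by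
  rcases row_cases hr with rfl | rfl | ⟨c, hc, rfl | rfl | ⟨v, hv, k, hk, rfl | rfl | rfl⟩⟩
  · exact absurd (Or.inl rfl) hf
  · exact ⟨p / 2, fun q hq => by have := (rowE_end p q).1 hq; omega⟩
  · exact ⟨p + 1, fun q hq => ((rowE_sh1 hc p q).1 hq).1⟩
  · exact ⟨if p = 0 then 0 else p + 1, fun q hq => by
      have := (rowE_sh2 hc p q).1 hq
      split_ifs <;> omega⟩
  · exact absurd (Or.inr ⟨c, hc, v, hv, k, hk, rfl⟩) hf
  · exact ⟨p, fun q hq => ((rowE_id1 hc hv hk p q).1 hq).1.symm⟩
  · exact ⟨p, fun q hq => ((rowE_id2 hc hv hk p q).1 hq).1.symm⟩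

private theorem bw_two {r : ℕ} (hr : r < nK V C + 1) (q : ℕ) :
    Two (fun p => RowE V C o r p q) := by
  rcases row_cases hr with rfl | rfl | ⟨c, hc, rfl | rfl | ⟨v, hv, k, hk, rfl | rfl | rfl⟩⟩
  · exact one_two ⟨q / 2, fun p hp => by have := (rowE_start p q).1 hp; omega⟩
  · exact ⟨2 * q, 2 * q + 1, fun p hp => ((rowE_end p q).1 hp).2⟩
  · exact one_two ⟨q - 1, fun p hp => by have := (rowE_sh1 hc p q).1 hp; omega⟩
  · exact one_two ⟨q - 1, fun p hp => by have := (rowE_sh2 hc p q).1 hp; omega⟩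
  · exact gen_two_bw hc hv hk q
  · exact one_two ⟨q, fun p hp => ((rowE_id1 hc hv hk p q).1 hp).1⟩
  · exact one_two ⟨q, fun p hp => ((rowE_id2 hc hv hk p q).1 hp).1⟩

/-- in a row after which a fat row comes there is only one backward edge -/
private theorem bw_one {r : ℕ} (hr : r < nK V C + 1) (q : ℕ) (hf : Fat V C (r + 1)) :
    One (fun p => RowE V C o r p q) := by
  rcases hf with hf | ⟨c', hc', v', hv', k', hk', hf⟩
  · omega
  rcases Nat.eq_zero_or_pos k' with hk0 | hk0
  · rcases Nat.eq_zero_or_pos v' with hv0 | hv0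
    · have : r = 2 + c' * (18 * V + 2) := by subst hk0 hv0; omega
      subst this
      exact ⟨q - 1, fun p hp => by have := (rowE_sh2 hc' p q).1 hp; omega⟩
    · have : r = 5 + c' * (18 * V + 2) + 18 * (v' - 1) + 3 * 5 := by subst hk0; omega
      subst this
      exact ⟨q, fun p hp => ((rowE_id2 hc' (by omega) (by omega) p q).1 hp).1⟩
  · have : r = 5 + c' * (18 * V + 2) + 18 * v' + 3 * (k' - 1) := by omega
    subst this
    exact ⟨q, fun p hp => ((rowE_id2 hc' hv' (by omega) p q).1 hp).1⟩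

/-- `u` is point `p` of row `r` -/
private def At (V r p u : ℕ) : Prop := u = off V r + p ∧ p < 2 * V + 2 ∧ (r = 0 → p < V + 1)

private theorem at_unique {r p r' p' u : ℕ} (h : At V r p u) (h' : At V r' p' u) :
    r = r' ∧ p = p' := by
  obtain ⟨h1, h2, h3⟩ := h
  obtain ⟨h1', h2', h3'⟩ := h'
  have key : ∀ r p : ℕ, u = off V r + p → 1 ≤ r → u + (V + 1) = (2 * V + 2) * r + p := by
    intro r p hu hr
    have : (V + 1) ≤ r * (2 * V + 2) := by nlinarith
    rw [hu, off, Nat.mul_comm (2 * V + 2) r]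
    omega
  rcases Nat.eq_zero_or_pos r with hr | hr <;> rcases Nat.eq_zero_or_pos r' with hr' | hr'
  · subst hr hr'
    exact ⟨rfl, by omega⟩
  · exfalso
    have k1 := key r' p' h1' hr'
    subst hr
    have h4 := h3 rfl
    have : off V 0 = 0 := by simp [off]
    rw [this] at h1
    nlinarith
  · exfalso
    have k1 := key r p h1 hr
    subst hr'
    have h4 := h3' rfl
    have : off V 0 = 0 := by simp [off]
    rw [this] at h1'
    nlinarith
  · have k1 := key r p h1 hr
    have k2 := key r' p' h1' hr'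
    have e1 : (u + (V + 1)) / (2 * V + 2) = r := by
      rw [k1, Nat.mul_add_div (by omega), Nat.div_eq_of_lt h2, Nat.add_zero]
    have e2 : (u + (V + 1)) / (2 * V + 2) = r' := by
      rw [k2, Nat.mul_add_div (by omega), Nat.div_eq_of_lt h2', Nat.add_zero]
    have e3 : r = r' := by rw [← e1, ← e2]
    subst e3
    exact ⟨rfl, by omega⟩

private theorem exists_at {u : ℕ} (hu : u < nV V C) :
    ∃ r p, r ≤ nK V C + 1 ∧ p < wd V C r ∧ At V r p u := by
  rcases Nat.lt_or_ge u (V + 1) with h | h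
  · refine ⟨0, u, by omega, by simp [wd, h], ?_, by omega, fun _ => h⟩
    simp [off]
  · set r := (u + (V + 1)) / (2 * V + 2) with hr
    set p := (u + (V + 1)) % (2 * V + 2) with hp
    have hdm : (2 * V + 2) * r + p = u + (V + 1) := Nat.div_add_mod _ _
    have hp' : p < 2 * V + 2 := Nat.mod_lt _ (by omega)
    have hr1 : 1 ≤ r := by
      rw [hr, Nat.one_le_div_iff (by omega)]; omega
    have hu' : u < (nK V C + 1) * (2 * V + 2) := hu
    have hr2 : r ≤ nK V C + 1 := by
      by_contra hcon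
      have : nK V C + 2 ≤ r := by omega
      nlinarith
    refine ⟨r, p, hr2, ?_, ?_, hp', fun h0 => by omega⟩
    · unfold wd
      split_ifs with hc
      · rcases hc with hc | hc
        · omega
        · rw [hc] at hdm
          nlinarith
      · exact hp'
    · rw [off, Nat.mul_comm r]
      have : (V + 1) ≤ (2 * V + 2) * r := by nlinarith
      omega

private theorem rowE_lt {r p q : ℕ} (hr : r < nK V C + 1) (h : RowE V C o r p q) :
    p < wd V C r ∧ q < wd V C (r + 1) := by
  have hw : ∀ r, r ≠ 0 → r < nK V C + 1 → wd V C r = 2 * V + 2 := by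
    intro r h0 h1
    unfold wd
    rw [if_neg]
    omega
  have hK : 1 ≤ nK V C := by unfold nK; omega
  have hw0 : wd V C 0 = V + 1 := by simp [wd]
  have hwK : wd V C (nK V C + 1) = V + 1 := by simp [wd]
  have hbig : ∀ c < C, ∀ i ≤ 18 * V + 1, 1 + c * (18 * V + 2) + i < nK V C := by
    intro c hc i hi
    unfold nK
    have : (c + 1) * (18 * V + 2) ≤ C * (18 * V + 2) := Nat.mul_le_mul_right _ hc
    have e : (c + 1) * (18 * V + 2) = c * (18 * V + 2) + (18 * V + 2) := by ring
    omega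
  rcases row_cases hr with rfl | rfl | ⟨c, hc, rfl | rfl | ⟨v, hv, k, hk, rfl | rfl | rfl⟩⟩
  · have := (rowE_start p q).1 h
    rw [hw0, hw 1 (by omega) (by omega)]
    omega
  · have := (rowE_end p q).1 h
    rw [hwK, hw _ (by omega) (by omega)]
    omega
  · have h2 := (rowE_sh1 hc p q).1 h
    have h3 := hbig c hc 0 (by omega)
    rw [hw _ (by omega) (by omega), hw _ (by omega) (by omega)]
    omega
  · have h2 := (rowE_sh2 hc p q).1 h
    have h3 := hbig c hc 1 (by omega)
    rw [hw _ (by omega) (by omega), hw _ (by omega) (by omega)]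
    omega
  · have h2 := (rowE_gen hc hv hk p q).1 h
    have h3 := hbig c hc (2 + 18 * v + 3 * k) (by omega)
    rw [hw _ (by omega) (by omega), hw _ (by omega) (by omega)]
    rcases h2 with h2 | ⟨a, ha, b, hb, h4, h5, _⟩
    · omega
    · omega
  · have h2 := (rowE_id1 hc hv hk p q).1 h
    have h3 := hbig c hc (3 + 18 * v + 3 * k) (by omega)
    rw [hw _ (by omega) (by omega), hw _ (by omega) (by omega)]
    omega
  · have h2 := (rowE_id2 hc hv hk p q).1 h
    have h3 := hbig c hc (4 + 18 * v + 3 * k) (by omega)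
    rw [hw _ (by omega) (by omega)]
    have : wd V C (5 + c * (18 * V + 2) + 18 * v + 3 * k + 1) = 2 * V + 2 := hw _ (by omega) (by omega)
    rw [this]
    omega

private theorem off_zero : off V 0 = 0 := by simp [off]

private theorem off_one : off V 1 = V + 1 := by simp [off]; omega

private theorem off_succ {r : ℕ} (hr : 1 ≤ r) : off V (r + 1) = off V r + (2 * V + 2) := by
  unfold off
  have : (V + 1) ≤ r * (2 * V + 2) := by nlinarith
  have e : (r + 1) * (2 * V + 2) = r * (2 * V + 2) + (2 * V + 2) := by ring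
  omega

private theorem wd_le (r : ℕ) : wd V C r ≤ 2 * V + 2 := by
  unfold wd; split_ifs <;> omega

private theorem off_lt_succ {r p : ℕ} (hp : p < wd V C r) : off V r + p < off V (r + 1) := by
  rcases Nat.eq_zero_or_pos r with rfl | hr
  · rw [off_zero, off_one]
    simp [wd] at hp
    omega
  · rw [off_succ hr]
    have := wd_le (V := V) (C := C) r
    omega

private theorem off_lt_nV {r p : ℕ} (hr : r ≤ nK V C + 1) (hp : p < wd V C r) :
    off V r + p < nV V C := by
  have h1 : off V (nK V C + 1) + (V + 1) = nV V C := by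
    unfold off nV
    have : (V + 1) ≤ (nK V C + 1) * (2 * V + 2) := by nlinarith
    omega
  rcases Nat.eq_or_lt_of_le hr with h | h
  · subst h
    simp [wd] at hp
    omega
  · have hmono : ∀ k, off V (r + 1) ≤ off V (r + 1 + k) := by
      intro k
      induction k with
      | zero => exact le_rfl
      | succ k ih =>
        have := off_succ (V := V) (r := r + 1 + k) (by omega)
        rw [← Nat.add_assoc]
        omega
    have h2 := hmono (nK V C + 1 - (r + 1))
    rw [show r + 1 + (nK V C + 1 - (r + 1)) = nK V C + 1 by omega] at h2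
    have h3 := off_lt_succ hp
    omega

private theorem adj_fwd {u v : Fin (nV V C)} {r p : ℕ} (hat : At V r p u)
    (h : DAdj V C o u v) :
    r < nK V C + 1 ∧ ∃ q, (v : ℕ) = off V (r + 1) + q ∧ RowE V C o r p q := by
  obtain ⟨r', hr', p', hp', q', hq', h1, h2, h3⟩ := h
  have hat' : At V r' p' u := ⟨h1, hp', fun h0 => by
    have := (rowE_lt hr' h3).1
    rw [h0] at this
    simpa [wd] using this⟩
  obtain ⟨rfl, rfl⟩ := at_unique hat hat'
  exact ⟨hr', q', h2, h3⟩

private theorem adj_bwd {u v : Fin (nV V C)} {r p : ℕ} (hat : At V r p u)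
    (h : DAdj V C o v u) :
    ∃ r', r = r' + 1 ∧ r' < nK V C + 1 ∧ ∃ q, (v : ℕ) = off V r' + q ∧ RowE V C o r' q p := by
  obtain ⟨r', hr', p', hp', q', hq', h1, h2, h3⟩ := h
  have hat' : At V (r' + 1) q' u := ⟨h2, hq', fun h0 => by omega⟩
  obtain ⟨h4, rfl⟩ := at_unique hat hat'
  exact ⟨r', h4, hr', p', h1, h3⟩

private theorem nb_three (u : Fin (nV V C)) :
    ∃ a b c : ℕ, ∀ v : Fin (nV V C), (theGraph V C o).Adj u v →
      (v : ℕ) = a ∨ (v : ℕ) = b ∨ (v : ℕ) = c := by
  obtain ⟨r, p, hr, hp, hat⟩ := exists_at u.2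
  rcases Nat.eq_zero_or_pos r with h0 | h0
  · subst h0
    obtain ⟨x, y, hxy⟩ := fw_two (o := o) (V := V) (C := C) (r := 0) (by omega) p
    refine ⟨off V (0 + 1) + x, off V (0 + 1) + y, 0, fun v hv => ?_⟩
    rcases hv.2 with h | h
    · obtain ⟨_, q, h1, h2⟩ := adj_fwd hat h
      rcases hxy q h2 with h3 | h3 <;> subst h3
      · exact Or.inl h1
      · exact Or.inr (Or.inl h1)
    · obtain ⟨r', h1, _⟩ := adj_bwd hat h
      omega
  obtain ⟨r', rfl⟩ : ∃ r', r = r' + 1 := ⟨r - 1, by omega⟩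
  by_cases hlast : r' + 1 < nK V C + 1
  · by_cases hF : Fat V C (r' + 1)
    · obtain ⟨x, y, hxy⟩ := fw_two (o := o) hlast p
      obtain ⟨z, hz⟩ := bw_one (o := o) (V := V) (C := C) (r := r') (by omega) p hF
      refine ⟨off V (r' + 1 + 1) + x, off V (r' + 1 + 1) + y, off V r' + z, fun v hv => ?_⟩
      rcases hv.2 with h | h
      · obtain ⟨_, q, h1, h2⟩ := adj_fwd hat h
        rcases hxy q h2 with h3 | h3 <;> subst h3
        · exact Or.inl h1
        · exact Or.inr (Or.inl h1)
      · obtain ⟨r'', h1, _, q, h2, h3⟩ := adj_bwd hat h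
        obtain rfl : r' = r'' := by omega
        have := hz q h3
        subst this
        exact Or.inr (Or.inr h2)
    · obtain ⟨x, hx⟩ := fw_one (o := o) hlast p hF
      obtain ⟨y, z, hyz⟩ := bw_two (o := o) (V := V) (C := C) (r := r') (by omega) p
      refine ⟨off V (r' + 1 + 1) + x, off V r' + y, off V r' + z, fun v hv => ?_⟩
      rcases hv.2 with h | h
      · obtain ⟨_, q, h1, h2⟩ := adj_fwd hat h
        have := hx q h2
        subst this
        exact Or.inl h1
      · obtain ⟨r'', h1, _, q, h2, h3⟩ := adj_bwd hat h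
        obtain rfl : r' = r'' := by omega
        rcases hyz q h3 with h4 | h4 <;> subst h4
        · exact Or.inr (Or.inl h2)
        · exact Or.inr (Or.inr h2)
  · obtain ⟨y, z, hyz⟩ := bw_two (o := o) (V := V) (C := C) (r := r') (by omega) p
    refine ⟨0, off V r' + y, off V r' + z, fun v hv => ?_⟩
    rcases hv.2 with h | h
    · exact absurd (adj_fwd hat h).1 hlast
    · obtain ⟨r'', h1, _, q, h2, h3⟩ := adj_bwd hat h
      obtain rfl : r' = r'' := by omega
      rcases hyz q h3 with h4 | h4 <;> subst h4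
      · exact Or.inr (Or.inl h2)
      · exact Or.inr (Or.inr h2)

theorem deg_le (_hC : 1 ≤ C) (u : Fin (nV V C)) :
    {v | (theGraph V C o).Adj u v}.ncard ≤ 3 := by
  classical
  obtain ⟨a, b, c, h⟩ := nb_three (o := o) u
  have h1 : (Fin.val '' {v | (theGraph V C o).Adj u v}) ⊆ (({a, b, c} : Finset ℕ) : Set ℕ) := by
    rintro _ ⟨v, hv, rfl⟩
    have := h v hv
    simpa using this
  calc {v | (theGraph V C o).Adj u v}.ncard
      = (Fin.val '' {v | (theGraph V C o).Adj u v}).ncard :=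
        (Set.ncard_image_of_injective _ Fin.val_injective).symm
    _ ≤ (({a, b, c} : Finset ℕ) : Set ℕ).ncard := Set.ncard_le_ncard h1 (Finset.finite_toSet _)
    _ = ({a, b, c} : Finset ℕ).card := Set.ncard_coe_finset _
    _ ≤ 3 := Finset.card_le_three

private theorem mk_fwd {r p q : ℕ} (hr : r < nK V C + 1) (h : RowE V C o r p q)
    (u : Fin (nV V C)) (hu : (u : ℕ) = off V r + p) : ∃ v, (theGraph V C o).Adj u v := by
  obtain ⟨h1, h2⟩ := rowE_lt hr h
  have h3 := off_lt_nV (V := V) (C := C) (r := r + 1) (by omega) h2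
  have h4 := off_lt_succ h1
  refine ⟨⟨off V (r + 1) + q, h3⟩, ?_, Or.inl ⟨r, hr, p, ?_, q, ?_, hu, rfl, h⟩⟩
  · intro h5
    have := congrArg Fin.val h5
    simp only at this
    omega
  · exact lt_of_lt_of_le h1 (wd_le r)
  · exact lt_of_lt_of_le h2 (wd_le _)

private theorem mk_bwd {r p q : ℕ} (hr : r < nK V C + 1) (h : RowE V C o r p q)
    (u : Fin (nV V C)) (hu : (u : ℕ) = off V (r + 1) + q) : ∃ v, (theGraph V C o).Adj u v := by
  obtain ⟨h1, h2⟩ := rowE_lt hr h
  have h3 := off_lt_nV (V := V) (C := C) (r := r) (by omega) h1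
  have h4 := off_lt_succ h1
  refine ⟨⟨off V r + p, h3⟩, ?_, Or.inr ⟨r, hr, p, ?_, q, ?_, rfl, hu, h⟩⟩
  · intro h5
    have := congrArg Fin.val h5
    simp only at this
    omega
  · exact lt_of_lt_of_le h1 (wd_le r)
  · exact lt_of_lt_of_le h2 (wd_le _)

/-- row 0 of a gadget: the second point has a forward edge -/
private theorem gE_one : ∀ pos neg : Bool, ∃ b < 4, (1, b) ∈ gE pos neg 0 := by decide

theorem deg_pos (hV : 1 ≤ V) (_hC : 1 ≤ C) (u : Fin (nV V C)) :
    ∃ v, (theGraph V C o).Adj u v := by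
  classical
  obtain ⟨r, p, hr, hp, hu, hp2, hp0⟩ := exists_at u.2
  by_cases hlast : r = nK V C + 1
  · subst hlast
    have hp' : p < V + 1 := by simpa [wd] using hp
    exact mk_bwd (r := nK V C) (p := 2 * p) (by omega)
      ((rowE_end _ _).2 ⟨hp', Or.inl rfl⟩) u hu
  have hr' : r < nK V C + 1 := by omega
  rcases row_cases hr' with rfl | rfl | ⟨c, hc, rfl | rfl | ⟨v, hv, k, hk, rfl | rfl | rfl⟩⟩
  · exact mk_fwd hr' (q := 2 * p) ((rowE_start _ _).2 ⟨hp0 rfl, Or.inl rfl⟩) u hu
  · exact mk_fwd hr' (q := p / 2) ((rowE_end _ _).2 ⟨by omega, by omega⟩) u hu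
  · rcases Nat.lt_or_ge (p + 1) (2 * V + 2) with h | h
    · exact mk_fwd hr' ((rowE_sh1 hc _ _).2 ⟨rfl, h⟩) u hu
    · have hpp : p = 2 * V + 1 := by omega
      subst hpp
      rcases Nat.eq_zero_or_pos c with rfl | hc0
      · refine mk_bwd (r := 0) (p := V) (q := 2 * V + 1) (by omega)
          ((rowE_start _ _).2 ⟨by omega, Or.inr rfl⟩) u ?_
        rw [hu]; congr 2; omega
      · obtain ⟨c', rfl⟩ : ∃ c', c = c' + 1 := ⟨c - 1, by omega⟩
        have e : 1 + (c' + 1) * (18 * V + 2) =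
            5 + c' * (18 * V + 2) + 18 * (V - 1) + 3 * 5 + 1 := by
          have : (c' + 1) * (18 * V + 2) = c' * (18 * V + 2) + (18 * V + 2) := by ring
          omega
        refine mk_bwd (r := 5 + c' * (18 * V + 2) + 18 * (V - 1) + 3 * 5) (p := 2 * V + 1)
          (q := 2 * V + 1) (by omega)
          ((rowE_id2 (by omega) (by omega) (by omega) _ _).2 ⟨rfl, by omega⟩) u ?_
        rw [hu, e]
  · rcases Nat.eq_zero_or_pos p with rfl | hp1
    · exact mk_fwd hr' (q := 0) ((rowE_sh2 hc _ _).2 (Or.inl ⟨rfl, rfl⟩)) u hu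
    · rcases Nat.lt_or_ge (p + 1) (2 * V + 2) with h | h
      · exact mk_fwd hr' ((rowE_sh2 hc _ _).2 (Or.inr ⟨hp1, rfl, h⟩)) u hu
      · have hpp : p = 2 * V + 1 := by omega
        subst hpp
        refine mk_bwd (r := 1 + c * (18 * V + 2)) (p := 2 * V) (q := 2 * V + 1) (by omega)
          ((rowE_sh1 hc _ _).2 ⟨rfl, by omega⟩) u ?_
        rw [hu]; congr 2; omega
  · by_cases hp3 : p < 2 * v ∨ 2 * v + 4 ≤ p
    · exact mk_fwd hr' (q := p) ((rowE_gen hc hv hk _ _).2 (Or.inl ⟨rfl, hp2, hp3⟩)) u hu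
    rcases Nat.eq_zero_or_pos k with hk0 | hk0
    · subst hk0
      rcases Nat.eq_zero_or_pos v with hv0 | hv0
      · subst hv0
        by_cases hp1 : p = 1
        · subst hp1
          obtain ⟨b, hb, hb'⟩ := gE_one (decide (o c 0 true)) (decide (o c 0 false))
          refine mk_fwd hr' (q := b) ((rowE_gen hc hv hk _ _).2 (Or.inr ⟨1, by omega, b, hb,
            by omega, by omega, ?_⟩)) u hu
          exact ⟨_, _, by simp, by simp, hb'⟩
        · refine mk_bwd (r := 2 + c * (18 * V + 2)) (p := p - 1) (q := p) (by omega)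
            ((rowE_sh2 hc _ _).2 (by omega)) u ?_
          rw [hu]; congr 2; omega
      · have e : 3 + c * (18 * V + 2) + 18 * v + 3 * 0 =
            5 + c * (18 * V + 2) + 18 * (v - 1) + 3 * 5 + 1 := by omega
        refine mk_bwd (r := 5 + c * (18 * V + 2) + 18 * (v - 1) + 3 * 5) (p := p) (q := p)
          (by omega) ((rowE_id2 hc (by omega) (by omega) _ _).2 ⟨rfl, hp2⟩) u ?_
        rw [hu, e]
    · have e : 3 + c * (18 * V + 2) + 18 * v + 3 * k =
          5 + c * (18 * V + 2) + 18 * v + 3 * (k - 1) + 1 := by omega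
      refine mk_bwd (r := 5 + c * (18 * V + 2) + 18 * v + 3 * (k - 1)) (p := p) (q := p)
        (by omega) ((rowE_id2 hc hv (by omega) _ _).2 ⟨rfl, hp2⟩) u ?_
      rw [hu, e]
  · exact mk_fwd hr' (q := p) ((rowE_id1 hc hv hk _ _).2 ⟨rfl, hp2⟩) u hu
  · exact mk_fwd hr' (q := p) ((rowE_id2 hc hv hk _ _).2 ⟨rfl, hp2⟩) u hu

end Pool.Agent.Lib89.NN
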