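import Mathlib
import Pool.Agent.Lib_helper57.LDCHard
import Pool.Agent.Lib_helper89.NN.Defs

/-! The literal relation of a definable CNF. -/

namespace Pool.Agent.Lib89.NN

open Pool.Agent.Lib57

/-- the literal relation of the formula of `x`; a clause whose guard fails is replaced by
`z ∨ ¬ z` for the extra variable `z` of number `DPhi D x` -/
def occ (D : DCNF) (x : List Bool) (c v : ℕ) (s : Bool) : Prop :=
  ∃ pk ∈ D.pats.zipIdx, ∃ t < D.T x, ∃ i < D.H x,
    c = (t * D.H x + i) * D.pats.length + pk.2 ∧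
      ((¬ pk.1.guard x t i ∧ v = DPhi D x) ∨
        (pk.1.guard x t i ∧ ∃ l ∈ pk.1.lits,
          v = ((t + l.dt) * D.H x + l.pos i) * D.A + l.code ∧ s = l.sign))

end Pool.Agent.Lib89.NN
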