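import Mathlib
import Pool.Agent.Lib_helper89.NN.Occ

/-! Block SA: the CNF of a definable family. -/

namespace Pool.Agent.Lib89.NN

open Pool.Agent.Lib57

theorem sat_iff {D : DCNF} (hD : D.Good 5) (x : List Bool) :
    D.Sat x ↔ ∃ y : ℕ → Bool, ∀ c < DGam D x, ∃ v < DPhi D x + 1, occ D x c v (y v) := by
  constructor
  · rintro ⟨y, hy⟩
    refine ⟨fun v => y (v / D.A / D.H x) (v / D.A % D.H x) (v % D.A), ?_⟩
    intro c hc
    obtain ⟨h1, h2, h3, h4⟩ := three_ex hc
    have hm : (D.pats[c % D.pats.length], c % D.pats.length) ∈ D.pats.zipIdx := by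
      rw [List.mem_zipIdx_iff_getElem?]
      simp [h3]
    by_cases hg : (D.pats[c % D.pats.length]).guard x (c / D.pats.length / D.H x)
        (c / D.pats.length % D.H x)
    · have hπ : D.pats[c % D.pats.length] ∈ D.pats := List.getElem_mem h3
      obtain ⟨l, hl, hs⟩ := hy _ h1 _ h2 _ hπ hg
      obtain ⟨q1, q2, q3⟩ := hD.range _ hπ x _ _ h1 h2 hg l hl
      refine ⟨((c / D.pats.length / D.H x + l.dt) * D.H x + l.pos (c / D.pats.length % D.H x)) *
        D.A + l.code, ?_, ?_⟩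
      · have : ((c / D.pats.length / D.H x + l.dt) * D.H x +
            l.pos (c / D.pats.length % D.H x)) * D.A + l.code < DPhi D x := three_lt q1 q2 q3
        omega
      · refine ⟨_, hm, _, h1, _, h2, h4.symm, Or.inr ⟨hg, l, hl, rfl, ?_⟩⟩
        obtain ⟨e1, e2, e3⟩ := three_dm (a := c / D.pats.length / D.H x + l.dt) q2 q3
        show y _ _ _ = l.sign
        rw [e1, e2, e3]
        exact hs
    · exact ⟨DPhi D x, Nat.lt_succ_self _, _, hm, _, h1, _, h2, h4.symm, Or.inl ⟨hg, rfl⟩⟩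
  · rintro ⟨y, hy⟩
    refine ⟨fun t i a => y ((t * D.H x + i) * D.A + a), ?_⟩
    intro t ht i hi π hπ hg
    obtain ⟨k, hk, hk'⟩ := List.getElem_of_mem hπ
    have hm : (π, k) ∈ D.pats.zipIdx := by
      rw [List.mem_zipIdx_iff_getElem?]
      simp [hk, hk']
    have hc : (t * D.H x + i) * D.pats.length + k < DGam D x := three_lt ht hi hk
    obtain ⟨v, _, pk, hpk, t', ht', i', hi', e, hocc⟩ := hy _ hc
    obtain ⟨a1, a2, a3⟩ := three_dm (a := t) hi hk
    obtain ⟨b1, b2, b3⟩ := three_dm (a := t') hi' (mem_zipIdx' hpk).1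
    rw [← e] at b1 b2 b3
    have et : t' = t := by rw [← b1, a1]
    have ei : i' = i := by rw [← b2, a2]
    have ek : pk.2 = k := by rw [← b3, a3]
    have ep : pk = (π, k) := zipIdx_unique hpk hm ek
    subst et ei ep
    rcases hocc with ⟨h, _⟩ | ⟨_, l, hl, hv, hs⟩
    · exact absurd hg h
    · refine ⟨l, hl, ?_⟩
      show y (((t' + l.dt) * D.H x + l.pos i') * D.A + l.code) = l.sign
      rw [← hv]
      exact hs

end Pool.Agent.Lib89.NN
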