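import Mathlib
import Pool.Agent.Lib_helper89.NN.SA

/-! Block FO: definability of the directed adjacency. -/

namespace Pool.Agent.Lib89.NN

open Pool.Agent.Lib57 Pool.Agent.Lib89.NN

private theorem off_eq (V r u p : ℕ) :
    u = off V r + p ↔ (r = 0 ∧ u = p) ∨ (1 ≤ r ∧ u + (V + 1) = r * (2 * V + 2) + p) := by
  unfold off
  rcases r with _ | r
  · simp
  · have h : (r + 1) * (2 * V + 2) = r * (2 * V + 2) + (2 * V + 2) := by ring
    rw [h]
    generalize r * (2 * V + 2) = m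
    omega

private theorem off_succ_eq (V r v q : ℕ) :
    v = off V (r + 1) + q ↔ v + (V + 1) = (r + 1) * (2 * V + 2) + q := by
  rw [off_eq]
  constructor
  · rintro (⟨h, _⟩ | ⟨_, h⟩)
    · omega
    · exact h
  · intro h
    exact Or.inr ⟨by omega, h⟩

private theorem form_occ {D : DCNF} (hD : D.Good 5) (s : Bool) :
    IsForm 2 (fun x e => occ D x (e 0) (e 1) s) := by
  refine IsForm.exMem D.pats.zipIdx fun pk hpk => ?_
  have hπ := (mem_zipIdx' hpk).2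
  refine (IsForm.ex (φ := fun x e => ∃ i < D.H x,
    e 0 = (e 2 * D.H x + i) * D.pats.length + pk.2 ∧
      ((¬ pk.1.guard x (e 2) i ∧ e 1 = DPhi D x) ∨
        (pk.1.guard x (e 2) i ∧ ∃ l ∈ pk.1.lits,
          e 1 = ((e 2 + l.dt) * D.H x + l.pos i) * D.A + l.code ∧ s = l.sign)))
    (hD.T_term.weaken (Nat.zero_le 2)) ?_).congr fun x e => by simp
  refine (IsForm.ex (φ := fun x e =>
    e 0 = (e 2 * D.H x + e 3) * D.pats.length + pk.2 ∧
      ((¬ pk.1.guard x (e 2) (e 3) ∧ e 1 = DPhi D x) ∨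
        (pk.1.guard x (e 2) (e 3) ∧ ∃ l ∈ pk.1.lits,
          e 1 = ((e 2 + l.dt) * D.H x + l.pos (e 3)) * D.A + l.code ∧ s = l.sign)))
    (hD.H_term.weaken (Nat.zero_le 3)) ?_).congr fun x e => by simp
  have hg : IsForm 4 (fun x e => pk.1.guard x (e 2) (e 3)) :=
    (hD.guard_form pk.1 hπ).rename (fun i => i + 2) (fun i hi => by omega)
  have v0 : IsTerm 4 (fun _ e => e 0) := IsTerm.var (by norm_num)
  have v1 : IsTerm 4 (fun _ e => e 1) := IsTerm.var (by norm_num)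
  have v2 : IsTerm 4 (fun _ e => e 2) := IsTerm.var (by norm_num)
  have v3 : IsTerm 4 (fun _ e => e 3) := IsTerm.var (by norm_num)
  have hH := hD.H_term.weaken (Nat.zero_le 4)
  have hs : ∀ b, IsForm 4 (fun _ _ => s = b) := by
    intro b
    by_cases h : s = b
    · exact (IsForm.true 4).congr fun _ _ => by simp [h]
    · exact (IsForm.false 4).congr fun _ _ => by simp [h]
  have hpos : ∀ l : Lit, IsTerm 4 (fun _ e => l.pos (e 3)) := by
    intro l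
    unfold Lit.pos
    cases l.di with
    | none => exact IsTerm.const 4 0
    | some d => exact v3.add (IsTerm.const 4 d)
  exact (IsForm.eq v0 ((((v2.mul hH).add v3).mul (IsTerm.const 4 _)).add (IsTerm.const 4 _))).and
    ((hg.not.and (IsForm.eq v1 (term_Phi hD 4))).or
      (hg.and (IsForm.exMem pk.1.lits fun l _ =>
        (IsForm.eq v1 (((((v2.add (IsTerm.const 4 l.dt)).mul hH).add (hpos l)).mul
          (IsTerm.const 4 D.A)).add (IsTerm.const 4 l.code))).and (hs l.sign))))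

/-- variables: c = e 5, v = e 6, k = e 7, a = e 8, b = e 9 -/
private theorem form_gRel {D : DCNF} (hD : D.Good 5) :
    IsForm 10 (fun x e => e 7 < 6 ∧ gRel (occ D x) (e 5) (e 6) (e 7) (e 8) (e 9)) := by
  have ho : ∀ s, IsForm 10 (fun x e => occ D x (e 5) (e 6) s) := fun s =>
    (form_occ hD s).rename (fun i => i + 5) (fun i hi => by omega)
  have hbo : ∀ (b s : Bool), IsForm 10 (fun x e => b = true ↔ occ D x (e 5) (e 6) s) := by
    intro b s
    cases b with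
    | true => exact (ho s).congr fun x e => by simp
    | false => exact (ho s).not.congr fun x e => by simp
  have v7 : IsTerm 10 (fun _ e => e 7) := IsTerm.var (by norm_num)
  have v8 : IsTerm 10 (fun _ e => e 8) := IsTerm.var (by norm_num)
  have v9 : IsTerm 10 (fun _ e => e 9) := IsTerm.var (by norm_num)
  have key : IsForm 10 (fun x e => ∃ pn ∈ [(false, false), (false, true), (true, false),
      (true, true)], (pn.1 = true ↔ occ D x (e 5) (e 6) true) ∧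
        (pn.2 = true ↔ occ D x (e 5) (e 6) false) ∧
        ∃ κ ∈ List.range 6, e 7 = κ ∧ ∃ ab ∈ gE pn.1 pn.2 κ, e 8 = ab.1 ∧ e 9 = ab.2) := by
    refine IsForm.exMem _ fun pn _ => ?_
    refine (hbo pn.1 true).and ((hbo pn.2 false).and (IsForm.exMem _ fun κ _ => ?_))
    refine (IsForm.eq v7 (IsTerm.const 10 κ)).and (IsForm.exMem _ fun ab _ => ?_)
    exact (IsForm.eq v8 (IsTerm.const 10 ab.1)).and (IsForm.eq v9 (IsTerm.const 10 ab.2))
  refine key.congr fun x e => ?_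
  constructor
  · rintro ⟨pn, _, h1, h2, κ, hκ, h7, ab, hab, h8, h9⟩
    rw [List.mem_range] at hκ
    refine ⟨by omega, pn.1, pn.2, h1, h2, ?_⟩
    rw [h7, h8, h9]
    exact hab
  · rintro ⟨h7, pos, neg, h1, h2, hab⟩
    refine ⟨(pos, neg), ?_, h1, h2, e 7, List.mem_range.2 h7, rfl, (e 8, e 9), hab, rfl, rfl⟩
    cases pos <;> cases neg <;> simp

private theorem term_V {D : DCNF} (hD : D.Good 5) (k : ℕ) :
    IsTerm k (fun x _ => DPhi D x + 1) := (term_Phi hD k).add (IsTerm.const k 1)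

private theorem term_C {D : DCNF} (hD : D.Good 5) (k : ℕ) :
    IsTerm k (fun x _ => DGam D x + 1) := (term_Gam hD k).add (IsTerm.const k 1)

/-- `18 V + 2` -/
private theorem term_L {D : DCNF} (hD : D.Good 5) (k : ℕ) :
    IsTerm k (fun x _ => 18 * (DPhi D x + 1) + 2) :=
  ((IsTerm.const k 18).mul (term_V hD k)).add (IsTerm.const k 2)

private theorem term_W {D : DCNF} (hD : D.Good 5) (k : ℕ) :
    IsTerm k (fun x _ => 2 * (DPhi D x + 1) + 2) :=
  ((IsTerm.const k 2).mul (term_V hD k)).add (IsTerm.const k 2)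

private theorem term_nK {D : DCNF} (hD : D.Good 5) (k : ℕ) :
    IsTerm k (fun x _ => nK (DPhi D x + 1) (DGam D x + 1)) :=
  ((term_C hD k).mul (term_L hD k)).add (IsTerm.const k 1)

theorem term_nV {D : DCNF} (hD : D.Good 5) (k : ℕ) :
    IsTerm k (fun x _ => nV (DPhi D x + 1) (DGam D x + 1)) :=
  ((term_nK hD k).add (IsTerm.const k 1)).mul (term_W hD k)

/-- the generator alternative: r = e 2, p = e 3, q = e 4, c = e 5, v = e 6, k = e 7 -/
private theorem form_ab {D : DCNF} (hD : D.Good 5) :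
    IsForm 8 (fun x e => ∃ a < 4, ∃ b < 4, e 3 = 2 * e 6 + a ∧ e 4 = 2 * e 6 + b ∧
      (e 7 < 6 ∧ gRel (occ D x) (e 5) (e 6) (e 7) a b)) := by
  refine (IsForm.ex (φ := fun x e => ∃ b < 4, e 3 = 2 * e 6 + e 8 ∧ e 4 = 2 * e 6 + b ∧
      (e 7 < 6 ∧ gRel (occ D x) (e 5) (e 6) (e 7) (e 8) b))
    (IsTerm.const 8 4) ?_).congr fun x e => by simp
  refine (IsForm.ex (φ := fun x e => e 3 = 2 * e 6 + e 8 ∧ e 4 = 2 * e 6 + e 9 ∧
      (e 7 < 6 ∧ gRel (occ D x) (e 5) (e 6) (e 7) (e 8) (e 9)))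
    (IsTerm.const 9 4) ?_).congr fun x e => by simp
  have v3 : IsTerm 10 (fun _ e => e 3) := IsTerm.var (by norm_num)
  have v4 : IsTerm 10 (fun _ e => e 4) := IsTerm.var (by norm_num)
  have v6 : IsTerm 10 (fun _ e => e 6) := IsTerm.var (by norm_num)
  have v8 : IsTerm 10 (fun _ e => e 8) := IsTerm.var (by norm_num)
  have v9 : IsTerm 10 (fun _ e => e 9) := IsTerm.var (by norm_num)
  exact (IsForm.eq v3 (((IsTerm.const 10 2).mul v6).add v8)).and
    ((IsForm.eq v4 (((IsTerm.const 10 2).mul v6).add v9)).and (form_gRel hD))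

/-- the inner alternative: r = e 2, p = e 3, q = e 4, c = e 5, v = e 6, k = e 7 -/
private theorem form_k {D : DCNF} (hD : D.Good 5) :
    IsForm 8 (fun x e =>
      (e 2 = 3 + e 5 * (18 * (DPhi D x + 1) + 2) + 18 * e 6 + 3 * e 7 ∧
        ((e 3 = e 4 ∧ e 3 < 2 * (DPhi D x + 1) + 2 ∧ (e 3 < 2 * e 6 ∨ 2 * e 6 + 4 ≤ e 3)) ∨
          ∃ a < 4, ∃ b < 4, e 3 = 2 * e 6 + a ∧ e 4 = 2 * e 6 + b ∧
            (e 7 < 6 ∧ gRel (occ D x) (e 5) (e 6) (e 7) a b))) ∨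
      ((e 2 = 4 + e 5 * (18 * (DPhi D x + 1) + 2) + 18 * e 6 + 3 * e 7 ∨
          e 2 = 5 + e 5 * (18 * (DPhi D x + 1) + 2) + 18 * e 6 + 3 * e 7) ∧
        e 3 = e 4 ∧ e 3 < 2 * (DPhi D x + 1) + 2)) := by
  have v2 : IsTerm 8 (fun _ e => e 2) := IsTerm.var (by norm_num)
  have v3 : IsTerm 8 (fun _ e => e 3) := IsTerm.var (by norm_num)
  have v4 : IsTerm 8 (fun _ e => e 4) := IsTerm.var (by norm_num)
  have v5 : IsTerm 8 (fun _ e => e 5) := IsTerm.var (by norm_num)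
  have v6 : IsTerm 8 (fun _ e => e 6) := IsTerm.var (by norm_num)
  have v7 : IsTerm 8 (fun _ e => e 7) := IsTerm.var (by norm_num)
  have hr : ∀ n : ℕ, IsForm 8 (fun x e =>
      e 2 = n + e 5 * (18 * (DPhi D x + 1) + 2) + 18 * e 6 + 3 * e 7) := fun n =>
    IsForm.eq v2 ((((IsTerm.const 8 n).add (v5.mul (term_L hD 8))).add
      ((IsTerm.const 8 18).mul v6)).add ((IsTerm.const 8 3).mul v7))
  have hlt : IsForm 8 (fun x e => e 3 < 2 * (DPhi D x + 1) + 2) := IsForm.lt v3 (term_W hD 8)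
  have h2v : IsTerm 8 (fun _ e => 2 * e 6) := (IsTerm.const 8 2).mul v6
  exact ((hr 3).and (((IsForm.eq v3 v4).and (hlt.and ((IsForm.lt v3 h2v).or
    (IsForm.le (h2v.add (IsTerm.const 8 4)) v3)))).or (form_ab hD))).or
      (((hr 4).or (hr 5)).and ((IsForm.eq v3 v4).and hlt))

/-- r = e 2, p = e 3, q = e 4 -/
private theorem form_RowE {D : DCNF} (hD : D.Good 5) :
    IsForm 5 (fun x e => RowE (DPhi D x + 1) (DGam D x + 1) (occ D x) (e 2) (e 3) (e 4)) := by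
  have v2 : IsTerm 5 (fun _ e => e 2) := IsTerm.var (by norm_num)
  have v3 : IsTerm 5 (fun _ e => e 3) := IsTerm.var (by norm_num)
  have v4 : IsTerm 5 (fun _ e => e 4) := IsTerm.var (by norm_num)
  have hV1 : IsTerm 5 (fun x _ => DPhi D x + 1 + 1) := (term_V hD 5).add (IsTerm.const 5 1)
  have h2p : IsTerm 5 (fun _ e => 2 * e 3) := (IsTerm.const 5 2).mul v3
  have h2q : IsTerm 5 (fun _ e => 2 * e 4) := (IsTerm.const 5 2).mul v4
  have h1 : IsForm 5 (fun x e => e 2 = 0 ∧ e 3 < DPhi D x + 1 + 1 ∧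
      (e 4 = 2 * e 3 ∨ e 4 = 2 * e 3 + 1)) :=
    (IsForm.eq v2 (IsTerm.const 5 0)).and ((IsForm.lt v3 hV1).and
      ((IsForm.eq v4 h2p).or (IsForm.eq v4 (h2p.add (IsTerm.const 5 1)))))
  have h2 : IsForm 5 (fun x e => e 2 = nK (DPhi D x + 1) (DGam D x + 1) ∧
      e 4 < DPhi D x + 1 + 1 ∧ (e 3 = 2 * e 4 ∨ e 3 = 2 * e 4 + 1)) :=
    (IsForm.eq v2 (term_nK hD 5)).and ((IsForm.lt v4 hV1).and
      ((IsForm.eq v3 h2q).or (IsForm.eq v3 (h2q.add (IsTerm.const 5 1)))))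
  have h3 : IsForm 5 (fun x e => ∃ c < DGam D x + 1,
    (e 2 = 1 + c * (18 * (DPhi D x + 1) + 2) ∧ e 4 = e 3 + 1 ∧ e 4 < 2 * (DPhi D x + 1) + 2) ∨
    (e 2 = 2 + c * (18 * (DPhi D x + 1) + 2) ∧ ((e 3 = 0 ∧ e 4 = 0) ∨
      (1 ≤ e 3 ∧ e 4 = e 3 + 1 ∧ e 4 < 2 * (DPhi D x + 1) + 2))) ∨
    ∃ v < DPhi D x + 1, ∃ k < 6,
      (e 2 = 3 + c * (18 * (DPhi D x + 1) + 2) + 18 * v + 3 * k ∧
        ((e 3 = e 4 ∧ e 3 < 2 * (DPhi D x + 1) + 2 ∧ (e 3 < 2 * v ∨ 2 * v + 4 ≤ e 3)) ∨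
          ∃ a < 4, ∃ b < 4, e 3 = 2 * v + a ∧ e 4 = 2 * v + b ∧
            (k < 6 ∧ gRel (occ D x) c v k a b))) ∨
      ((e 2 = 4 + c * (18 * (DPhi D x + 1) + 2) + 18 * v + 3 * k ∨
          e 2 = 5 + c * (18 * (DPhi D x + 1) + 2) + 18 * v + 3 * k) ∧
        e 3 = e 4 ∧ e 3 < 2 * (DPhi D x + 1) + 2)) := by
    refine (IsForm.ex (φ := fun x e =>
      (e 2 = 1 + e 5 * (18 * (DPhi D x + 1) + 2) ∧ e 4 = e 3 + 1 ∧
        e 4 < 2 * (DPhi D x + 1) + 2) ∨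
      (e 2 = 2 + e 5 * (18 * (DPhi D x + 1) + 2) ∧ ((e 3 = 0 ∧ e 4 = 0) ∨
        (1 ≤ e 3 ∧ e 4 = e 3 + 1 ∧ e 4 < 2 * (DPhi D x + 1) + 2))) ∨
      ∃ v < DPhi D x + 1, ∃ k < 6,
        (e 2 = 3 + e 5 * (18 * (DPhi D x + 1) + 2) + 18 * v + 3 * k ∧
          ((e 3 = e 4 ∧ e 3 < 2 * (DPhi D x + 1) + 2 ∧ (e 3 < 2 * v ∨ 2 * v + 4 ≤ e 3)) ∨
            ∃ a < 4, ∃ b < 4, e 3 = 2 * v + a ∧ e 4 = 2 * v + b ∧
              (k < 6 ∧ gRel (occ D x) (e 5) v k a b))) ∨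
        ((e 2 = 4 + e 5 * (18 * (DPhi D x + 1) + 2) + 18 * v + 3 * k ∨
            e 2 = 5 + e 5 * (18 * (DPhi D x + 1) + 2) + 18 * v + 3 * k) ∧
          e 3 = e 4 ∧ e 3 < 2 * (DPhi D x + 1) + 2)) (term_C hD 5) ?_).congr
        fun x e => by simp
    have w2 : IsTerm 6 (fun _ e => e 2) := IsTerm.var (by norm_num)
    have w3 : IsTerm 6 (fun _ e => e 3) := IsTerm.var (by norm_num)
    have w4 : IsTerm 6 (fun _ e => e 4) := IsTerm.var (by norm_num)
    have w5 : IsTerm 6 (fun _ e => e 5) := IsTerm.var (by norm_num)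
    have hcL : IsTerm 6 (fun x e => e 5 * (18 * (DPhi D x + 1) + 2)) := w5.mul (term_L hD 6)
    have hs : IsForm 6 (fun _ e => e 4 = e 3 + 1) := IsForm.eq w4 (w3.add (IsTerm.const 6 1))
    have hl : IsForm 6 (fun x e => e 4 < 2 * (DPhi D x + 1) + 2) := IsForm.lt w4 (term_W hD 6)
    refine ((IsForm.eq w2 ((IsTerm.const 6 1).add hcL)).and (hs.and hl)).or
      (((IsForm.eq w2 ((IsTerm.const 6 2).add hcL)).and
        (((IsForm.eq w3 (IsTerm.const 6 0)).and (IsForm.eq w4 (IsTerm.const 6 0))).or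
          ((IsForm.le (IsTerm.const 6 1) w3).and (hs.and hl)))).or ?_)
    refine (IsForm.ex (φ := fun x e => ∃ k < 6,
        (e 2 = 3 + e 5 * (18 * (DPhi D x + 1) + 2) + 18 * e 6 + 3 * k ∧
          ((e 3 = e 4 ∧ e 3 < 2 * (DPhi D x + 1) + 2 ∧ (e 3 < 2 * e 6 ∨ 2 * e 6 + 4 ≤ e 3)) ∨
            ∃ a < 4, ∃ b < 4, e 3 = 2 * e 6 + a ∧ e 4 = 2 * e 6 + b ∧
              (k < 6 ∧ gRel (occ D x) (e 5) (e 6) k a b))) ∨
        ((e 2 = 4 + e 5 * (18 * (DPhi D x + 1) + 2) + 18 * e 6 + 3 * k ∨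
            e 2 = 5 + e 5 * (18 * (DPhi D x + 1) + 2) + 18 * e 6 + 3 * k) ∧
          e 3 = e 4 ∧ e 3 < 2 * (DPhi D x + 1) + 2)) (term_V hD 6) ?_).congr
        fun x e => by simp
    refine (IsForm.ex (φ := fun x e =>
        (e 2 = 3 + e 5 * (18 * (DPhi D x + 1) + 2) + 18 * e 6 + 3 * e 7 ∧
          ((e 3 = e 4 ∧ e 3 < 2 * (DPhi D x + 1) + 2 ∧ (e 3 < 2 * e 6 ∨ 2 * e 6 + 4 ≤ e 3)) ∨
            ∃ a < 4, ∃ b < 4, e 3 = 2 * e 6 + a ∧ e 4 = 2 * e 6 + b ∧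
              (e 7 < 6 ∧ gRel (occ D x) (e 5) (e 6) (e 7) a b))) ∨
        ((e 2 = 4 + e 5 * (18 * (DPhi D x + 1) + 2) + 18 * e 6 + 3 * e 7 ∨
            e 2 = 5 + e 5 * (18 * (DPhi D x + 1) + 2) + 18 * e 6 + 3 * e 7) ∧
          e 3 = e 4 ∧ e 3 < 2 * (DPhi D x + 1) + 2)) (IsTerm.const 7 6) ?_).congr
        fun x e => by simp
    exact form_k hD
  refine (h1.or (h2.or h3)).congr fun x e => ?_
  unfold RowE
  refine or_congr Iff.rfl (or_congr Iff.rfl ?_)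
  refine exists_congr fun c => and_congr_right fun _ => or_congr Iff.rfl (or_congr Iff.rfl ?_)
  refine exists_congr fun v => and_congr_right fun _ => exists_congr fun k =>
    and_congr_right fun hk => or_congr (and_congr_right fun _ => or_congr Iff.rfl ?_) Iff.rfl
  exact exists_congr fun a => and_congr_right fun _ => exists_congr fun b =>
    and_congr_right fun _ => and_congr_right fun _ => and_congr_right fun _ =>
      and_iff_right hk

theorem form_DAdj {D : DCNF} (hD : D.Good 5) :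
    IsForm 2 (fun x e => DAdj (DPhi D x + 1) (DGam D x + 1) (occ D x) (e 0) (e 1)) := by
  have main : IsForm 2 (fun x e => ∃ r < nK (DPhi D x + 1) (DGam D x + 1) + 1,
      ∃ p < 2 * (DPhi D x + 1) + 2, ∃ q < 2 * (DPhi D x + 1) + 2,
      ((r = 0 ∧ e 0 = p) ∨ (1 ≤ r ∧ e 0 + (DPhi D x + 1 + 1) =
        r * (2 * (DPhi D x + 1) + 2) + p)) ∧
      e 1 + (DPhi D x + 1 + 1) = (r + 1) * (2 * (DPhi D x + 1) + 2) + q ∧
      RowE (DPhi D x + 1) (DGam D x + 1) (occ D x) r p q) := by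
    refine (IsForm.ex (φ := fun x e =>
      ∃ p < 2 * (DPhi D x + 1) + 2, ∃ q < 2 * (DPhi D x + 1) + 2,
      ((e 2 = 0 ∧ e 0 = p) ∨ (1 ≤ e 2 ∧ e 0 + (DPhi D x + 1 + 1) =
        e 2 * (2 * (DPhi D x + 1) + 2) + p)) ∧
      e 1 + (DPhi D x + 1 + 1) = (e 2 + 1) * (2 * (DPhi D x + 1) + 2) + q ∧
      RowE (DPhi D x + 1) (DGam D x + 1) (occ D x) (e 2) p q)
      ((term_nK hD 2).add (IsTerm.const 2 1)) ?_).congr fun x e => by simp
    refine (IsForm.ex (φ := fun x e =>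
      ∃ q < 2 * (DPhi D x + 1) + 2,
      ((e 2 = 0 ∧ e 0 = e 3) ∨ (1 ≤ e 2 ∧ e 0 + (DPhi D x + 1 + 1) =
        e 2 * (2 * (DPhi D x + 1) + 2) + e 3)) ∧
      e 1 + (DPhi D x + 1 + 1) = (e 2 + 1) * (2 * (DPhi D x + 1) + 2) + q ∧
      RowE (DPhi D x + 1) (DGam D x + 1) (occ D x) (e 2) (e 3) q)
      (term_W hD 3) ?_).congr fun x e => by simp
    refine (IsForm.ex (φ := fun x e =>
      ((e 2 = 0 ∧ e 0 = e 3) ∨ (1 ≤ e 2 ∧ e 0 + (DPhi D x + 1 + 1) =
        e 2 * (2 * (DPhi D x + 1) + 2) + e 3)) ∧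
      e 1 + (DPhi D x + 1 + 1) = (e 2 + 1) * (2 * (DPhi D x + 1) + 2) + e 4 ∧
      RowE (DPhi D x + 1) (DGam D x + 1) (occ D x) (e 2) (e 3) (e 4))
      (term_W hD 4) ?_).congr fun x e => by simp
    have v0 : IsTerm 5 (fun _ e => e 0) := IsTerm.var (by norm_num)
    have v1 : IsTerm 5 (fun _ e => e 1) := IsTerm.var (by norm_num)
    have v2 : IsTerm 5 (fun _ e => e 2) := IsTerm.var (by norm_num)
    have v3 : IsTerm 5 (fun _ e => e 3) := IsTerm.var (by norm_num)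
    have v4 : IsTerm 5 (fun _ e => e 4) := IsTerm.var (by norm_num)
    have hV1 : IsTerm 5 (fun x _ => DPhi D x + 1 + 1) := (term_V hD 5).add (IsTerm.const 5 1)
    exact (((IsForm.eq v2 (IsTerm.const 5 0)).and (IsForm.eq v0 v3)).or
      ((IsForm.le (IsTerm.const 5 1) v2).and
        (IsForm.eq (v0.add hV1) ((v2.mul (term_W hD 5)).add v3)))).and
      ((IsForm.eq (v1.add hV1) (((v2.add (IsTerm.const 5 1)).mul (term_W hD 5)).add v4)).and
        (form_RowE hD))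
  refine main.congr fun x e => ?_
  unfold DAdj
  refine exists_congr fun r => and_congr_right fun _ => exists_congr fun p =>
    and_congr_right fun _ => exists_congr fun q => and_congr_right fun _ => ?_
  rw [off_eq, off_succ_eq]

end Pool.Agent.Lib89.NN
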