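import Mathlib
import Pool.Agent.Lib_helper89.NN.Defs

namespace Pool.Agent.Lib89.NN

theorem posF_append (a : Bool) (n : ℕ) (l l' : List Bool) :
    posF a n (l ++ l') = posF a n l ++ posF a (n + l.length) l' := by
  induction l generalizing n with
  | nil => simp [posF]
  | cons x l ih =>
    have e : n + (l.length + 1) = n + 1 + l.length := by omega
    simp only [List.cons_append, posF, List.length_cons, e]
    split_ifs <;> simp [ih]

theorem posF_add (a : Bool) (n k : ℕ) (l : List Bool) :
    posF a (k + n) l = (posF a n l).map (fun i => k + i) := by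
  induction l generalizing n with
  | nil => simp [posF]
  | cons x l ih =>
    simp only [posF, Nat.add_assoc, ih]
    split_ifs <;> simp

theorem mem_posF (a : Bool) (n : ℕ) (l : List Bool) (i : ℕ) :
    i ∈ posF a n l ↔ n ≤ i ∧ l[i - n]? = some a := by
  induction l generalizing n with
  | nil => simp [posF]
  | cons x l ih =>
    have key : i ∈ posF a (n + 1) l ↔ n < i ∧ (x :: l)[i - n]? = some a := by
      rw [ih]
      constructor
      · rintro ⟨h1, h2⟩
        refine ⟨by omega, ?_⟩
        have : i - n = (i - (n + 1)) + 1 := by omega
        rw [this, List.getElem?_cons_succ]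
        exact h2
      · rintro ⟨h1, h2⟩
        refine ⟨by omega, ?_⟩
        have : i - n = (i - (n + 1)) + 1 := by omega
        rw [this, List.getElem?_cons_succ] at h2
        exact h2
    simp only [posF]
    split_ifs with hx
    · rw [List.mem_cons, key]
      constructor
      · rintro (rfl | h)
        · simp [hx]
        · exact ⟨h.1.le, h.2⟩
      · rintro ⟨h1, h2⟩
        rcases Nat.eq_or_lt_of_le h1 with h | h
        · exact Or.inl h.symm
        · exact Or.inr ⟨h, h2⟩
    · rw [key]
      constructor
      · rintro h
        exact ⟨h.1.le, h.2⟩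
      · rintro ⟨h1, h2⟩
        rcases Nat.eq_or_lt_of_le h1 with h | h
        · subst h
          simp at h2
          exact absurd h2 hx
        · exact ⟨h, h2⟩

theorem mem_posF_zero (a : Bool) (l : List Bool) (i : ℕ) :
    i ∈ posF a 0 l ↔ l[i]? = some a := by
  rw [mem_posF]
  simp

theorem posF_sorted (a : Bool) (n : ℕ) (l : List Bool) : (posF a n l).Pairwise (· < ·) := by
  induction l generalizing n with
  | nil => simp [posF]
  | cons x l ih =>
    simp only [posF]
    split_ifs
    · refine List.pairwise_cons.2 ⟨fun i hi => ?_, ih _⟩
      have := ((mem_posF a (n + 1) l i).1 hi).1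
      omega
    · exact ih _

private lemma forall2_append_iff {E : ℕ → ℕ → Prop} {A B C D : List ℕ}
    (h1 : ∀ a ∈ A, ∀ d ∈ D, ¬ E a d) (h2 : ∀ b ∈ B, ∀ c ∈ C, ¬ E b c) :
    List.Forall₂ E (A ++ B) (C ++ D) ↔ List.Forall₂ E A C ∧ List.Forall₂ E B D := by
  induction A generalizing C with
  | nil =>
    cases C with
    | nil => simp
    | cons c C =>
      simp only [List.nil_append]
      constructor
      · intro h
        cases B with
        | nil => simp at h
        | cons b B =>
          rw [List.cons_append, List.forall₂_cons] at h
          exact absurd h.1 (h2 b (by simp) c (by simp))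
      · rintro ⟨h, _⟩
        simp at h
  | cons a A ih =>
    cases C with
    | nil =>
      constructor
      · intro h
        cases D with
        | nil => simp at h
        | cons d D =>
          rw [List.cons_append, List.nil_append, List.forall₂_cons] at h
          exact absurd h.1 (h1 a (by simp) d (by simp))
      · rintro ⟨h, _⟩
        simp at h
    | cons c C =>
      rw [List.cons_append, List.cons_append, List.forall₂_cons, List.forall₂_cons,
        ih (fun a ha d hd => h1 a (List.mem_cons_of_mem _ ha) d hd)
          (fun b hb c hc => h2 b hb c (List.mem_cons_of_mem _ hc))]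
      tauto

private lemma forall2_congr_mem {E E' : ℕ → ℕ → Prop} {A C : List ℕ}
    (h : ∀ a ∈ A, ∀ c ∈ C, (E a c ↔ E' a c)) :
    List.Forall₂ E A C ↔ List.Forall₂ E' A C := by
  induction A generalizing C with
  | nil => simp
  | cons a A ih =>
    cases C with
    | nil => simp
    | cons c C =>
      rw [List.forall₂_cons, List.forall₂_cons, h a (by simp) c (by simp),
        ih (fun a ha c hc => h a (List.mem_cons_of_mem _ ha) c (List.mem_cons_of_mem _ hc))]

private lemma mem_posF_lt {a : Bool} {l : List Bool} {i : ℕ} (h : i ∈ posF a 0 l) :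
    i < l.length := by
  rw [mem_posF_zero] at h
  exact (List.getElem?_eq_some_iff.1 h).1

theorem step_append (E : ℕ → ℕ → Prop) (b₁ b₂ b₁' b₂' : List Bool)
    (h : ∀ p q, E p q → (p < b₁.length ↔ q < b₁'.length)) :
    Step E (b₁ ++ b₂) (b₁' ++ b₂') ↔
      Step E b₁ b₁' ∧ Step (fun p q => E (b₁.length + p) (b₁'.length + q)) b₂ b₂' := by
  unfold Step
  rw [posF_append, posF_append, forall2_append_iff]
  · have e1 : posF true (0 + b₁.length) b₂ = (posF true 0 b₂).map (fun i => b₁.length + i) := by
      rw [← posF_add, Nat.zero_add, Nat.add_zero]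
    have e2 : posF false (0 + b₁'.length) b₂' =
        (posF false 0 b₂').map (fun i => b₁'.length + i) := by
      rw [← posF_add, Nat.zero_add, Nat.add_zero]
    rw [e1, e2, List.forall₂_map_left_iff, List.forall₂_map_right_iff]
  · intro a ha d hd hE
    have h1 := mem_posF_lt ha
    have h2 := ((mem_posF _ _ _ _).1 hd).1
    have := (h a d hE).1 h1
    omega
  · intro a ha d hd hE
    have h1 := ((mem_posF _ _ _ _).1 ha).1
    have h2 := mem_posF_lt hd
    have := (h a d hE).2 h2
    omega

theorem step_congr (E E' : ℕ → ℕ → Prop) (b b' : List Bool)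
    (h : ∀ p < b.length, ∀ q < b'.length, (E p q ↔ E' p q)) : Step E b b' ↔ Step E' b b' :=
  forall2_congr_mem (fun a ha c hc => h a (mem_posF_lt ha) c (mem_posF_lt hc))

private lemma forall2_eq {A C : List ℕ} :
    List.Forall₂ (fun p q => q = p) A C ↔ C = A := by
  induction A generalizing C with
  | nil => simp
  | cons a A ih =>
    cases C with
    | nil => simp
    | cons c C => rw [List.forall₂_cons, ih, List.cons_eq_cons]

private lemma posF_map_not (n : ℕ) (b : List Bool) :
    posF false n (b.map not) = posF true n b := by
  induction b generalizing n with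
  | nil => simp [posF]
  | cons x b ih => cases x <;> simp [posF, ih]

theorem step_eq (E : ℕ → ℕ → Prop) (b b' : List Bool) (hb : b'.length = b.length)
    (h : ∀ p < b.length, ∀ q < b.length, (E p q ↔ q = p)) : Step E b b' ↔ b' = b.map not := by
  rw [step_congr E (fun p q => q = p) b b' (fun p hp q hq => h p hp q (hb ▸ hq))]
  unfold Step
  rw [forall2_eq]
  constructor
  · intro e
    apply List.ext_getElem?
    intro i
    by_cases hi : i < b.length
    · have hi' : i < b'.length := hb ▸ hi
      have m : b'[i]? = some false ↔ b[i]? = some true := by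
        rw [← mem_posF_zero, ← mem_posF_zero, e]
      rw [List.getElem?_map]
      rw [List.getElem?_eq_getElem hi, List.getElem?_eq_getElem hi'] at m ⊢
      simp only [Option.some.injEq, Option.map_some] at m ⊢
      cases h1 : b'[i] <;> cases h2 : b[i] <;> simp_all
    · rw [List.getElem?_eq_none (by omega), List.getElem?_eq_none (by simp; omega)]
  · rintro rfl
    exact posF_map_not 0 b

end Pool.Agent.Lib89.NN
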