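import Mathlib
import Pool.Agent.Lib_helper89.NN.LS

namespace Pool.Agent.Lib89.NN

private theorem sb_mono {R : ℕ} (w f : ℕ → ℕ) (hf : ∀ r ≤ R, f (r + 1) = f r + w r) :
    ∀ s, s ≤ R + 1 → ∀ r ≤ s, f r ≤ f s := by
  intro s
  induction s with
  | zero => intro _ r hr; rw [Nat.le_zero.1 hr]
  | succ s ih =>
    intro hs r hr
    rcases Nat.lt_or_ge r (s + 1) with h | h
    · have := ih (by omega) r (by omega)
      rw [hf s (by omega)]; omega
    · rw [show r = s + 1 by omega]

private theorem sb_loc {R n : ℕ} (w f : ℕ → ℕ) (h0 : f 0 = 0)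
    (hf : ∀ r ≤ R, f (r + 1) = f r + w r) (hn : f (R + 1) = n) (v : ℕ) (hv : v < n) :
    ∃ r ≤ R, ∃ p < w r, v = f r + p := by
  have hex : ∃ r, v < f (r + 1) := ⟨R, by rw [hn]; exact hv⟩
  classical
  have h1 := Nat.find_spec hex
  have h2 : Nat.find hex ≤ R := Nat.find_min' hex (by rw [hn]; exact hv)
  have h3 : f (Nat.find hex) ≤ v := by
    rcases Nat.eq_zero_or_pos (Nat.find hex) with h | h
    · rw [h, h0]; exact Nat.zero_le _
    · have := Nat.find_min hex (m := Nat.find hex - 1) (by omega)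
      rw [Nat.sub_add_cancel h] at this
      omega
  refine ⟨Nat.find hex, h2, v - f (Nat.find hex), ?_, by omega⟩
  have := hf _ h2
  omega

private theorem sb_uniq {R : ℕ} (w f : ℕ → ℕ) (hf : ∀ r ≤ R, f (r + 1) = f r + w r)
    {r s p q : ℕ} (hr : r ≤ R) (hs : s ≤ R) (hp : p < w r) (hq : q < w s)
    (h : f r + p = f s + q) : r = s ∧ p = q := by
  have key : ∀ r s p q, r ≤ R → s ≤ R → p < w r → f r + p = f s + q → ¬ r < s := by
    intro r s p q hr hs hp h hlt
    have := sb_mono w f hf s (by omega) (r + 1) (by omega)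
    rw [hf r hr] at this
    omega
  have h1 := key r s p q hr hs hp h
  have h2 := key s r q p hs hr hq h.symm
  have h3 : r = s := by omega
  subst h3
  exact ⟨rfl, by omega⟩

theorem sem_backward {n R : ℕ} (G : SimpleGraph (Fin n)) (w f : ℕ → ℕ) (E : ℕ → ℕ → ℕ → Prop)
    (h0 : f 0 = 0) (hf : ∀ r ≤ R, f (r + 1) = f r + w r) (hn : f (R + 1) = n)
    (hE : ∀ r < R, ∀ p q, E r p q → p < w r ∧ q < w (r + 1))
    (hG : ∀ u v : Fin n, u < v → (G.Adj u v ↔ ∃ r < R, ∃ p q, (u : ℕ) = f r + p ∧
      (v : ℕ) = f (r + 1) + q ∧ E r p q))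
    (b : ℕ → List Bool) (hb : ∀ r ≤ R, (b r).length = w r) (hb0 : b 0 = List.replicate (w 0) true)
    (hbR : b R = List.replicate (w R) false) (hst : ∀ r < R, Step (E r) (b r) (b (r + 1))) :
    ∃ M, IsPNM G M := by
  -- positions
  have hone : ∀ r i (h : i < (posF true 0 (b r)).length),
      (b r)[(posF true 0 (b r))[i]]? = some true := fun r i h =>
    (mem_posF_zero true (b r) _).1 (List.getElem_mem h)
  have hzero : ∀ r i (h : i < (posF false 0 (b r)).length),
      (b r)[(posF false 0 (b r))[i]]? = some false := fun r i h =>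
    (mem_posF_zero false (b r) _).1 (List.getElem_mem h)
  have hlt : ∀ (r p : ℕ) (a : Bool), r ≤ R → (b r)[p]? = some a → p < w r := by
    intro r p a hr h
    rw [← hb r hr]
    exact (List.getElem?_eq_some_iff.1 h).1
  have hstep : ∀ r < R, (posF true 0 (b r)).length = (posF false 0 (b (r + 1))).length ∧
      ∀ i (h1 : i < (posF true 0 (b r)).length) (h2 : i < (posF false 0 (b (r + 1))).length),
        E r (posF true 0 (b r))[i] (posF false 0 (b (r + 1)))[i] := by
    intro r hr
    have h := hst r hr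
    unfold Step at h
    rw [List.forall₂_iff_get] at h
    exact ⟨h.1, fun i h1 h2 => h.2 i h1 h2⟩
  have hsort : ∀ (a : Bool) (r i j : ℕ) (hi : i < (posF a 0 (b r)).length)
      (hj : j < (posF a 0 (b r)).length), i < j → (posF a 0 (b r))[i] < (posF a 0 (b r))[j] := by
    intro a r i j hi hj hij
    exact List.pairwise_iff_getElem.1 (posF_sorted a 0 (b r)) i j hi hj hij
  have hsort' : ∀ (a : Bool) (r i j : ℕ) (hi : i < (posF a 0 (b r)).length)
      (hj : j < (posF a 0 (b r)).length), (posF a 0 (b r))[i] < (posF a 0 (b r))[j] → i < j := by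
    intro a r i j hi hj hij
    by_contra hc
    rcases Nat.lt_or_ge j i with h | h
    · have := hsort a r j i hj hi h; omega
    · have : i = j := by omega
      subst this; omega
  have hinj : ∀ (a : Bool) (r i j : ℕ) (hi : i < (posF a 0 (b r)).length)
      (hj : j < (posF a 0 (b r)).length), (posF a 0 (b r))[i] = (posF a 0 (b r))[j] → i = j := by
    intro a r i j hi hj hij
    rcases Nat.lt_trichotomy i j with h | h | h
    · have := hsort a r i j hi hj h; omega
    · exact h
    · have := hsort a r j i hj hi h; omega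
  have hn' : ∀ r ≤ R, ∀ p < w r, f r + p < n := by
    intro r hr p hp
    have := sb_mono w f hf (R + 1) le_rfl (r + 1) (by omega)
    rw [hf r hr, hn] at this
    omega
  -- the matching
  let M : Set (Fin n × Fin n) := {e | ∃ r < R, ∃ i, ∃ (h1 : i < (posF true 0 (b r)).length)
    (h2 : i < (posF false 0 (b (r + 1))).length), (e.1 : ℕ) = f r + (posF true 0 (b r))[i] ∧
      (e.2 : ℕ) = f (r + 1) + (posF false 0 (b (r + 1)))[i]}
  have hM1 : ∀ e ∈ M, e.1 < e.2 := by
    rintro e ⟨r, hr, i, h1, h2, he1, he2⟩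
    rw [Fin.lt_def, he1, he2, hf r hr.le]
    have := hlt r _ true hr.le (hone r i h1)
    omega
  -- constructing edges
  have hmk : ∀ r (hr : r < R) i (h1 : i < (posF true 0 (b r)).length)
      (h2 : i < (posF false 0 (b (r + 1))).length),
      ∃ e ∈ M, (e.1 : ℕ) = f r + (posF true 0 (b r))[i] ∧
        (e.2 : ℕ) = f (r + 1) + (posF false 0 (b (r + 1)))[i] := by
    intro r hr i h1 h2
    refine ⟨(⟨f r + (posF true 0 (b r))[i], hn' r hr.le _ (hlt r _ true hr.le (hone r i h1))⟩,
      ⟨f (r + 1) + (posF false 0 (b (r + 1)))[i],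
        hn' (r + 1) hr _ (hlt (r + 1) _ false hr (hzero (r + 1) i h2))⟩),
      ⟨r, hr, i, h1, h2, rfl, rfl⟩, rfl, rfl⟩
  refine ⟨M, ?_, ?_, ?_⟩
  · intro e he
    refine ⟨hM1 e he, ?_⟩
    rw [hG _ _ (hM1 e he)]
    obtain ⟨r, hr, i, h1, h2, he1, he2⟩ := he
    exact ⟨r, hr, _, _, he1, he2, (hstep r hr).2 i h1 h2⟩
  · intro v
    obtain ⟨r, hr, p, hp, hvp⟩ := sb_loc w f h0 hf hn v v.2
    have hbp : ∃ a, (b r)[p]? = some a := by
      refine ⟨(b r)[p]'(by rw [hb r hr]; exact hp), ?_⟩
      rw [List.getElem?_eq_some_iff]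
      exact ⟨_, rfl⟩
    obtain ⟨a, ha⟩ := hbp
    -- first component analysis
    have hfst : ∀ e ∈ M, e.1 = v → ∃ (_ : r < R) (i : ℕ) (h1 : i < (posF true 0 (b r)).length)
        (h2 : i < (posF false 0 (b (r + 1))).length), (posF true 0 (b r))[i] = p ∧
          (e.2 : ℕ) = f (r + 1) + (posF false 0 (b (r + 1)))[i] := by
      rintro e ⟨s, hs, i, h1, h2, he1, he2⟩ hev
      rw [hev, hvp] at he1
      obtain ⟨h3, h4⟩ := sb_uniq w f hf hr hs.le hp (hlt s _ true hs.le (hone s i h1)) he1
      subst h3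
      exact ⟨hs, i, h1, h2, h4.symm, he2⟩
    have hsnd : ∀ e ∈ M, e.2 = v → ∃ s, s < R ∧ r = s + 1 ∧
        ∃ (i : ℕ) (h1 : i < (posF true 0 (b s)).length)
        (h2 : i < (posF false 0 (b (s + 1))).length), (posF false 0 (b (s + 1)))[i] = p ∧
          (e.1 : ℕ) = f s + (posF true 0 (b s))[i] := by
      rintro e ⟨s, hs, i, h1, h2, he1, he2⟩ hev
      rw [hev, hvp] at he2
      obtain ⟨h3, h4⟩ := sb_uniq w f hf hr (s := s + 1) hs hp
        (hlt (s + 1) _ false hs (hzero (s + 1) i h2)) he2
      exact ⟨s, hs, h3, i, h1, h2, h4.symm, he1⟩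
    cases a with
    | true =>
      have hrR : r < R := by
        rcases Nat.lt_or_ge r R with h | h
        · exact h
        · exfalso
          have : r = R := by omega
          subst this
          rw [hbR, List.getElem?_replicate] at ha
          split_ifs at ha <;> simp at ha
      have hmem : p ∈ posF true 0 (b r) := (mem_posF_zero true (b r) p).2 ha
      obtain ⟨i, hi, hip⟩ := List.getElem_of_mem hmem
      have hi2 : i < (posF false 0 (b (r + 1))).length := by rw [← (hstep r hrR).1]; exact hi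
      obtain ⟨e, heM, he1, he2⟩ := hmk r hrR i hi hi2
      refine ⟨e, ⟨heM, Or.inl (Fin.ext (by rw [he1, hip, hvp]))⟩, ?_⟩
      rintro e' ⟨he'M, he'⟩
      rcases he' with he' | he'
      · obtain ⟨_, j, h1, h2, hj, he'2⟩ := hfst e' he'M he'
        have hij : j = i := hinj true r j i h1 hi (by rw [hj, hip])
        subst hij
        refine Prod.ext ?_ ?_
        · rw [he']; exact Fin.ext (by rw [he1, hip, hvp])
        · exact Fin.ext (by rw [he2, he'2])
      · exfalso
        obtain ⟨s, hs, hrs, j, h1, h2, hj, _⟩ := hsnd e' he'M he'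
        have h3 := hzero (s + 1) j h2
        rw [hj, ← hrs, ha] at h3
        simp at h3
    | false =>
      have hr0 : 0 < r := by
        rcases Nat.eq_zero_or_pos r with h | h
        · exfalso
          subst h
          rw [hb0, List.getElem?_replicate] at ha
          split_ifs at ha <;> simp at ha
        · exact h
      obtain ⟨s, rfl⟩ : ∃ s, r = s + 1 := ⟨r - 1, by omega⟩
      have hsR : s < R := by omega
      have hmem : p ∈ posF false 0 (b (s + 1)) := (mem_posF_zero false (b (s + 1)) p).2 ha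
      obtain ⟨i, hi, hip⟩ := List.getElem_of_mem hmem
      have hi2 : i < (posF true 0 (b s)).length := by rw [(hstep s hsR).1]; exact hi
      obtain ⟨e, heM, he1, he2⟩ := hmk s hsR i hi2 hi
      refine ⟨e, ⟨heM, Or.inr (Fin.ext (by rw [he2, hip, hvp]))⟩, ?_⟩
      rintro e' ⟨he'M, he'⟩
      rcases he' with he' | he'
      · exfalso
        obtain ⟨_, j, h1, h2, hj, _⟩ := hfst e' he'M he'
        have h3 := hone (s + 1) j h1
        rw [hj, ha] at h3
        simp at h3
      · obtain ⟨s', hs', hrs, j, h1, h2, hj, he'1⟩ := hsnd e' he'M he'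
        have hss : s' = s := by omega
        subst hss
        have hij : j = i := hinj false (s' + 1) j i h2 hi (by rw [hj, hip])
        subst hij
        refine Prod.ext ?_ ?_
        · exact Fin.ext (by rw [he1, he'1])
        · rw [he']; exact Fin.ext (by rw [he2, hip, hvp])
  · rintro e ⟨r, hr, i, h1, h2, he1, he2⟩ e' ⟨s, hs, j, h3, h4, he1', he2'⟩ hlt'
    rw [Fin.lt_def] at hlt' ⊢
    rw [he1, he1'] at hlt'
    rw [he2, he2']
    have hp := hlt r _ true hr.le (hone r i h1)
    have hq := hlt s _ true hs.le (hone s j h3)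
    have hp' := hlt (r + 1) _ false hr (hzero (r + 1) i h2)
    rcases Nat.lt_trichotomy r s with h | h | h
    · have h5 := sb_mono w f hf (s + 1) (by omega) (r + 2) (by omega)
      have h6 := hf (r + 1) hr
      rw [show r + 1 + 1 = r + 2 from rfl] at h6
      omega
    · subst h
      have hij : i < j := hsort' true r i j h1 h3 (by omega)
      have := hsort false (r + 1) i j h2 h4 hij
      omega
    · exfalso
      have h5 := sb_mono w f hf r (by omega) (s + 1) (by omega)
      rw [hf s hs.le] at h5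
      omega

end Pool.Agent.Lib89.NN
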