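import Mathlib
import Pool.Agent.Lib_helper89.NN.LS

/-! Block SF: from a perfect non-nested matching to the words of the rows. -/

namespace Pool.Agent.Lib89.NN

private theorem aux_list (l l' : List ℕ) (hl : l.Pairwise (· < ·)) (hl' : l'.Pairwise (· < ·))
    (g : ℕ → ℕ) (hg : ∀ p ∈ l, ∀ p' ∈ l, p < p' → g p < g p')
    (hmem : ∀ q, q ∈ l' ↔ ∃ p ∈ l, g p = q) (E : ℕ → ℕ → Prop) (hE : ∀ p ∈ l, E p (g p)) :
    List.Forall₂ E l l' := by
  have hmap : (l.map g).Pairwise (· < ·) := by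
    rw [List.pairwise_map]
    refine List.Pairwise.imp_of_mem ?_ hl
    intro a b ha hb hab
    exact hg a ha b hb hab
  have hperm : (l.map g).Perm l' := by
    rw [List.perm_ext_iff_of_nodup (hmap.imp (fun h => ne_of_lt h))
      (hl'.imp (fun h => ne_of_lt h))]
    intro q
    rw [hmem q, List.mem_map]
  have heq : l.map g = l' := by
    refine List.Perm.eq_of_pairwise ?_ hmap hl' hperm
    intro a b _ _ h1 h2
    exact absurd (lt_trans h1 h2) (lt_irrefl _)
  rw [← heq, List.forall₂_map_right_iff, List.forall₂_same]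
  exact hE

private theorem f_mono {R : ℕ} (w f : ℕ → ℕ) (hf : ∀ r ≤ R, f (r + 1) = f r + w r) (r : ℕ) :
    ∀ s, r ≤ s → s ≤ R + 1 → f r ≤ f s := by
  intro s hrs
  induction s, hrs using Nat.le_induction with
  | base => intro _; exact le_rfl
  | succ s hs ih =>
      intro h
      rw [hf s (by omega)]
      have := ih (by omega)
      omega

private theorem f_uniq {R : ℕ} (w f : ℕ → ℕ) (hf : ∀ r ≤ R, f (r + 1) = f r + w r) {r s p q : ℕ}
    (hr : r ≤ R) (hs : s ≤ R) (hp : p < w r) (hq : q < w s) (h : f r + p = f s + q) :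
    r = s ∧ p = q := by
  rcases lt_trichotomy r s with h1 | h1 | h1
  · have := f_mono w f hf (r + 1) s h1 (by omega)
    rw [hf r hr] at this
    omega
  · subst h1; exact ⟨rfl, by omega⟩
  · have := f_mono w f hf (s + 1) r h1 (by omega)
    rw [hf s hs] at this
    omega

theorem sem_forward {n R : ℕ} (G : SimpleGraph (Fin n)) (w f : ℕ → ℕ) (E : ℕ → ℕ → ℕ → Prop)
    (h0 : f 0 = 0) (hf : ∀ r ≤ R, f (r + 1) = f r + w r) (hn : f (R + 1) = n)
    (hE : ∀ r < R, ∀ p q, E r p q → p < w r ∧ q < w (r + 1))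
    (hG : ∀ u v : Fin n, u < v → (G.Adj u v ↔ ∃ r < R, ∃ p q, (u : ℕ) = f r + p ∧
      (v : ℕ) = f (r + 1) + q ∧ E r p q)) (M : Set (Fin n × Fin n)) (hM : IsPNM G M) :
    ∃ b : ℕ → List Bool, (∀ r ≤ R, (b r).length = w r) ∧ b 0 = List.replicate (w 0) true ∧
      b R = List.replicate (w R) false ∧ ∀ r < R, Step (E r) (b r) (b (r + 1)) := by
  classical
  -- points of rows are vertices
  have hlt : ∀ r ≤ R, ∀ p < w r, f r + p < n := by
    intro r hr p hp
    have := f_mono w f hf (r + 1) (R + 1) (by omega) le_rfl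
    rw [hf r hr, hn] at this
    omega
  -- edges of the matching
  have hedge : ∀ e ∈ M, ∃ r < R, ∃ p < w r, ∃ q < w (r + 1), (e.1 : ℕ) = f r + p ∧
      (e.2 : ℕ) = f (r + 1) + q ∧ E r p q := by
    intro e he
    obtain ⟨h1, h2⟩ := hM.edge e he
    obtain ⟨r, hr, p, q, h3, h4, h5⟩ := (hG e.1 e.2 h1).1 h2
    obtain ⟨h6, h7⟩ := hE r hr p q h5
    exact ⟨r, hr, p, h6, q, h7, h3, h4, h5⟩
  have huniq : ∀ v : Fin n, ∀ e ∈ M, ∀ e' ∈ M, (e.1 = v ∨ e.2 = v) → (e'.1 = v ∨ e'.2 = v) →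
      e = e' := by
    intro v e he e' he' h h'
    exact (hM.cover v).unique ⟨he, h⟩ ⟨he', h'⟩
  let P : ℕ → ℕ → Prop := fun r p => ∃ e ∈ M, (e.1 : ℕ) = f r + p
  let b : ℕ → List Bool := fun r => (List.range (w r)).map (fun p => decide (P r p))
  have hblen : ∀ r, (b r).length = w r := by
    intro r
    simp [b]
  have hbget : ∀ r p a, (b r)[p]? = some a ↔ p < w r ∧ decide (P r p) = a := by
    intro r p a
    simp only [b, List.getElem?_map, Option.map_eq_some_iff, List.getElem?_eq_some_iff,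
      List.length_range, List.getElem_range]
    constructor
    · rintro ⟨x, ⟨hx, rfl⟩, hx2⟩
      exact ⟨hx, hx2⟩
    · rintro ⟨hx, hx2⟩
      exact ⟨p, ⟨hx, rfl⟩, hx2⟩
  refine ⟨b, fun r _ => hblen r, ?_, ?_, ?_⟩
  · -- row 0
    rw [List.eq_replicate_iff]
    refine ⟨hblen 0, ?_⟩
    intro x hx
    simp only [b, List.mem_map, List.mem_range] at hx
    obtain ⟨p, hp, rfl⟩ := hx
    rw [decide_eq_true_iff]
    obtain ⟨e, ⟨he, hev⟩, -⟩ := hM.cover ⟨f 0 + p, hlt 0 (Nat.zero_le _) p hp⟩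
    rcases hev with hev | hev
    · exact ⟨e, he, by rw [hev]⟩
    · exfalso
      obtain ⟨r, hr, p', hp', q, hq, h1, h2, -⟩ := hedge e he
      rw [hev] at h2
      have := f_uniq w f hf (Nat.zero_le _) (by omega : r + 1 ≤ R) hp hq h2
      omega
  · -- row R
    rw [List.eq_replicate_iff]
    refine ⟨hblen R, ?_⟩
    intro x hx
    simp only [b, List.mem_map, List.mem_range] at hx
    obtain ⟨p, hp, rfl⟩ := hx
    rw [decide_eq_false_iff_not]
    rintro ⟨e, he, h3⟩
    obtain ⟨r, hr, p', hp', q, hq, h1, h2, -⟩ := hedge e he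
    rw [h3] at h1
    have := f_uniq w f hf le_rfl (by omega : r ≤ R) hp hp' h1
    omega
  · intro r hr
    -- the partner of a point
    have hpart : ∀ p, ∃ q, (P r p ∧ p < w r) → q < w (r + 1) ∧ E r p q ∧
        ∃ e ∈ M, (e.1 : ℕ) = f r + p ∧ (e.2 : ℕ) = f (r + 1) + q := by
      intro p
      by_cases hp : P r p ∧ p < w r
      · obtain ⟨⟨e, he, h3⟩, hpw⟩ := hp
        obtain ⟨r', hr', p', hp', q, hq, h1, h2, h4⟩ := hedge e he
        obtain ⟨rfl, rfl⟩ := f_uniq w f hf (by omega : r ≤ R) (by omega : r' ≤ R) hpw hp'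
          (h3.symm.trans h1)
        exact ⟨q, fun _ => ⟨hq, h4, e, he, h1, h2⟩⟩
      · exact ⟨0, fun h => absurd h hp⟩
    choose g hg using hpart
    have hones : ∀ p, p ∈ posF true 0 (b r) ↔ p < w r ∧ P r p := by
      intro p
      rw [mem_posF_zero, hbget, decide_eq_true_iff]
    have hzeros : ∀ q, q ∈ posF false 0 (b (r + 1)) ↔ q < w (r + 1) ∧ ¬ P (r + 1) q := by
      intro q
      rw [mem_posF_zero, hbget, decide_eq_false_iff_not]
    refine aux_list _ _ (posF_sorted _ _ _) (posF_sorted _ _ _) g ?_ ?_ _ ?_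
    · intro p hp p' hp' hpp
      rw [hones] at hp hp'
      obtain ⟨-, -, e, he, h1, h2⟩ := hg p ⟨hp.2, hp.1⟩
      obtain ⟨-, -, e', he', h1', h2'⟩ := hg p' ⟨hp'.2, hp'.1⟩
      have h3 : e.1 < e'.1 := by
        rw [Fin.lt_def, h1, h1']; omega
      have h4 := hM.mono e he e' he' h3
      rw [Fin.lt_def, h2, h2'] at h4
      omega
    · intro q
      rw [hzeros]
      constructor
      · rintro ⟨hq, hnq⟩
        obtain ⟨e, ⟨he, hev⟩, -⟩ := hM.cover ⟨f (r + 1) + q, hlt (r + 1) (by omega) q hq⟩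
        rcases hev with hev | hev
        · exact absurd ⟨e, he, by rw [hev]⟩ hnq
        · obtain ⟨r', hr', p', hp', q', hq', h1, h2, h4⟩ := hedge e he
          have h5 : f (r + 1) + q = f (r' + 1) + q' := by rw [← h2, hev]
          obtain ⟨h6, rfl⟩ := f_uniq w f hf (by omega : r + 1 ≤ R) (by omega : r' + 1 ≤ R) hq hq' h5
          obtain rfl : r = r' := by omega
          refine ⟨p', (hones p').2 ⟨hp', e, he, h1⟩, ?_⟩
          obtain ⟨-, -, e', he', h1', h2'⟩ := hg p' ⟨⟨e, he, h1⟩, hp'⟩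
          have h7 : e = e' := huniq e.1 e he e' he' (Or.inl rfl)
            (Or.inl (Fin.ext (h1'.trans h1.symm)))
          rw [← h7, h2] at h2'
          omega
      · rintro ⟨p, hp, rfl⟩
        rw [hones] at hp
        obtain ⟨h3, -, e, he, h1, h2⟩ := hg p ⟨hp.2, hp.1⟩
        refine ⟨h3, ?_⟩
        rintro ⟨e', he', h4⟩
        have h5 : e'.1 = e.2 := Fin.ext (h4.trans h2.symm)
        have h7 : e = e' := huniq e.2 e he e' he' (Or.inr rfl) (Or.inl h5)
        have h8 := (hM.edge e he).1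
        rw [← h7] at h5
        exact absurd h5 (ne_of_lt h8)
    · intro p hp
      rw [hones] at hp
      exact (hg p ⟨hp.2, hp.1⟩).2.1

end Pool.Agent.Lib89.NN
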