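import Mathlib
import Pool.Agent.Lib_helper89.NN.LS

/-! Block SH: shift rows and the double rail code. -/

namespace Pool.Agent.Lib89.NN

private theorem posF_app (a : Bool) (l l' : List Bool) : ∀ n : ℕ,
    posF a n (l ++ l') = posF a n l ++ posF a (n + l.length) l' := by
  induction l with
  | nil => intro n; simp [posF]
  | cons x l ih =>
    intro n
    have h1 : n + (x :: l).length = n + 1 + l.length := by
      simp only [List.length_cons]; omega
    rw [h1]
    simp only [List.cons_append, posF]
    split_ifs <;> simp [ih (n + 1)]

private theorem posF_succ (a : Bool) (l : List Bool) : ∀ n : ℕ,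
    (posF a n l).map (fun p => p + 1) = posF a (n + 1) l := by
  induction l with
  | nil => intro n; simp [posF]
  | cons x l ih =>
    intro n
    simp only [posF]
    split_ifs <;> simp [ih (n + 1)]

private theorem mem_range (a : Bool) (l : List Bool) : ∀ n i : ℕ,
    i ∈ posF a n l → n ≤ i ∧ i < n + l.length := by
  induction l with
  | nil => intro n i h; simp [posF] at h
  | cons x l ih =>
    intro n i h
    simp only [posF] at h
    simp only [List.length_cons]
    split_ifs at h
    · rcases List.mem_cons.1 h with h | h
      · omega
      · have := ih _ _ h; omega
    · have := ih _ _ h; omega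

private theorem fa2_iff (E : ℕ → ℕ → Prop) (f : ℕ → ℕ) (N : ℕ)
    (hE : ∀ p < N, ∀ q < N, (E p q ↔ q = f p)) : ∀ l l' : List ℕ, (∀ p ∈ l, p < N) →
      (∀ q ∈ l', q < N) → (List.Forall₂ E l l' ↔ l' = l.map f) := by
  intro l
  induction l with
  | nil =>
    intro l' _ _
    simp
  | cons p l ih =>
    intro l' hl hl'
    cases l' with
    | nil => simp
    | cons q l' =>
      rw [List.forall₂_cons, List.map_cons, List.cons_eq_cons,
        ih l' (fun x hx => hl x (List.mem_cons_of_mem _ hx))
          (fun x hx => hl' x (List.mem_cons_of_mem _ hx)),
        hE p (hl p List.mem_cons_self) q (hl' q List.mem_cons_self)]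

private theorem key (c : List Bool) : ∀ (d : List Bool) (m : ℕ), c.length = d.length →
    (posF true m c = posF false m d ↔ d = c.map not) := by
  induction c with
  | nil =>
    intro d m h
    have : d = [] := List.length_eq_zero_iff.1 h.symm
    subst this
    simp [posF]
  | cons x c ih =>
    intro d m h
    cases d with
    | nil => simp at h
    | cons z d =>
      have hl : c.length = d.length := by simpa using h
      have h1 : ∀ l : List Bool, ∀ a : Bool, ∀ t : List ℕ, posF a (m + 1) l ≠ m :: t := by
        intro l a t e
        have := (mem_range a l (m + 1) m (e ▸ List.mem_cons_self)).1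
        omega
      cases x <;> cases z <;> simp [posF, h1, (h1 _ _ _).symm, ih d (m + 1) hl]

private theorem step_fun (n : ℕ) (E : ℕ → ℕ → Prop) (f : ℕ → ℕ) (b b' : List Bool)
    (hb : b.length = n) (hb' : b'.length = n) (hE : ∀ p < n, ∀ q < n, (E p q ↔ q = f p)) :
    Step E b b' ↔ posF false 0 b' = (posF true 0 b).map f := by
  unfold Step
  refine fa2_iff E f n hE _ _ ?_ ?_
  · intro p hp
    have := (mem_range true b 0 p hp).2
    omega
  · intro p hp
    have := (mem_range false b' 0 p hp).2
    omega

theorem step_shift1 (n : ℕ) (E : ℕ → ℕ → Prop) (b b' : List Bool) (hb : b.length = n + 1)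
    (hb' : b'.length = n + 1) (hE : ∀ p < n + 1, ∀ q < n + 1, (E p q ↔ q = p + 1)) :
    Step E b b' ↔ ∃ c : List Bool, b = c ++ [false] ∧ b' = true :: c.map not := by
  rw [step_fun (n + 1) E (fun p => p + 1) b b' hb hb' hE, posF_succ]
  obtain ⟨c, z, rfl⟩ : ∃ c z, b = c ++ [z] := by
    rcases List.eq_nil_or_concat b with h | ⟨c, z, h⟩
    · subst h; simp at hb
    · exact ⟨c, z, by simpa [List.concat_eq_append] using h⟩
  cases b' with
  | nil => simp at hb'
  | cons w d =>
    have hc : c.length = n := by simpa using hb
    have hd : d.length = n := by simpa using hb'
    rw [posF_app]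
    constructor
    · intro h
      have hw : w = true := by
        by_contra hw
        have hw' : w = false := by simpa using hw
        subst hw'
        have h0 : 0 ∈ posF false 0 (false :: d) := by simp [posF]
        rw [h] at h0
        rcases List.mem_append.1 h0 with h0 | h0
        · have := (mem_range _ _ _ _ h0).1; omega
        · have := (mem_range _ _ _ _ h0).1; omega
      have hz : z = false := by
        by_contra hz
        have hz' : z = true := by simpa using hz
        subst hz'
        have h0 : 0 + 1 + c.length ∈ posF true (0 + 1) c ++ posF true (0 + 1 + c.length) [true] := by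
          simp [posF]
        rw [← h] at h0
        have := (mem_range _ _ _ _ h0).2
        simp only [List.length_cons] at this
        omega
      subst hw hz
      refine ⟨c, rfl, ?_⟩
      congr 1
      refine (key c d 1 (by omega)).1 ?_
      simpa [posF] using h.symm
    · rintro ⟨c', h1, h2⟩
      obtain ⟨h1a, h1b⟩ := List.append_inj' h1 rfl
      subst h1a
      have hz : z = false := by simpa using h1b
      obtain ⟨h2a, h2b⟩ := List.cons_eq_cons.1 h2
      subst h2a hz
      have := (key c d 1 (by omega)).2 h2b
      simpa [posF] using this.symm

theorem step_shift2 (n : ℕ) (E : ℕ → ℕ → Prop) (b b' : List Bool) (hb : b.length = n + 2)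
    (hb' : b'.length = n + 2)
    (hE : ∀ p < n + 2, ∀ q < n + 2, (E p q ↔ (p = 0 ∧ q = 0) ∨ (1 ≤ p ∧ q = p + 1))) :
    Step E b b' ↔ ∃ (x : Bool) (c : List Bool), b = x :: (c ++ [false]) ∧
      b' = (!x) :: true :: c.map not := by
  rw [step_fun (n + 2) E (fun p => if p = 0 then 0 else p + 1) b b' hb hb' (by
    intro p hp q hq
    rw [hE p hp q hq]
    split_ifs with h
    · subst h; simp
    · constructor
      · rintro (h' | h')
        · exact absurd h'.1 h
        · exact h'.2
      · intro h'; exact Or.inr ⟨by omega, h'⟩)]
  cases b with
  | nil => simp at hb
  | cons x b =>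
    obtain ⟨c, z, rfl⟩ : ∃ c z, b = c ++ [z] := by
      rcases List.eq_nil_or_concat b with h | ⟨c, z, h⟩
      · subst h; simp at hb
      · exact ⟨c, z, by simpa [List.concat_eq_append] using h⟩
    have hc : c.length = n := by simpa using hb
    rcases b' with _ | ⟨w, _ | ⟨u, d⟩⟩
    · simp at hb'
    · simp at hb'
    · have hd : d.length = n := by simpa using hb'
      have hmap : (posF true 1 (c ++ [z])).map (fun p => if p = 0 then 0 else p + 1) =
          posF true 2 c ++ posF true (2 + c.length) [z] := by
        have e1 : (posF true 1 (c ++ [z])).map (fun p => if p = 0 then 0 else p + 1) =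
            (posF true 1 (c ++ [z])).map (fun p => p + 1) := by
          refine List.map_congr_left ?_
          intro p hp
          have := (mem_range _ _ _ _ hp).1
          rw [if_neg (by omega)]
        rw [e1, posF_succ, posF_app]
      have hL : (posF true 0 (x :: (c ++ [z]))).map (fun p => if p = 0 then 0 else p + 1) =
          (if x = true then [0] else []) ++ (posF true 2 c ++ posF true (2 + c.length) [z]) := by
        rw [← hmap]
        cases x <;> simp [posF]
      have hR : posF false 0 (w :: u :: d) = (if w = false then [0] else []) ++
          ((if u = false then [1] else []) ++ posF false 2 d) := by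
        cases w <;> cases u <;> simp [posF]
      rw [hL, hR]
      constructor
      · intro h
        have hz : z = false := by
          by_contra hz
          have hz' : z = true := by simpa using hz
          subst hz'
          have h0 : 2 + c.length ∈ (if x = true then [0] else []) ++
              (posF true 2 c ++ posF true (2 + c.length) [true]) := by simp [posF]
          rw [← h, ← hR] at h0
          have := (mem_range _ _ _ _ h0).2
          simp only [List.length_cons] at this
          omega
        subst hz
        have hu : u = true := by
          by_contra hu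
          have hu' : u = false := by simpa using hu
          subst hu'
          have h0 : 1 ∈ (if w = false then [0] else []) ++
              ((if false = false then [1] else []) ++ posF false 2 d) := by simp
          rw [h] at h0
          rcases List.mem_append.1 h0 with h0 | h0
          · cases x <;> simp at h0
          · rcases List.mem_append.1 h0 with h0 | h0
            · have := (mem_range _ _ _ _ h0).1; omega
            · simp [posF] at h0
        subst hu
        have n1 : ∀ t : List ℕ, posF false 2 d ≠ 0 :: t := by
          intro t e
          have := (mem_range false d 2 0 (e ▸ List.mem_cons_self)).1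
          omega
        have n2 : ∀ t : List ℕ, posF true 2 c ≠ 0 :: t := by
          intro t e
          have := (mem_range true c 2 0 (e ▸ List.mem_cons_self)).1
          omega
        refine ⟨x, c, rfl, ?_⟩
        have hd' : w = !x ∧ posF true 2 c = posF false 2 d := by
          cases x <;> cases w
          · exfalso
            simp [posF] at h
            exact n2 _ h.symm
          · simp [posF] at h
            exact ⟨rfl, h.symm⟩
          · simp [posF] at h
            exact ⟨rfl, h.symm⟩
          · exfalso
            simp [posF] at h
            exact n1 _ h
        rw [hd'.1, (key c d 2 (by omega)).1 hd'.2]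
      · rintro ⟨x', c', h1, h2⟩
        obtain ⟨h1a, h1b⟩ := List.cons_eq_cons.1 h1
        obtain ⟨h1c, h1d⟩ := List.append_inj' h1b rfl
        obtain ⟨h2a, h2b⟩ := List.cons_eq_cons.1 h2
        obtain ⟨h2c, h2d⟩ := List.cons_eq_cons.1 h2b
        have hz : z = false := by simpa using h1d
        subst h1a h1c hz h2c
        have := (key c d 2 (by omega)).2 h2d
        subst h2a
        cases x <;> simp [posF, this]

theorem encs_append (y y' : List Bool) : encs (y ++ y') = encs y ++ encs y' := by
  simp [encs, List.flatMap_append]

theorem length_encs (y : List Bool) : (encs y).length = 2 * y.length := by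
  induction y with
  | nil => simp [encs]
  | cons x y ih =>
    have : encs (x :: y) = enc x ++ encs y := by simp [encs]
    rw [this, List.length_append, ih]
    simp [enc]
    ring

theorem encs_inj (y y' : List Bool) (h : encs y = encs y') : y = y' := by
  induction y generalizing y' with
  | nil =>
    cases y' with
    | nil => rfl
    | cons z y' => simp [encs, enc] at h
  | cons x y ih =>
    cases y' with
    | nil => simp [encs, enc] at h
    | cons z y' =>
      have e : ∀ (x : Bool) (y : List Bool), encs (x :: y) = x :: (!x) :: encs y := by
        intro x y; simp [encs, enc]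
      rw [e, e] at h
      obtain ⟨h1, h2⟩ := List.cons_eq_cons.1 h
      obtain ⟨h3, h4⟩ := List.cons_eq_cons.1 h2
      rw [h1, ih y' h4]

end Pool.Agent.Lib89.NN
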