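import Mathlib
import Pool.Agent.Lib_helper89.NN.SH
import Pool.Agent.Lib_helper89.NN.RW

/-! Block RN. -/

namespace Pool.Agent.Lib89.NN

variable {V C : ℕ} {o : ℕ → ℕ → Bool → Prop}

theorem run_add (n : ℕ) (E : ℕ → ℕ → ℕ → Prop) (r k l : ℕ) (b b'' : List Bool) :
    Run n E r (k + l) b b'' ↔ ∃ b', Run n E r k b b' ∧ Run n E (r + k) l b' b'' := by
  induction k generalizing r b with
  | zero =>
    rw [Nat.zero_add, Nat.add_zero]
    constructor
    · intro h
      exact ⟨b, rfl, h⟩
    · rintro ⟨b', h1, h2⟩
      have h1' : b' = b := h1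
      rw [h1'] at h2
      exact h2
  | succ k ih =>
    have e : k + 1 + l = (k + l) + 1 := by omega
    have e2 : r + (k + 1) = r + 1 + k := by omega
    rw [e, e2]
    constructor
    · rintro ⟨c, hc1, hc2, hc3⟩
      obtain ⟨b', h1, h2⟩ := (ih (r + 1) c).1 hc3
      exact ⟨b', ⟨c, hc1, hc2, h1⟩, h2⟩
    · rintro ⟨b', ⟨c, hc1, hc2, h1⟩, h2⟩
      exact ⟨c, hc1, hc2, (ih (r + 1) c).2 ⟨b', h1, h2⟩⟩

theorem run_iff_seq (n : ℕ) (E : ℕ → ℕ → ℕ → Prop) (r k : ℕ) (b b' : List Bool) :
    Run n E r k b b' ↔ ∃ β : ℕ → List Bool, β r = b ∧ β (r + k) = b' ∧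
      ∀ i < k, (β (r + i + 1)).length = n ∧
        Step (E (r + i)) (β (r + i)) (β (r + i + 1)) := by
  induction k generalizing r b with
  | zero =>
    constructor
    · intro h
      have h' : b' = b := h
      exact ⟨fun _ => b, rfl, h'.symm, fun i hi => absurd hi (Nat.not_lt_zero i)⟩
    · rintro ⟨β, h1, h2, -⟩
      change b' = b
      rw [← h1, ← h2, Nat.add_zero]
  | succ k ih =>
    constructor
    · rintro ⟨c, hc1, hc2, hc3⟩
      obtain ⟨β, h1, h2, h3⟩ := (ih (r + 1) c).1 hc3
      refine ⟨Function.update β r b, ?_, ?_, ?_⟩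
      · rw [Function.update_self]
      · rw [Function.update_of_ne (by omega)]
        rw [← h2]
        congr 1
        omega
      · intro i hi
        rcases Nat.eq_zero_or_pos i with rfl | hpos
        · simp only [Nat.add_zero]
          rw [Function.update_self, Function.update_of_ne (by omega), h1]
          exact ⟨hc1, hc2⟩
        · rw [Function.update_of_ne (by omega), Function.update_of_ne (by omega)]
          obtain ⟨j, rfl⟩ : ∃ j, i = j + 1 := ⟨i - 1, by omega⟩
          have h4 := h3 j (by omega)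
          have e : r + 1 + j = r + (j + 1) := by omega
          rw [e] at h4
          exact h4
    · rintro ⟨β, h1, h2, h3⟩
      refine ⟨β (r + 1), ?_, ?_, (ih (r + 1) (β (r + 1))).2 ⟨β, rfl, ?_, ?_⟩⟩
      · have := h3 0 (Nat.succ_pos k)
        simp only [Nat.add_zero] at this
        exact this.1
      · have := h3 0 (Nat.succ_pos k)
        simp only [Nat.add_zero] at this
        rw [h1] at this
        exact this.2
      · rw [← h2]
        congr 1
        omega
      · intro i hi
        have h4 := h3 (i + 1) (by omega)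
        have e : r + 1 + i = r + (i + 1) := by omega
        rw [e]
        exact h4

theorem run_boundary {c : ℕ} (hc : c < C) (b b'' : List Bool) (hb : b.length = 2 * V + 2) :
    Run (2 * V + 2) (RowE V C o) (1 + c * (18 * V + 2)) 2 b b'' ↔
      ∃ y : List Bool, b = y ++ [true, false] ∧ b'' = [false, true] ++ y := by
  have e1 : ∀ p < 2 * V + 1 + 1, ∀ q < 2 * V + 1 + 1,
      (RowE V C o (1 + c * (18 * V + 2)) p q ↔ q = p + 1) := by
    intro p _ q hq
    rw [rowE_sh1 hc]
    constructor
    · exact fun h => h.1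
    · exact fun h => ⟨h, by omega⟩
  have e2 : ∀ p < 2 * V + 2, ∀ q < 2 * V + 2,
      (RowE V C o (1 + c * (18 * V + 2) + 1) p q ↔ (p = 0 ∧ q = 0) ∨ (1 ≤ p ∧ q = p + 1)) := by
    intro p _ q hq
    have e : 1 + c * (18 * V + 2) + 1 = 2 + c * (18 * V + 2) := by ring
    rw [e, rowE_sh2 hc]
    constructor
    · rintro (h | h)
      · exact Or.inl h
      · exact Or.inr ⟨h.1, h.2.1⟩
    · rintro (h | h)
      · exact Or.inl h
      · exact Or.inr ⟨h.1, h.2, by omega⟩
  constructor
  · rintro ⟨b', hb', h1, b3, hb3, h2, h3⟩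
    have h3' : b'' = b3 := h3
    subst h3'
    obtain ⟨d, hd1, hd2⟩ := (step_shift1 (2 * V + 1) _ b b' (by omega) (by omega) e1).1 h1
    obtain ⟨x, d', hd3, hd4⟩ := (step_shift2 (2 * V) _ b' b'' (by omega) (by omega) e2).1 h2
    rw [hd2] at hd3
    have hx : true = x := (List.cons.inj hd3).1
    have hd5 : d.map not = d' ++ [false] := (List.cons.inj hd3).2
    have hd6 : d = d'.map not ++ [true] := by
      have h5 := congrArg (List.map not) hd5
      rw [List.map_map] at h5
      have h6 : d.map (not ∘ not) = d := by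
        conv_rhs => rw [← List.map_id d]
        congr 1
        funext z
        simp
      rw [h6] at h5
      rw [h5]
      simp
    refine ⟨d'.map not, ?_, ?_⟩
    · rw [hd1, hd6]
      simp
    · rw [hd4, ← hx]
      simp
  · rintro ⟨y, hy1, hy2⟩
    have hyl : y.length = 2 * V := by
      rw [hy1] at hb
      simp at hb
      omega
    have hmm : (y.map not).map not = y := by
      rw [List.map_map]
      conv_rhs => rw [← List.map_id y]
      congr 1
      funext z
      simp
    refine ⟨true :: (y ++ [true]).map not, ?_, ?_, b'', ?_, ?_, rfl⟩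
    · simp
      omega
    · refine (step_shift1 (2 * V + 1) _ b _ (by omega) ?_ e1).2 ⟨y ++ [true], ?_, rfl⟩
      · simp
        omega
      · rw [hy1]
        simp
    · rw [hy2]
      simp
      omega
    · refine (step_shift2 (2 * V) _ _ b'' ?_ ?_ e2).2 ⟨true, y.map not, ?_, ?_⟩
      · simp
        omega
      · rw [hy2]
        simp
        omega
      · simp
      · rw [hy2, hmm]
        simp

end Pool.Agent.Lib89.NN
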