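import Mathlib
import Pool.Agent.Lib_helper89.NN.LS

namespace Pool.Agent.Lib89.NN

private def allW : List (List Bool) :=
  [false, true].flatMap fun a => [false, true].flatMap fun b =>
    [false, true].flatMap fun c => [false, true].flatMap fun d => [[a, b, c, d]]

private theorem mem_allW (s : List Bool) : s ∈ allW ↔ s.length = 4 := by
  constructor
  · intro h
    have : ∀ t ∈ allW, t.length = 4 := by decide
    exact this s h
  · intro h
    match s, h with
    | [a, b, c, d], _ => revert a b c d; decide

private instance (L : List (ℕ × ℕ)) (s s' : List Bool) :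
    Decidable (Step (fun a b => (a, b) ∈ L) s s') :=
  inferInstanceAs (Decidable (List.Forall₂ _ _ _))

private def next (L : List (ℕ × ℕ)) (s : List Bool) : List (List Bool) :=
  allW.filter (fun s' => decide (Step (fun a b => (a, b) ∈ L) s s'))

private def locL (pos neg : Bool) : ℕ → ℕ → List Bool → List (List Bool)
  | _, 0, s => [s]
  | k, j + 1, s => (next (gE pos neg k) s).flatMap (locL pos neg (k + 1) j)

private theorem loc_iff (pos neg : Bool) (j : ℕ) : ∀ (k : ℕ) (s s' : List Bool),
    Loc pos neg k j s s' ↔ s' ∈ locL pos neg k j s := by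
  induction j with
  | zero => intro k s s'; simp [Loc, locL]
  | succ j ih =>
    intro k s s'
    simp only [Loc, locL, List.mem_flatMap, next, List.mem_filter, mem_allW, decide_eq_true_eq]
    constructor
    · rintro ⟨t, h1, h2, h3⟩
      exact ⟨t, ⟨h1, h2⟩, (ih _ _ _).1 h3⟩
    · rintro ⟨t, ⟨h1, h2⟩, h3⟩
      exact ⟨t, h1, h2, (ih _ _ _).2 h3⟩

private theorem locL_fin : ∀ pos neg a x : Bool, 
    (∀ s' ∈ locL pos neg 0 6 (enc a ++ enc x), s' ∈ ([false, true].filter fun a' =>
      decide (((pos && x || neg && !x) = true → a' = true) ∧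
      ((pos && x || neg && !x) = false → a' = true → a = true))).map (fun a' => enc x ++ enc a')) ∧
    (∀ s' ∈ ([false, true].filter fun a' =>
      decide (((pos && x || neg && !x) = true → a' = true) ∧
      ((pos && x || neg && !x) = false → a' = true → a = true))).map (fun a' => enc x ++ enc a'),
      s' ∈ locL pos neg 0 6 (enc a ++ enc x)) := by
  decide +kernel

theorem loc_gadget (pos neg a x : Bool) (s' : List Bool) :
    Loc pos neg 0 6 (enc a ++ enc x) s' ↔ ∃ a' : Bool, s' = enc x ++ enc a' ∧
      ((pos && x || neg && !x) = true → a' = true) ∧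
      ((pos && x || neg && !x) = false → a' = true → a = true) := by
  rw [loc_iff]
  have h := locL_fin pos neg a x
  constructor
  · intro hs
    have h1 := h.1 s' hs
    rw [List.mem_map] at h1
    obtain ⟨a', ha', rfl⟩ := h1
    rw [List.mem_filter, decide_eq_true_eq] at ha'
    exact ⟨a', rfl, ha'.2⟩
  · rintro ⟨a', rfl, ha'⟩
    apply h.2
    rw [List.mem_map]
    refine ⟨a', ?_, rfl⟩
    rw [List.mem_filter, decide_eq_true_eq]
    exact ⟨by cases a' <;> simp, ha'⟩

end Pool.Agent.Lib89.NN
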