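import Mathlib
import Pool.Agent.Lib_helper89.NN.CR
import Pool.Agent.Lib_helper89.NN.GA

/-! MP_8c0258_lc, block RD: one round. -/

set_option autoImplicit false

namespace Pool.Agent.Lib89.NN

variable {V C : ℕ} {o : ℕ → ℕ → Bool → Prop}

private theorem encs_cons (x : Bool) (y : List Bool) : encs (x :: y) = enc x ++ encs y := by
  simp [encs]

private theorem encs_nil : encs [] = [] := rfl

private theorem encs_take_succ {y : List Bool} {j : ℕ} (hj : j < y.length) :
    encs (y.take (j + 1)) = encs (y.take j) ++ enc (y.getD j false) := by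
  rw [List.take_succ_eq_append_getElem hj, encs_append, List.getD_eq_getElem _ _ hj, encs_cons,
    encs_nil, List.append_nil]

private theorem encs_drop {y : List Bool} {j : ℕ} (hj : j < y.length) :
    encs (y.drop j) = enc (y.getD j false) ++ encs (y.drop (j + 1)) := by
  rw [List.drop_eq_getElem_cons hj, encs_cons, List.getD_eq_getElem _ _ hj]

/-- one crossing inside a sweep -/
private theorem cross {c : ℕ} (hc : c < C) (y : List Bool) (hy : y.length = V) (j : ℕ)
    (hj : j < V) (a : Bool) (b'' : List Bool) :
    Run (2 * V + 2) (RowE V C o) (3 + c * (18 * V + 2) + 18 * j) 18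
      (encs (y.take j) ++ enc a ++ encs (y.drop j)) b'' ↔
      ∃ a' : Bool, b'' = encs (y.take (j + 1)) ++ enc a' ++ encs (y.drop (j + 1)) ∧
        (o c j (y.getD j false) → a' = true) ∧
        (¬ o c j (y.getD j false) → a' = true → a = true) := by
  classical
  have hjy : j < y.length := by omega
  have h1 := run_cross (o := o) hc hj (decide (o c j true)) (decide (o c j false))
    (by simp) (by simp) (encs (y.take j)) (enc a ++ enc (y.getD j false))
    (encs (y.drop (j + 1))) b'' (by rw [length_encs, List.length_take]; omega) (by simp [enc])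
    (by rw [length_encs, List.length_drop]; omega)
  have h2 : encs (y.take j) ++ enc a ++ encs (y.drop j) =
      encs (y.take j) ++ (enc a ++ enc (y.getD j false)) ++ encs (y.drop (j + 1)) := by
    rw [encs_drop hjy]
    simp only [List.append_assoc]
  rw [h2, h1]
  have h3 : (decide (o c j true) && y.getD j false || decide (o c j false) && !(y.getD j false)) =
      decide (o c j (y.getD j false)) := by
    cases y.getD j false <;> simp
  constructor
  · rintro ⟨s', h4, h5⟩
    rw [loc_gadget, h3] at h5
    obtain ⟨a', h6, h7, h8⟩ := h5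
    refine ⟨a', ?_, fun h => h7 (by simpa using h), fun h => h8 (by simpa using h)⟩
    rw [h4, h6, encs_take_succ hjy]
    simp only [List.append_assoc]
  · rintro ⟨a', h6, h7, h8⟩
    refine ⟨enc (y.getD j false) ++ enc a', ?_, ?_⟩
    · rw [h6, encs_take_succ hjy]
      simp only [List.append_assoc]
    · rw [loc_gadget, h3]
      exact ⟨a', rfl, fun h => h7 (by simpa using h), fun h => h8 (by simpa using h)⟩

theorem sweep_sound {c : ℕ} (hc : c < C) (y : List Bool) (hy : y.length = V) (j : ℕ) (hj : j ≤ V)
    (b'' : List Bool)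
    (h : Run (2 * V + 2) (RowE V C o) (3 + c * (18 * V + 2)) (18 * j)
      ([false, true] ++ encs y) b'') :
    ∃ a' : Bool, b'' = encs (y.take j) ++ enc a' ++ encs (y.drop j) ∧
      (a' = true → ∃ v < j, o c v (y.getD v false)) := by
  induction j generalizing b'' with
  | zero =>
    refine ⟨false, ?_, by simp⟩
    rw [mul_zero] at h
    have h1 : b'' = [false, true] ++ encs y := h
    rw [h1]
    simp [encs, enc]
  | succ j ih =>
    rw [show 18 * (j + 1) = 18 * j + 18 by omega, run_add] at h
    obtain ⟨b', h1, h2⟩ := h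
    obtain ⟨a, rfl, h3⟩ := ih (by omega) b' h1
    obtain ⟨a', h4, h5, h6⟩ := (cross hc y hy j (by omega) a b'').1 h2
    refine ⟨a', h4, fun h7 => ?_⟩
    by_cases h8 : o c j (y.getD j false)
    · exact ⟨j, by omega, h8⟩
    · obtain ⟨v, hv, h9⟩ := h3 (h6 h8 h7)
      exact ⟨v, by omega, h9⟩

theorem sweep_complete {c : ℕ} (hc : c < C) (y : List Bool) (hy : y.length = V) (j : ℕ)
    (hj : j ≤ V) (a' : Bool) (ha : a' = true ↔ ∃ v < j, o c v (y.getD v false)) :
    Run (2 * V + 2) (RowE V C o) (3 + c * (18 * V + 2)) (18 * j)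
      ([false, true] ++ encs y) (encs (y.take j) ++ enc a' ++ encs (y.drop j)) := by
  classical
  induction j generalizing a' with
  | zero =>
    have h1 : a' = false := by
      cases a'
      · rfl
      · exfalso
        obtain ⟨v, hv, -⟩ := ha.1 rfl
        omega
    subst h1
    rw [mul_zero]
    change _ = _
    simp [encs, enc]
  | succ j ih =>
    rw [show 18 * (j + 1) = 18 * j + 18 by omega, run_add]
    refine ⟨_, ih (by omega) (decide (∃ v < j, o c v (y.getD v false))) (by simp), ?_⟩
    rw [cross hc y hy j (by omega)]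
    refine ⟨a', rfl, fun h => ha.2 ⟨j, by omega, h⟩, fun h h' => ?_⟩
    obtain ⟨v, hv, h9⟩ := ha.1 h'
    have h10 : v ≠ j := fun h10 => h (h10 ▸ h9)
    simp only [decide_eq_true_eq]
    exact ⟨v, by omega, h9⟩

theorem round_sound {c : ℕ} (hc : c < C) (y : List Bool) (hy : y.length = V) (a : Bool)
    (b'' : List Bool)
    (h : Run (2 * V + 2) (RowE V C o) (1 + c * (18 * V + 2)) (18 * V + 2)
      (encs y ++ enc a) b'') :
    a = true ∧ ∃ a' : Bool, b'' = encs y ++ enc a' ∧
      (a' = true → ∃ v < V, o c v (y.getD v false)) := by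
  have e1 : Run (2 * V + 2) (RowE V C o) (1 + c * (18 * V + 2)) (2 + 18 * V)
      (encs y ++ enc a) b'' := by
    rw [add_comm 2 (18 * V)]
    exact h
  rw [run_add] at e1
  obtain ⟨b', h1, h2⟩ := e1
  rw [run_boundary hc _ _ (by rw [List.length_append, length_encs, hy]; simp [enc])] at h1
  obtain ⟨y', h3, rfl⟩ := h1
  have h4 := List.append_inj' h3 (by simp [enc])
  obtain ⟨rfl, h5⟩ := h4
  have h6 : a = true := by
    cases a
    · simp [enc] at h5
    · rfl
  refine ⟨h6, ?_⟩
  rw [show 1 + c * (18 * V + 2) + 2 = 3 + c * (18 * V + 2) by omega] at h2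
  obtain ⟨a', h7, h8⟩ := sweep_sound hc y hy V le_rfl b'' h2
  refine ⟨a', ?_, h8⟩
  rw [h7, ← hy, List.take_length, List.drop_length, encs_nil, List.append_nil]

theorem round_complete {c : ℕ} (hc : c < C) (y : List Bool) (hy : y.length = V) (a' : Bool)
    (ha : a' = true ↔ ∃ v < V, o c v (y.getD v false)) :
    Run (2 * V + 2) (RowE V C o) (1 + c * (18 * V + 2)) (18 * V + 2)
      (encs y ++ enc true) (encs y ++ enc a') := by
  have e1 : Run (2 * V + 2) (RowE V C o) (1 + c * (18 * V + 2)) (2 + 18 * V)
      (encs y ++ enc true) (encs y ++ enc a') := by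
    rw [run_add]
    refine ⟨[false, true] ++ encs y, ?_, ?_⟩
    · rw [run_boundary hc _ _ (by rw [List.length_append, length_encs, hy]; simp [enc])]
      exact ⟨encs y, rfl, rfl⟩
    · rw [show 1 + c * (18 * V + 2) + 2 = 3 + c * (18 * V + 2) by omega]
      have h1 := sweep_complete hc y hy V le_rfl a' ha
      have h2 : encs (y.take V) ++ enc a' ++ encs (y.drop V) = encs y ++ enc a' := by
        rw [← hy, List.take_length, List.drop_length, encs_nil, List.append_nil]
      rwa [h2] at h1
  rw [add_comm 2 (18 * V)] at e1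
  exact e1

end Pool.Agent.Lib89.NN
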