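import Mathlib
import Pool.Agent.Lib_helper89.NN.SH

/-! Block SE: start and end rows. -/

namespace Pool.Agent.Lib89.NN

private theorem encs_cons (x : Bool) (y : List Bool) : encs (x :: y) = x :: (!x) :: encs y := by
  simp [encs, enc]

private theorem start_aux : ∀ (n : ℕ) (b : List Bool), b.length = 2 * n →
    (Step (fun p q => q = 2 * p ∨ q = 2 * p + 1) (List.replicate n true) b ↔
      ∃ y : List Bool, y.length = n ∧ b = encs y) := by
  intro n
  induction n with
  | zero =>
    intro b hb
    have hb' : b = [] := List.length_eq_zero_iff.1 (by omega)
    subst hb'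
    constructor
    · intro _
      exact ⟨[], rfl, by simp [encs]⟩
    · intro _
      simp [Step, posF]
  | succ n ih =>
    intro b hb
    rcases b with _ | ⟨x, _ | ⟨z, b⟩⟩
    · simp at hb
    · simp only [List.length_cons, List.length_nil] at hb; omega
    · have hb2 : b.length = 2 * n := by
        simp only [List.length_cons] at hb; omega
      have e1 : List.replicate (n + 1) true = [true] ++ List.replicate n true := by
        rw [List.replicate_succ]; rfl
      have e2 : x :: z :: b = [x, z] ++ b := rfl
      rw [e1, e2, step_append _ [true] (List.replicate n true) [x, z] b (by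
        intro p q h
        simp only [List.length_cons, List.length_nil]
        omega)]
      have e4 : (fun p q : ℕ => (fun p q => q = 2 * p ∨ q = 2 * p + 1) ([true].length + p)
          ([x, z].length + q)) = (fun p q : ℕ => q = 2 * p ∨ q = 2 * p + 1) := by
        funext p q
        simp only [List.length_cons, List.length_nil]
        apply propext
        omega
      rw [e4, ih b hb2]
      have e5 : Step (fun p q => q = 2 * p ∨ q = 2 * p + 1) [true] [x, z] ↔ z = !x := by
        cases x <;> cases z <;> simp [Step, posF]
      rw [e5]
      constructor
      · rintro ⟨h1, y, h2, h3⟩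
        refine ⟨x :: y, by simp [h2], ?_⟩
        rw [encs_cons, h1, h3]
        rfl
      · rintro ⟨y, h2, h3⟩
        cases y with
        | nil => simp at h2
        | cons w y =>
          rw [encs_cons] at h3
          simp only [List.cons_append, List.nil_append] at h3
          obtain ⟨h4, h5⟩ := List.cons_eq_cons.1 h3
          obtain ⟨h6, h7⟩ := List.cons_eq_cons.1 h5
          refine ⟨by rw [h6, h4], y, by simpa using h2, h7⟩

private theorem end_aux : ∀ (n : ℕ) (b : List Bool), b.length = 2 * n →
    (Step (fun p q => p = 2 * q ∨ p = 2 * q + 1) b (List.replicate n false) ↔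
      ∃ y : List Bool, y.length = n ∧ b = encs y) := by
  intro n
  induction n with
  | zero =>
    intro b hb
    have hb' : b = [] := List.length_eq_zero_iff.1 (by omega)
    subst hb'
    constructor
    · intro _
      exact ⟨[], rfl, by simp [encs]⟩
    · intro _
      simp [Step, posF]
  | succ n ih =>
    intro b hb
    rcases b with _ | ⟨x, _ | ⟨z, b⟩⟩
    · simp at hb
    · simp only [List.length_cons, List.length_nil] at hb; omega
    · have hb2 : b.length = 2 * n := by
        simp only [List.length_cons] at hb; omega
      have e1 : List.replicate (n + 1) false = [false] ++ List.replicate n false := by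
        rw [List.replicate_succ]; rfl
      have e2 : x :: z :: b = [x, z] ++ b := rfl
      rw [e1, e2, step_append _ [x, z] b [false] (List.replicate n false) (by
        intro p q h
        simp only [List.length_cons, List.length_nil]
        omega)]
      have e4 : (fun p q : ℕ => (fun p q => p = 2 * q ∨ p = 2 * q + 1) ([x, z].length + p)
          ([false].length + q)) = (fun p q : ℕ => p = 2 * q ∨ p = 2 * q + 1) := by
        funext p q
        simp only [List.length_cons, List.length_nil]
        apply propext
        omega
      rw [e4, ih b hb2]
      have e5 : Step (fun p q => p = 2 * q ∨ p = 2 * q + 1) [x, z] [false] ↔ z = !x := by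
        cases x <;> cases z <;> simp [Step, posF]
      rw [e5]
      constructor
      · rintro ⟨h1, y, h2, h3⟩
        refine ⟨x :: y, by simp [h2], ?_⟩
        rw [encs_cons, h1, h3]
        rfl
      · rintro ⟨y, h2, h3⟩
        cases y with
        | nil => simp at h2
        | cons w y =>
          rw [encs_cons] at h3
          simp only [List.cons_append, List.nil_append] at h3
          obtain ⟨h4, h5⟩ := List.cons_eq_cons.1 h3
          obtain ⟨h6, h7⟩ := List.cons_eq_cons.1 h5
          refine ⟨by rw [h6, h4], y, by simpa using h2, h7⟩

theorem step_start (n : ℕ) (E : ℕ → ℕ → Prop) (b : List Bool) (hb : b.length = 2 * n)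
    (hE : ∀ p < n, ∀ q < 2 * n, (E p q ↔ q = 2 * p ∨ q = 2 * p + 1)) :
    Step E (List.replicate n true) b ↔ ∃ y : List Bool, y.length = n ∧ b = encs y := by
  rw [step_congr E (fun p q => q = 2 * p ∨ q = 2 * p + 1) (List.replicate n true) b (by
    intro p hp q hq
    rw [List.length_replicate] at hp
    exact hE p hp q (by omega))]
  exact start_aux n b hb

theorem step_end (n : ℕ) (E : ℕ → ℕ → Prop) (b : List Bool) (hb : b.length = 2 * n)
    (hE : ∀ p < 2 * n, ∀ q < n, (E p q ↔ p = 2 * q ∨ p = 2 * q + 1)) :
    Step E b (List.replicate n false) ↔ ∃ y : List Bool, y.length = n ∧ b = encs y := by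
  rw [step_congr E (fun p q => p = 2 * q ∨ p = 2 * q + 1) b (List.replicate n false) (by
    intro p hp q hq
    rw [List.length_replicate] at hq
    exact hE p (by omega) q hq)]
  exact end_aux n b hb

end Pool.Agent.Lib89.NN
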