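import Mathlib
import Pool.Agent.Lib_helper89.NN.RD
import Pool.Agent.Lib_helper89.NN.SE

/-! Block TO: all rounds. -/

namespace Pool.Agent.Lib89.NN

variable {V C : ℕ} {o : ℕ → ℕ → Bool → Prop}

theorem chain_iff_run :
    (∃ b, Chain V C o b) ↔ ∃ y z : List Bool, y.length = V + 1 ∧ z.length = V + 1 ∧
      Run (2 * V + 2) (RowE V C o) 1 (C * (18 * V + 2)) (encs y) (encs z) := by
  have hK : nK V C = 1 + C * (18 * V + 2) := by unfold nK; omega
  have hw0 : wd V C 0 = V + 1 := by simp [wd]
  have hw1 : wd V C (nK V C + 1) = V + 1 := by simp [wd]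
  have hw : ∀ r, 1 ≤ r → r ≤ nK V C → wd V C r = 2 * V + 2 := by
    intro r h1 h2
    unfold wd
    rw [if_neg]
    omega
  constructor
  · rintro ⟨b, hlen, hb0, hb1, hst⟩
    have hE0 : ∀ p < V + 1, ∀ q < 2 * (V + 1), (RowE V C o 0 p q ↔ q = 2 * p ∨ q = 2 * p + 1) := by
      intro p hp q hq
      rw [rowE_start]
      exact ⟨fun h => h.2, fun h => ⟨hp, h⟩⟩
    have hE1 : ∀ p < 2 * (V + 1), ∀ q < V + 1,
        (RowE V C o (nK V C) p q ↔ p = 2 * q ∨ p = 2 * q + 1) := by
      intro p hp q hq
      rw [rowE_end]
      exact ⟨fun h => h.2, fun h => ⟨hq, h⟩⟩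
    have hl1 : (b 1).length = 2 * (V + 1) := by
      rw [hlen 1 (by omega), hw 1 le_rfl (by omega)]; ring
    have hlK : (b (nK V C)).length = 2 * (V + 1) := by
      rw [hlen (nK V C) (by omega), hw (nK V C) (by omega) le_rfl]; ring
    have h0 := hst 0 (by omega)
    rw [hb0, hw0, zero_add] at h0
    obtain ⟨y, hy, hby⟩ := (step_start (V + 1) _ (b 1) hl1 hE0).1 h0
    have h1 := hst (nK V C) (by omega)
    rw [hb1, hw1] at h1
    obtain ⟨z, hz, hbz⟩ := (step_end (V + 1) _ (b (nK V C)) hlK hE1).1 h1
    refine ⟨y, z, hy, hz, ?_⟩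
    rw [run_iff_seq]
    refine ⟨b, hby, ?_, fun i hi => ⟨?_, ?_⟩⟩
    · rw [← hK]; exact hbz
    · rw [hlen (1 + i + 1) (by omega), hw (1 + i + 1) (by omega) (by omega)]
    · exact hst (1 + i) (by omega)
  · rintro ⟨y, z, hy, hz, hrun⟩
    rw [run_iff_seq] at hrun
    obtain ⟨β, hβ0, hβ1, hβ⟩ := hrun
    have hlβ : ∀ r, 1 ≤ r → r ≤ nK V C → (β r).length = 2 * V + 2 := by
      intro r h1 h2
      rcases Nat.lt_or_ge 1 r with h | h
      · have := (hβ (r - 2) (by omega)).1
        have e : 1 + (r - 2) + 1 = r := by omega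
        rwa [e] at this
      · have e : r = 1 := by omega
        rw [e, hβ0, length_encs, hy]; ring
    refine ⟨fun r => if r = 0 then List.replicate (V + 1) true else
      if r = nK V C + 1 then List.replicate (V + 1) false else β r, ?_, ?_, ?_, ?_⟩
    · intro r hr
      by_cases h0 : r = 0
      · subst h0; simp [hw0]
      · by_cases h1 : r = nK V C + 1
        · subst h1; simp [hw1]
        · simp only [h0, h1, if_false]
          rw [hlβ r (by omega) (by omega), hw r (by omega) (by omega)]
    · simp [hw0]
    · simp [hw1]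
    · intro r hr
      by_cases h0 : r = 0
      · subst h0
        have e1 : ¬ (0 + 1 = 0) := by omega
        have e2 : ¬ (0 + 1 = nK V C + 1) := by omega
        simp only [if_true, e1, e2, if_false]
        rw [zero_add, hβ0]
        refine (step_start (V + 1) _ (encs y) ?_ ?_).2 ⟨y, hy, rfl⟩
        · rw [length_encs, hy]
        · intro p hp q hq
          rw [rowE_start]
          exact ⟨fun h => h.2, fun h => ⟨hp, h⟩⟩
      · by_cases h1 : r = nK V C
        · have e1 : ¬ (r + 1 = 0) := by omega
          have e2 : r + 1 = nK V C + 1 := by omega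
          have e3 : ¬ (r = nK V C + 1) := by omega
          simp only [h0, e1, e2, e3, if_true, if_false]
          have e4 : β r = encs z := by rw [h1, hK]; exact hβ1
          rw [e4, h1]
          refine (step_end (V + 1) _ (encs z) ?_ ?_).2 ⟨z, hz, rfl⟩
          · rw [length_encs, hz]
          · intro p hp q hq
            rw [rowE_end]
            exact ⟨fun h => h.2, fun h => ⟨hq, h⟩⟩
        · have e1 : ¬ (r + 1 = 0) := by omega
          have e2 : ¬ (r + 1 = nK V C + 1) := by omega
          have e3 : ¬ (r = nK V C + 1) := by omega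
          simp only [h0, e1, e2, e3, if_false]
          have := (hβ (r - 1) (by omega)).2
          have e : 1 + (r - 1) = r := by omega
          rwa [e] at this

theorem chain_iff (hC : 1 ≤ C) :
    (∃ b, Chain V C o b) ↔ ∃ y : ℕ → Bool, ∀ c, c + 1 < C → ∃ v < V, o c v (y v) := by
  classical
  rw [chain_iff_run]
  constructor
  · rintro ⟨y, z, hy, hz, hrun⟩
    obtain ⟨y', a, rfl⟩ : ∃ y' a, y = y' ++ [a] := by
      have hne : y ≠ [] := by intro h; rw [h] at hy; simp at hy
      exact ⟨y.dropLast, y.getLast hne, (List.dropLast_append_getLast hne).symm⟩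
    have hy' : y'.length = V := by
      rw [List.length_append] at hy
      simp at hy
      exact hy
    have hencs : encs (y' ++ [a]) = encs y' ++ enc a := by
      rw [encs_append]; simp [encs]
    rw [hencs] at hrun
    have key : ∀ c, c ≤ C → ∀ b'', Run (2 * V + 2) (RowE V C o) 1 (c * (18 * V + 2))
        (encs y' ++ enc a) b'' → ∃ a' : Bool, b'' = encs y' ++ enc a' ∧
        (∀ c', c' + 1 < c → ∃ v < V, o c' v (y'.getD v false)) ∧
        (a' = true → 1 ≤ c → ∃ v < V, o (c - 1) v (y'.getD v false)) := by
      intro c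
      induction c with
      | zero =>
        intro _ b'' h
        rw [Nat.zero_mul] at h
        exact ⟨a, h, fun c' hc' => absurd hc' (by omega), fun _ h1 => absurd h1 (by omega)⟩
      | succ c ih =>
        intro hc b'' h
        have e : (c + 1) * (18 * V + 2) = c * (18 * V + 2) + (18 * V + 2) := by ring
        rw [e, run_add] at h
        obtain ⟨b', h1, h2⟩ := h
        obtain ⟨a', hb', hcl, hacc⟩ := ih (by omega) b' h1
        rw [hb'] at h2
        obtain ⟨ha', a'', hb'', hcl2⟩ := round_sound (by omega : c < C) y' hy' a' b'' h2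
        refine ⟨a'', hb'', ?_, fun h3 _ => ?_⟩
        · intro c' hc'
          rcases Nat.lt_or_ge (c' + 1) c with h3 | h3
          · exact hcl c' h3
          · have e2 : c' = c - 1 := by omega
            rw [e2]
            exact hacc ha' (by omega)
        · have e3 : c + 1 - 1 = c := by omega
          rw [e3]
          exact hcl2 h3
    obtain ⟨a', _, hcl, _⟩ := key C le_rfl _ hrun
    exact ⟨fun v => y'.getD v false, hcl⟩
  · rintro ⟨y, hy⟩
    set y' : List Bool := (List.range V).map y with hy'
    have hlen : y'.length = V := by rw [hy', List.length_map, List.length_range]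
    have hget : ∀ v < V, y'.getD v false = y v := by
      intro v hv
      rw [List.getD_eq_getElem?_getD, hy']
      simp [hv]
    have key : ∀ c, c ≤ C → ∃ a' : Bool, Run (2 * V + 2) (RowE V C o) 1 (c * (18 * V + 2))
        (encs y' ++ enc true) (encs y' ++ enc a') ∧ (c < C → a' = true) := by
      intro c
      induction c with
      | zero =>
        intro _
        refine ⟨true, ?_, fun _ => rfl⟩
        rw [Nat.zero_mul]
        exact rfl
      | succ c ih =>
        intro hc
        obtain ⟨a', hrun, ha'⟩ := ih (by omega)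
        rw [ha' (by omega)] at hrun
        refine ⟨decide (∃ v < V, o c v (y'.getD v false)), ?_, fun hc' => ?_⟩
        · have e : (c + 1) * (18 * V + 2) = c * (18 * V + 2) + (18 * V + 2) := by ring
          rw [e, run_add]
          refine ⟨_, hrun, ?_⟩
          exact round_complete (by omega : c < C) y' hlen _ (by simp)
        · rw [decide_eq_true_eq]
          obtain ⟨v, hv, ho⟩ := hy c hc'
          exact ⟨v, hv, by rw [hget v hv]; exact ho⟩
    obtain ⟨a', hrun, _⟩ := key C le_rfl
    have hencs : ∀ a : Bool, encs (y' ++ [a]) = encs y' ++ enc a := by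
      intro a
      rw [encs_append]; simp [encs]
    refine ⟨y' ++ [true], y' ++ [a'], ?_, ?_, ?_⟩
    · rw [List.length_append, hlen]; rfl
    · rw [List.length_append, hlen]; rfl
    · rw [hencs, hencs]
      exact hrun

end Pool.Agent.Lib89.NN
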