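import Mathlib
import Pool.Agent.Lib_helper89.NN.TO
import Pool.Agent.Lib_helper89.NN.SF
import Pool.Agent.Lib_helper89.NN.SB

/-!
Block GR: the graph.
-/

namespace Pool.Agent.Lib89.NN

variable {V C : ℕ} {o : ℕ → ℕ → Bool → Prop}

/-- first vertex of a row, and the number of vertices at the end -/
private def gf (V C r : ℕ) : ℕ := if r ≤ nK V C + 1 then off V r else nV V C

private theorem gf_of_le {r : ℕ} (h : r ≤ nK V C + 1) : gf V C r = off V r := by
  rw [gf, if_pos h]

private theorem one_le_nK : 1 ≤ nK V C := by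
  unfold nK
  omega

private theorem off_succ {r : ℕ} (h : r < nK V C + 1) : off V (r + 1) = off V r + wd V C r := by
  unfold off wd
  rcases Nat.eq_zero_or_pos r with rfl | h0
  · simp
    omega
  · have h1 : ¬ (r = 0 ∨ r = nK V C + 1) := by omega
    rw [if_neg h1]
    obtain ⟨s, rfl⟩ : ∃ s, r = s + 1 := ⟨r - 1, by omega⟩
    have e1 : (s + 1 + 1) * (2 * V + 2) = s * (2 * V + 2) + 2 * (2 * V + 2) := by ring
    have e2 : (s + 1) * (2 * V + 2) = s * (2 * V + 2) + (2 * V + 2) := by ring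
    rw [e1, e2]
    generalize s * (2 * V + 2) = t
    omega

private theorem gf_succ {r : ℕ} (h : r ≤ nK V C + 1) : gf V C (r + 1) = gf V C r + wd V C r := by
  rcases h.lt_or_eq with h1 | rfl
  · rw [gf_of_le h, gf_of_le h1, off_succ h1]
  · rw [gf_of_le le_rfl, gf, if_neg (by omega)]
    unfold nV off wd
    rw [if_pos (Or.inr rfl)]
    have e2 : (nK V C + 1) * (2 * V + 2) = nK V C * (2 * V + 2) + (2 * V + 2) := by ring
    rw [e2]
    generalize nK V C * (2 * V + 2) = t
    omega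

private theorem wd_mid {r : ℕ} (h0 : 1 ≤ r) (h : r ≤ nK V C) : wd V C r = 2 * V + 2 := by
  unfold wd
  rw [if_neg (by omega)]

private theorem wd_le (r : ℕ) : wd V C r ≤ 2 * V + 2 := by
  unfold wd
  split_ifs <;> omega

private theorem row_lt {c : ℕ} (hc : c < C) : c * (18 * V + 2) + (18 * V + 2) + 1 ≤ nK V C := by
  unfold nK
  have h : (c + 1) * (18 * V + 2) ≤ C * (18 * V + 2) := Nat.mul_le_mul_right _ hc
  have e : (c + 1) * (18 * V + 2) = c * (18 * V + 2) + (18 * V + 2) := by ring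
  omega

private theorem rowE_lt (r : ℕ) (hr : r < nK V C + 1) (p q : ℕ) (h : RowE V C o r p q) :
    p < wd V C r ∧ q < wd V C (r + 1) := by
  rcases h with ⟨rfl, hp, hq⟩ | ⟨rfl, hq, hp⟩ | ⟨c, hc, h⟩
  · have h1 : wd V C 0 = V + 1 := by simp [wd]
    rw [h1, wd_mid (by omega) one_le_nK]
    omega
  · have h1 : wd V C (nK V C + 1) = V + 1 := by simp [wd]
    rw [h1, wd_mid one_le_nK le_rfl]
    omega
  · have hn := row_lt (V := V) hc
    rcases h with ⟨rfl, hp, hq⟩ | ⟨rfl, h⟩ | ⟨v, hv, k, hk, h⟩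
    · rw [wd_mid (by omega) (by omega), wd_mid (by omega) (by omega)]
      omega
    · rw [wd_mid (by omega) (by omega), wd_mid (by omega) (by omega)]
      omega
    · rcases h with ⟨rfl, h⟩ | ⟨h', hp, hq⟩
      · rw [wd_mid (by omega) (by omega), wd_mid (by omega) (by omega)]
        rcases h with ⟨h1, h2, -⟩ | ⟨a, ha, b, hb, h1, h2, -⟩
        · omega
        · omega
      · rw [wd_mid (by omega) (by omega), wd_mid (by omega) (by omega)]
        omega

private theorem adj_iff (u v : Fin (nV V C)) (huv : u < v) :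
    (theGraph V C o).Adj u v ↔ ∃ r < nK V C + 1, ∃ p q, (u : ℕ) = gf V C r + p ∧
      (v : ℕ) = gf V C (r + 1) + q ∧ RowE V C o r p q := by
  constructor
  · rintro ⟨-, h⟩
    rcases h with ⟨r, hr, p, hp, q, hq, h1, h2, h3⟩ | ⟨r, hr, p, hp, q, hq, h1, h2, h3⟩
    · exact ⟨r, hr, p, q, by rw [gf_of_le hr.le, h1], by rw [gf_of_le hr, h2], h3⟩
    · exfalso
      have h4 := (rowE_lt r hr p q h3).1
      have h5 := off_succ hr
      have h6 : (u : ℕ) < v := huv
      omega
  · rintro ⟨r, hr, p, q, h1, h2, h3⟩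
    have h4 := rowE_lt r hr p q h3
    refine ⟨huv.ne, Or.inl ⟨r, hr, p, h4.1.trans_le (wd_le r), q, h4.2.trans_le (wd_le _), ?_, ?_,
      h3⟩⟩
    · rw [h1, gf_of_le hr.le]
    · rw [h2, gf_of_le hr]

theorem graph_iff (hC : 1 ≤ C) :
    (∃ M, IsPNM (theGraph V C o) M) ↔ ∃ y : ℕ → Bool, ∀ c, c + 1 < C → ∃ v < V, o c v (y v) := by
  rw [← chain_iff hC]
  constructor
  · rintro ⟨M, hM⟩
    obtain ⟨b, h1, h2, h3, h4⟩ := sem_forward (R := nK V C + 1) (theGraph V C o) (wd V C)
      (gf V C) (RowE V C o) (by rw [gf_of_le (by omega)]; simp [off]) (fun r hr => gf_succ hr)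
      (by rw [gf, if_neg (by omega)]) (fun r hr p q h => rowE_lt r hr p q h)
      (fun u v huv => adj_iff u v huv) M hM
    exact ⟨b, h1, h2, h3, h4⟩
  · rintro ⟨b, h1, h2, h3, h4⟩
    exact sem_backward (R := nK V C + 1) (theGraph V C o) (wd V C)
      (gf V C) (RowE V C o) (by rw [gf_of_le (by omega)]; simp [off]) (fun r hr => gf_succ hr)
      (by rw [gf, if_neg (by omega)]) (fun r hr p q h => rowE_lt r hr p q h)
      (fun u v huv => adj_iff u v huv) b h1 h2 h3 h4

end Pool.Agent.Lib89.NN
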