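import Mathlib
import Pool.Agent.Lib_helper89.NN.Defs

/-!
MP_8c0258_lc, block TI: 2-intervals of a graph.
-/

namespace Pool.Agent.Lib89.NN

private theorem castlt {m : ℕ} {i j : Fin m} : (((i : ℕ) : ℝ) < ((j : ℕ) : ℝ)) ↔ i < j := by
  rw [Nat.cast_lt]
  exact Fin.lt_def.symm

private theorem casteq {m : ℕ} {i j : Fin m} : (((i : ℕ) : ℝ) = ((j : ℕ) : ℝ)) ↔ i = j := by
  rw [Nat.cast_inj]
  exact Fin.ext_iff.symm

/-- the 2-interval of an edge -/
private noncomputable def mk {m : ℕ} (e : Fin m × Fin m) (h : e.1 < e.2) : TwoInterval where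
  a := ((e.1 : ℕ) : ℝ)
  b := ((e.1 : ℕ) : ℝ)
  c := ((e.2 : ℕ) : ℝ)
  d := ((e.2 : ℕ) : ℝ)
  hab := le_rfl
  hbc := castlt.2 h
  hcd := le_rfl

private theorem mem_ofGraph {m : ℕ} (G : SimpleGraph (Fin m)) (D : TwoInterval) :
    D ∈ ofGraph G ↔ ∃ (e : Fin m × Fin m) (h : e.1 < e.2), G.Adj e.1 e.2 ∧ D = mk e h := by
  constructor
  · rintro ⟨i, j, hij, hG, h1, h2, h3, h4⟩
    refine ⟨(i, j), hij, hG, ?_⟩
    apply TwoInterval.ext
    · exact h1
    · exact h2
    · exact h3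
    · exact h4
  · rintro ⟨e, h, hG, rfl⟩
    exact ⟨e.1, e.2, h, hG, rfl, rfl, rfl, rfl⟩

private theorem mk_left {m : ℕ} (e : Fin m × Fin m) (h : e.1 < e.2) :
    (mk e h).left = {((e.1 : ℕ) : ℝ)} := Set.Icc_self _

private theorem mk_right {m : ℕ} (e : Fin m × Fin m) (h : e.1 < e.2) :
    (mk e h).right = {((e.2 : ℕ) : ℝ)} := Set.Icc_self _

private theorem mk_inj {m : ℕ} {e f : Fin m × Fin m} {h : e.1 < e.2} {h' : f.1 < f.2}
    (hef : mk e h = mk f h') : e = f := by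
  have h1 : (mk e h).a = (mk f h').a := by rw [hef]
  have h2 : (mk e h).c = (mk f h').c := by rw [hef]
  exact Prod.ext (casteq.1 h1) (casteq.1 h2)

private theorem before_sing (x y : ℝ) : Before {x} {y} ↔ x < y := by
  constructor
  · intro h
    exact h x rfl y rfl
  · rintro h _ rfl _ rfl
    exact h

private theorem mem_ground {m : ℕ} (G : SimpleGraph (Fin m)) (I : Set ℝ)
    (hI : I ∈ groundSet (ofGraph G)) : ∃ v : Fin m, I = {((v : ℕ) : ℝ)} := by
  obtain ⟨D, hD, h⟩ := hI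
  obtain ⟨e, he, -, rfl⟩ := (mem_ofGraph G D).1 hD
  rcases h with h | h
  · exact ⟨e.1, h.trans (mk_left e he)⟩
  · exact ⟨e.2, h.trans (mk_right e he)⟩

theorem ofGraph_disjointGround {m : ℕ} (G : SimpleGraph (Fin m)) :
    DisjointGround (ofGraph G) := by
  intro I hI J hJ hne
  obtain ⟨v, rfl⟩ := mem_ground G I hI
  obtain ⟨u, rfl⟩ := mem_ground G J hJ
  rw [Set.disjoint_singleton]
  intro h
  exact hne (by rw [h])

theorem ofGraph_ground_ncard {m : ℕ} (G : SimpleGraph (Fin m)) (h : ∀ v, ∃ u, G.Adj v u) :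
    (groundSet (ofGraph G)).ncard = m := by
  have e : groundSet (ofGraph G) = (fun v : Fin m => ({((v : ℕ) : ℝ)} : Set ℝ)) '' Set.univ := by
    ext I
    constructor
    · intro hI
      obtain ⟨v, hv⟩ := mem_ground G I hI
      exact ⟨v, Set.mem_univ _, hv.symm⟩
    · rintro ⟨v, -, rfl⟩
      obtain ⟨u, hu⟩ := h v
      rcases lt_trichotomy v u with h1 | h1 | h1
      · exact ⟨mk (v, u) h1, (mem_ofGraph G _).2 ⟨(v, u), h1, hu, rfl⟩,
          Or.inl (mk_left (v, u) h1).symm⟩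
      · exact absurd h1 (G.ne_of_adj hu)
      · exact ⟨mk (u, v) h1, (mem_ofGraph G _).2 ⟨(u, v), h1, hu.symm, rfl⟩,
          Or.inr (mk_right (u, v) h1).symm⟩
  rw [e, Set.ncard_image_of_injective _ (fun a b hab => casteq.1 (Set.singleton_injective hab)),
    Set.ncard_univ, Nat.card_eq_fintype_card, Fintype.card_fin]

theorem ofGraph_ground_deg {m d : ℕ} (G : SimpleGraph (Fin m))
    (h : ∀ v, {u | G.Adj v u}.ncard ≤ d) :
    ∀ I ∈ groundSet (ofGraph G), {D ∈ ofGraph G | I = D.left ∨ I = D.right}.ncard ≤ d := by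
  classical
  intro I hI
  obtain ⟨v, rfl⟩ := mem_ground G I hI
  let J : TwoInterval := ⟨0, 0, 1, 1, le_rfl, zero_lt_one, le_rfl⟩
  let F : Fin m → TwoInterval := fun u =>
    if h1 : v < u then mk (v, u) h1 else if h2 : u < v then mk (u, v) h2 else J
  have hsub : {D ∈ ofGraph G | ({((v : ℕ) : ℝ)} : Set ℝ) = D.left ∨
      ({((v : ℕ) : ℝ)} : Set ℝ) = D.right} ⊆ F '' {u | G.Adj v u} := by
    rintro D ⟨hD, hor⟩
    obtain ⟨e, he, hG, rfl⟩ := (mem_ofGraph G D).1 hD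
    rcases hor with h1 | h1
    · rw [mk_left] at h1
      have h2 : v = e.1 := casteq.1 (Set.singleton_injective h1)
      subst h2
      refine ⟨e.2, hG, ?_⟩
      exact dif_pos he
    · rw [mk_right] at h1
      have h2 : v = e.2 := casteq.1 (Set.singleton_injective h1)
      subst h2
      refine ⟨e.1, hG.symm, ?_⟩
      have h3 : ¬ e.2 < e.1 := not_lt.2 he.le
      exact (dif_neg h3).trans (dif_pos he)
  have hfin : ({u | G.Adj v u} : Set (Fin m)).Finite := Set.toFinite _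
  exact (Set.ncard_le_ncard hsub (hfin.image F)).trans ((Set.ncard_image_le hfin).trans (h v))

private theorem cov_iff {m : ℕ} {M : Set (Fin m × Fin m)} (h1 : ∀ e ∈ M, e.1 < e.2)
    (h2 : ∀ e ∈ M, ∀ f ∈ M, e ≠ f → e.1 ≠ f.1 ∧ e.1 ≠ f.2 ∧ e.2 ≠ f.1 ∧ e.2 ≠ f.2) :
    2 * M.ncard = m ↔ ∀ v, ∃ e, e ∈ M ∧ (e.1 = v ∨ e.2 = v) := by
  let φ : M × Bool → Fin m := fun p => bif p.2 then p.1.1.1 else p.1.1.2
  have hinj : Function.Injective φ := by
    rintro ⟨⟨e, he⟩, b⟩ ⟨⟨f, hf⟩, b'⟩ hef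
    by_cases hne : e = f
    · subst hne
      have h3 := h1 e he
      cases b <;> cases b'
      · rfl
      · exact absurd hef h3.ne'
      · exact absurd hef h3.ne
      · rfl
    · obtain ⟨h3, h4, h5, h6⟩ := h2 e he f hf hne
      cases b <;> cases b'
      · exact absurd hef h6
      · exact absurd hef h5
      · exact absurd hef h4
      · exact absurd hef h3
  have hcard : Nat.card (M × Bool) = 2 * M.ncard := by
    rw [Nat.card_prod, Nat.card_coe_set_eq, Nat.card_eq_fintype_card (α := Bool),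
      Fintype.card_bool, mul_comm]
  have hm : Nat.card (Fin m) = m := by rw [Nat.card_eq_fintype_card, Fintype.card_fin]
  constructor
  · intro h v
    have hb := hinj.bijective_of_nat_card_le (by rw [hcard, hm, h])
    obtain ⟨⟨⟨e, he⟩, b⟩, hv⟩ := hb.2 v
    cases b
    · exact ⟨e, he, Or.inr hv⟩
    · exact ⟨e, he, Or.inl hv⟩
  · intro h
    have hsurj : Function.Surjective φ := by
      intro v
      obtain ⟨e, he, hv | hv⟩ := h v
      · exact ⟨(⟨e, he⟩, true), hv⟩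
      · exact ⟨(⟨e, he⟩, false), hv⟩
    rw [← hcard, Nat.card_eq_of_bijective φ ⟨hinj, hsurj⟩, hm]

private theorem apart_mk {m : ℕ} {e f : Fin m × Fin m} {h : e.1 < e.2} {h' : f.1 < f.2} :
    Apart (mk e h) (mk f h') ↔ e.1 ≠ f.1 ∧ e.1 ≠ f.2 ∧ e.2 ≠ f.1 ∧ e.2 ≠ f.2 := by
  unfold Apart
  rw [mk_left, mk_left, mk_right, mk_right, Set.disjoint_left]
  constructor
  · intro H
    refine ⟨fun h5 => H (Or.inl rfl) (Or.inl ?_), fun h5 => H (Or.inl rfl) (Or.inr ?_),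
      fun h5 => H (Or.inr rfl) (Or.inl ?_), fun h5 => H (Or.inr rfl) (Or.inr ?_)⟩
    all_goals exact casteq.2 h5
  · rintro ⟨h1, h2, h3, h4⟩ x (hx | hx) (hy | hy)
    · exact h1 (casteq.1 (hx.symm.trans hy))
    · exact h2 (casteq.1 (hx.symm.trans hy))
    · exact h3 (casteq.1 (hx.symm.trans hy))
    · exact h4 (casteq.1 (hx.symm.trans hy))

private theorem prec_mk {m : ℕ} {e f : Fin m × Fin m} {h : e.1 < e.2} {h' : f.1 < f.2} :
    Precedes (mk e h) (mk f h') ↔ e.2 < f.1 := by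
  unfold Precedes
  rw [mk_left, mk_left, mk_right, mk_right, before_sing, before_sing, before_sing, castlt,
    castlt, castlt]
  exact ⟨fun H => H.2.1, fun H => ⟨h, H, h'⟩⟩

private theorem cross_mk {m : ℕ} {e f : Fin m × Fin m} {h : e.1 < e.2} {h' : f.1 < f.2} :
    Crosses (mk e h) (mk f h') ↔ e.1 < f.1 ∧ f.1 < e.2 ∧ e.2 < f.2 := by
  unfold Crosses
  rw [mk_left, mk_left, mk_right, mk_right, before_sing, before_sing, before_sing, castlt,
    castlt, castlt]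

theorem comparable_iff {m : ℕ} (G : SimpleGraph (Fin m)) :
    (∃ S ⊆ ofGraph G, Comparable S ∧ 2 * S.ncard = m) ↔ ∃ M, IsPNM G M := by
  constructor
  · rintro ⟨S, hS, hC, hm⟩
    let M : Set (Fin m × Fin m) := {e | ∃ h : e.1 < e.2, mk e h ∈ S}
    have h1 : ∀ e ∈ M, e.1 < e.2 := fun e he => he.1
    have hG : ∀ e ∈ M, G.Adj e.1 e.2 := by
      rintro e ⟨h, he⟩
      obtain ⟨f, hf, hadj, hef⟩ := (mem_ofGraph G _).1 (hS he)
      rw [mk_inj hef]
      exact hadj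
    have hne : ∀ {e f : Fin m × Fin m} (he : e.1 < e.2) (hf : f.1 < f.2), e ≠ f →
        mk e he ≠ mk f hf := fun he hf hef h => hef (mk_inj h)
    have h2 : ∀ e ∈ M, ∀ f ∈ M, e ≠ f → e.1 ≠ f.1 ∧ e.1 ≠ f.2 ∧ e.2 ≠ f.1 ∧ e.2 ≠ f.2 := by
      rintro e ⟨he, heS⟩ f ⟨hf, hfS⟩ hef
      exact apart_mk.1 (hC _ heS _ hfS (hne he hf hef)).1
    have hcard : M.ncard = S.ncard := by
      refine Set.ncard_congr (fun e he => mk e he.1) ?_ ?_ ?_
      · rintro e ⟨he, heS⟩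
        exact heS
      · rintro e f he hf hef
        exact mk_inj hef
      · intro D hD
        obtain ⟨e, he, -, rfl⟩ := (mem_ofGraph G D).1 (hS hD)
        exact ⟨e, ⟨he, hD⟩, rfl⟩
    have hcov := (cov_iff h1 h2).1 (by rw [hcard, hm])
    refine ⟨M, fun e he => ⟨h1 e he, hG e he⟩, ?_, ?_⟩
    · intro v
      obtain ⟨e, he, hv⟩ := hcov v
      refine ⟨e, ⟨he, hv⟩, ?_⟩
      rintro f ⟨hf, hv'⟩
      by_contra hfe
      obtain ⟨h3, h4, h5, h6⟩ := h2 f hf e he hfe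
      rcases hv with hv | hv <;> rcases hv' with hv' | hv'
      · exact h3 (hv'.trans hv.symm)
      · exact h5 (hv'.trans hv.symm)
      · exact h4 (hv'.trans hv.symm)
      · exact h6 (hv'.trans hv.symm)
    · rintro e ⟨he, heS⟩ f ⟨hf, hfS⟩ hlt
      have hef : e ≠ f := by
        rintro rfl
        exact lt_irrefl _ hlt
      rcases (hC _ heS _ hfS (hne he hf hef)).2 with h3 | h3 | h3 | h3
      · exact (prec_mk.1 h3).trans hf
      · exact absurd ((hf.trans (prec_mk.1 h3)).trans hlt) (lt_irrefl _)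
      · exact (cross_mk.1 h3).2.2
      · exact absurd ((cross_mk.1 h3).1.trans hlt) (lt_irrefl _)
  · rintro ⟨M, hM⟩
    let S : Set TwoInterval := {D | ∃ e ∈ M, ∃ h : e.1 < e.2, D = mk e h}
    have h1 : ∀ e ∈ M, e.1 < e.2 := fun e he => (hM.edge e he).1
    have h2 : ∀ e ∈ M, ∀ f ∈ M, e ≠ f → e.1 ≠ f.1 ∧ e.1 ≠ f.2 ∧ e.2 ≠ f.1 ∧ e.2 ≠ f.2 := by
      intro e he f hf hef
      refine ⟨fun h => ?_, fun h => ?_, fun h => ?_, fun h => ?_⟩
      · exact hef ((hM.cover e.1).unique ⟨he, Or.inl rfl⟩ ⟨hf, Or.inl h.symm⟩)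
      · exact hef ((hM.cover e.1).unique ⟨he, Or.inl rfl⟩ ⟨hf, Or.inr h.symm⟩)
      · exact hef ((hM.cover e.2).unique ⟨he, Or.inr rfl⟩ ⟨hf, Or.inl h.symm⟩)
      · exact hef ((hM.cover e.2).unique ⟨he, Or.inr rfl⟩ ⟨hf, Or.inr h.symm⟩)
    have hcard : M.ncard = S.ncard := by
      refine Set.ncard_congr (fun e he => mk e (h1 e he)) ?_ ?_ ?_
      · intro e he
        exact ⟨e, he, h1 e he, rfl⟩
      · intro e f he hf hef
        exact mk_inj hef
      · rintro D ⟨e, he, h, rfl⟩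
        exact ⟨e, he, rfl⟩
    have hcov := (cov_iff h1 h2).2 (fun v => (hM.cover v).exists)
    refine ⟨S, ?_, ?_, by rw [← hcard, hcov]⟩
    · rintro D ⟨e, he, h, rfl⟩
      exact (mem_ofGraph G _).2 ⟨e, h, (hM.edge e he).2, rfl⟩
    · rintro D ⟨e, he, h, rfl⟩ D' ⟨f, hf, h', rfl⟩ hne
      have hef : e ≠ f := by
        rintro rfl
        exact hne rfl
      have h5 := h2 e he f hf hef
      refine ⟨apart_mk.2 h5, ?_⟩
      rcases lt_trichotomy e.1 f.1 with h6 | h6 | h6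
      · have h7 := hM.mono e he f hf h6
        rcases lt_trichotomy e.2 f.1 with h8 | h8 | h8
        · exact Or.inl (prec_mk.2 h8)
        · exact absurd h8 h5.2.2.1
        · exact Or.inr (Or.inr (Or.inl (cross_mk.2 ⟨h6, h8, h7⟩)))
      · exact absurd h6 h5.1
      · have h7 := hM.mono f hf e he h6
        rcases lt_trichotomy f.2 e.1 with h8 | h8 | h8
        · exact Or.inr (Or.inl (prec_mk.2 h8))
        · exact absurd h8.symm h5.2.1
        · exact Or.inr (Or.inr (Or.inr (cross_mk.2 ⟨h6, h8, h7⟩)))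

end Pool.Agent.Lib89.NN
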