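import Mathlib
import Pool.Agent.Lib_helper89.NN.GR
import Pool.Agent.Lib_helper89.NN.DG
import Pool.Agent.Lib_helper89.NN.TI
import Pool.Agent.Lib_helper89.NN.FO
import Pool.Agent.Lib_helper36.PolyComp
import Pool.Agent.Lib_helper89.NN.Alg

/-! NP-hardness of the {<, crossing} pattern problem on disjoint ground sets. -/

namespace Pool.Agent.Lib89.NN

open Pool.Agent.Lib57

/-- the graph of the formula of `x` -/
def XG (D : DCNF) (x : List Bool) : SimpleGraph (Fin (nV (DPhi D x + 1) (DGam D x + 1))) :=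
  theGraph (DPhi D x + 1) (DGam D x + 1) (occ D x)

def XA (D : DCNF) (x : List Bool) (u v : ℕ) : Prop :=
  u ≠ v ∧ (DAdj (DPhi D x + 1) (DGam D x + 1) (occ D x) u v ∨
    DAdj (DPhi D x + 1) (DGam D x + 1) (occ D x) v u)

variable {D : DCNF}

theorem XG_adj (x : List Bool) (u v : Fin (nV (DPhi D x + 1) (DGam D x + 1))) :
    (XG D x).Adj u v ↔ XA D x u v := by
  unfold XA
  show (u ≠ v ∧ _) ↔ _
  rw [Ne, Fin.ext_iff]

theorem form_XA (hD : D.Good 5) : IsForm 2 (fun x e => XA D x (e 0) (e 1)) :=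
  (IsForm.eq (IsTerm.var (by norm_num)) (IsTerm.var (by norm_num))).not.and
    ((form_DAdj hD).or ((form_DAdj hD).rename (fun i => 1 - i) (fun i hi => by omega)))

theorem emit_XG (hD : D.Good 5) (b c : List Bool) :
    IsEmit 0 (fun x _ => (encodeGraph (XG D x)).flatMap fun s => b ++ ([s] ++ c)) := by
  have h1 : IsEmit 2 (fun x e => b ++ ([dec (XA D x (e 0) (e 1))] ++ c)) :=
    (IsEmit.word b).append ((IsEmit.dec (form_XA hD)).append (IsEmit.word c))
  have h2 := IsEmit.for (term_nV hD 0) (IsEmit.for (term_nV hD 1) h1)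
  refine h2.congr fun x e => ?_
  rw [encodeGraph_eq (XG D x) (XA D x) (XG_adj x)]
  simp [List.flatMap_assoc]

theorem XG_perfect (hD : D.Good 5) (x : List Bool) :
    (∃ M, IsPNM (XG D x) M) ↔ D.Sat x := by
  rw [sat_iff hD, XG, graph_iff (by omega)]
  simp only [Nat.add_lt_add_iff_right]

theorem ofGraph_finite {m : ℕ} (G : SimpleGraph (Fin m)) : (ofGraph G).Finite := by
  have h : ofGraph G ⊆ Set.range (fun p : {p : Fin m × Fin m // p.1 < p.2} =>
      (⟨(p.1.1 : ℕ), (p.1.1 : ℕ), (p.1.2 : ℕ), (p.1.2 : ℕ), le_rfl, by exact_mod_cast p.2,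
        le_rfl⟩ : TwoInterval)) := by
    rintro D ⟨i, j, hij, _, h1, h2, h3, h4⟩
    exact ⟨⟨(i, j), hij⟩, TwoInterval.ext h1.symm h2.symm h3.symm h4.symm⟩
  exact (Set.finite_range _).subset h

theorem exists_ends {m : ℕ} (G : SimpleGraph (Fin m)) (S : Set TwoInterval)
    (hS : S ⊆ ofGraph G) (hc : Comparable S) :
    ∃ F : S × Bool → Fin m, Function.Injective F ∧ ∀ q, ∃ u, G.Adj (F q) u := by
  have hlt : ∀ D ∈ S, ∃ p : Fin m × Fin m, p.1 < p.2 ∧ G.Adj p.1 p.2 ∧ D.a = (p.1 : ℕ) ∧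
      D.b = (p.1 : ℕ) ∧ D.c = (p.2 : ℕ) ∧ D.d = (p.2 : ℕ) := by
    intro D hD
    obtain ⟨i, j, hij, h0, h1, h2, h3, h4⟩ := hS hD
    exact ⟨(i, j), hij, h0, h1, h2, h3, h4⟩
  choose g hg using hlt
  let F : S × Bool → Fin m := fun q => if q.2 then (g q.1.1 q.1.2).1 else (g q.1.1 q.1.2).2
  refine ⟨F, ?_, ?_⟩
  · rintro ⟨⟨D, hD⟩, s⟩ ⟨⟨D', hD'⟩, s'⟩ h
    obtain ⟨g1, g0, g2, g3, g4, g5⟩ := hg D hD
    obtain ⟨k1, k0, k2, k3, k4, k5⟩ := hg D' hD'
    by_cases hDD : D = D'
    · subst hDD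
      cases s <;> cases s' <;> simp only [F] at h
      · rfl
      · simp at h; rw [h] at g1; exact absurd g1 (lt_irrefl _)
      · simp at h; rw [h] at g1; exact absurd g1 (lt_irrefl _)
      · rfl
    · exfalso
      have hA := (hc D hD D' hD' hDD).1
      have hm : (((F (⟨D, hD⟩, s)) : ℕ) : ℝ) ∈ D.left ∪ D.right := by
        cases s
        · right
          simp only [F, TwoInterval.right, g4, g5]
          simp
        · left
          simp only [F, TwoInterval.left, g2, g3]
          simp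
      have hm' : (((F (⟨D', hD'⟩, s')) : ℕ) : ℝ) ∈ D'.left ∪ D'.right := by
        cases s'
        · right
          simp only [F, TwoInterval.right, k4, k5]
          simp
        · left
          simp only [F, TwoInterval.left, k2, k3]
          simp
      rw [h] at hm
      exact Set.disjoint_left.1 hA hm hm'
  · rintro ⟨⟨D, hD⟩, s⟩
    obtain ⟨g1, g0, g2, g3, g4, g5⟩ := hg D hD
    cases s
    · exact ⟨_, g0.symm⟩
    · exact ⟨_, g0⟩

theorem comparable_card_le {m : ℕ} (G : SimpleGraph (Fin m)) (S : Set TwoInterval)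
    (hS : S ⊆ ofGraph G) (hc : Comparable S) : 2 * S.ncard ≤ m := by
  classical
  have hf : S.Finite := (ofGraph_finite G).subset hS
  obtain ⟨F, hF, _⟩ := exists_ends G S hS hc
  have hfin := hf.fintype
  have h1 := Fintype.card_le_of_injective F hF
  rw [Fintype.card_prod, Fintype.card_bool, Fintype.card_fin] at h1
  have h2 : S.ncard = Fintype.card S := by
    rw [← Nat.card_coe_set_eq, Nat.card_eq_fintype_card]
  omega

/-- a comparable set of 2-intervals is perfect iff every ground interval is used -/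
theorem perfect_iff_cover {m : ℕ} (H : SimpleGraph (Fin m)) (hc : Comparable (ofGraph H)) :
    2 * (ofGraph H).ncard = m ↔ ∀ v, ∃ u, H.Adj v u := by
  classical
  have hf := ofGraph_finite H
  obtain ⟨F, hF, hF'⟩ := exists_ends H (ofGraph H) le_rfl hc
  have hfin := hf.fintype
  have h2 : (ofGraph H).ncard = Fintype.card (ofGraph H) := by
    rw [← Nat.card_coe_set_eq, Nat.card_eq_fintype_card]
  have h3 : Fintype.card (ofGraph H × Bool) = 2 * (ofGraph H).ncard := by
    rw [Fintype.card_prod, Fintype.card_bool, h2, Nat.mul_comm]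
  constructor
  · intro h v
    have hb : Function.Bijective F :=
      (Fintype.bijective_iff_injective_and_card F).2 ⟨hF, by rw [h3, h, Fintype.card_fin]⟩
    obtain ⟨q, rfl⟩ := hb.2 v
    exact hF' q
  · intro h
    choose u hu using h
    have hne : ∀ v, v ≠ u v := fun v => (hu v).ne
    let K : Fin m → ofGraph H × Bool := fun v =>
      if hv : v < u v then
        (⟨⟨(v : ℕ), (v : ℕ), (u v : ℕ), (u v : ℕ), le_rfl, by exact_mod_cast hv, le_rfl⟩,
          ⟨v, u v, hv, hu v, rfl, rfl, rfl, rfl⟩⟩, true)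
      else
        (⟨⟨(u v : ℕ), (u v : ℕ), (v : ℕ), (v : ℕ), le_rfl,
          by exact_mod_cast lt_of_le_of_ne (not_lt.1 hv) (hne v).symm, le_rfl⟩,
          ⟨u v, v, lt_of_le_of_ne (not_lt.1 hv) (hne v).symm, (hu v).symm, rfl, rfl, rfl, rfl⟩⟩,
          false)
    have hK : Function.Injective K := by
      intro v w hvw
      by_cases hv : v < u v <;> by_cases hw : w < u w
      · simp only [K, dif_pos hv, dif_pos hw, Prod.mk.injEq, Subtype.mk.injEq,
          TwoInterval.mk.injEq] at hvw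
        apply Fin.ext
        exact_mod_cast hvw.1.1
      · simp only [K, dif_pos hv, dif_neg hw, Prod.mk.injEq] at hvw
        exact absurd hvw.2 (by simp)
      · simp only [K, dif_neg hv, dif_pos hw, Prod.mk.injEq] at hvw
        exact absurd hvw.2 (by simp)
      · simp only [K, dif_neg hv, dif_neg hw, Prod.mk.injEq, Subtype.mk.injEq,
          TwoInterval.mk.injEq] at hvw
        apply Fin.ext
        exact_mod_cast hvw.1.2.2.1
    have h4 := Fintype.card_le_of_injective K hK
    rw [h3, Fintype.card_fin] at h4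
    have h5 := comparable_card_le H (ofGraph H) le_rfl hc
    omega

theorem opt_iff {m : ℕ} (G : SimpleGraph (Fin m)) :
    2 * opt (ofGraph G) = m ↔ ∃ S ⊆ ofGraph G, Comparable S ∧ 2 * S.ncard = m := by
  have hb : BddAbove {k | ∃ T ⊆ ofGraph G, Comparable T ∧ T.ncard = k} := by
    refine ⟨m, ?_⟩
    rintro k ⟨T, hT, hc, rfl⟩
    have := comparable_card_le G T hT hc
    omega
  have hne : {k | ∃ T ⊆ ofGraph G, Comparable T ∧ T.ncard = k}.Nonempty :=
    ⟨0, ∅, Set.empty_subset _, fun D hD => absurd hD (Set.notMem_empty D), Set.ncard_empty _⟩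
  constructor
  · intro h
    obtain ⟨T, hT, hc, hk⟩ := Nat.sSup_mem hne hb
    refine ⟨T, hT, hc, ?_⟩
    rw [hk]
    exact h
  · rintro ⟨T, hT, hc, hk⟩
    have h1 : T.ncard ≤ opt (ofGraph G) := le_csSup hb ⟨T, hT, hc, rfl⟩
    obtain ⟨T', hT', hc', hk'⟩ := Nat.sSup_mem hne hb
    have h2 := comparable_card_le G T' hT' hc'
    have h3 : T'.ncard = opt (ofGraph G) := hk'
    omega

theorem XG_sparse (x : List Bool) : Sparse (XG D x) :=
  ⟨ofGraph_disjointGround _, ofGraph_ground_ncard _ (deg_pos (by omega) (by omega)),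
    ofGraph_ground_deg _ (deg_le (by omega))⟩

/-- NP-hardness on sparse instances. -/
theorem hard (B : N68a2faeb.DecisionProblem) (hB : B ∈ N68a2faeb.NP) :
    ∃ f : List Bool → List Bool, N68a2faeb.IsPolyTime f ∧
      ∀ x, ∃ (m : ℕ) (G : SimpleGraph (Fin m)), f x = encodeGraph G ∧ Sparse G ∧
        (B x = true ↔ 2 * opt (ofGraph G) = m) := by
  obtain ⟨D, hD, hDS⟩ := cook_levin B hB
  refine ⟨fun x => encodeGraph (XG D x), ?_, fun x => ?_⟩
  · have h := isPolyTime_of_isEmit (emit_XG hD [] [])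
    simpa only [flatMap_singleton_self] using h
  · refine ⟨_, XG D x, rfl, XG_sparse x, ?_⟩
    rw [opt_iff, comparable_iff, XG_perfect hD]
    exact hDS x

/-- A polynomial-time algorithm for sparse instances gives `NP ⊆ P`. -/
theorem collapse (alg : List Bool → List Bool) (hA : N68a2faeb.IsPolyTime alg)
    (h : Solves alg) : N68a2faeb.NP ⊆ N68a2faeb.P := by
  intro B hB
  obtain ⟨f, hf, hfx⟩ := hard B hB
  refine Pool.Agent.Lib_helper36.TMComp.mem_P_of_reduction hf
    (D := noZeroRowD ∘ alg) (Pool.Agent.Lib_helper36.TMComp.isPolyTime_comp hA noZeroRowD_mem)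
    fun x => ?_
  obtain ⟨m, G, h1, h2, h3⟩ := hfx x
  obtain ⟨H, _, h5, h6, h7⟩ := h m G h2
  rw [h1, Bool.eq_iff_iff, h3, ← h6, perfect_iff_cover H h5, ← noZeroRow_encode, ← h7]
  simp only [Function.comp_apply, noZeroRowD, dec, decide_eq_true_eq]

end Pool.Agent.Lib89.NN
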